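import Pool.Agent.FC640.MK.Past

set_option autoImplicit false

open Set Filter Topology Metric MeasureTheory
open scoped ENNReal

namespace Pool.Agent.FC640.MK

open Pool.Agent.W689.Mk

section
variable {X E : Type} [TopologicalSpace X] [T2Space X] [NormedAddCommGroup E] [NormedSpace ℝ E]
  {dev : X → E}

/-- uniform lifetime on compact sets -/
theorem life_unif (hloc : IsLocalHomeomorph dev) {K V : Set (X × E)} (hK : IsCompact K)
    (hV : IsOpen V) (hKV : K ⊆ V) : ∃ ε : ℝ, 0 < ε ∧ ∀ p ∈ K, ∀ s : ℝ, |s| ≤ ε →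
      (p.1, s • p.2) ∈ Dm dev ∧ (Ph dev p.1 (s • p.2), p.2) ∈ V := by
  have h1 : ∀ p ∈ K, ∀ᶠ z : ℝ × (X × E) in 𝓝 ((0 : ℝ), p),
      (z.2.1, z.1 • z.2.2) ∈ Dm dev ∧ (Ph dev z.2.1 (z.1 • z.2.2), z.2.2) ∈ V := by
    intro p hp
    have hc : Continuous fun z : ℝ × (X × E) => (z.2.1, z.1 • z.2.2) :=
      (continuous_fst.comp continuous_snd).prodMk
        (continuous_fst.smul (continuous_snd.comp continuous_snd))
    have h0 : (p.1, (0 : ℝ) • p.2) ∈ Dm dev := by
      rw [zero_smul]; exact ⟨_, Dm_zero hloc p.1⟩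
    have e1 : ∀ᶠ z : ℝ × (X × E) in 𝓝 ((0 : ℝ), p), (z.2.1, z.1 • z.2.2) ∈ Dm dev :=
      hc.continuousAt.eventually ((isOpen_Dm hloc).mem_nhds h0)
    have h2 : ContinuousAt (fun z : ℝ × (X × E) => Ph dev z.2.1 (z.1 • z.2.2)) ((0 : ℝ), p) :=
      ContinuousAt.comp (f := fun z : ℝ × (X × E) => (z.2.1, z.1 • z.2.2))
        (g := fun p : X × E => Ph dev p.1 p.2) (x := ((0 : ℝ), p)) (Ph_contAt hloc h0)
        hc.continuousAt
    have h3 : ContinuousAt (fun z : ℝ × (X × E) => (Ph dev z.2.1 (z.1 • z.2.2), z.2.2))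
        ((0 : ℝ), p) := h2.prodMk (continuous_snd.comp continuous_snd).continuousAt
    have h4 : (Ph dev p.1 ((0 : ℝ) • p.2), p.2) ∈ V := by
      rw [zero_smul, Ph_zero hloc]
      exact hKV hp
    have e2 : ∀ᶠ z : ℝ × (X × E) in 𝓝 ((0 : ℝ), p),
        (Ph dev z.2.1 (z.1 • z.2.2), z.2.2) ∈ V := h3.eventually (hV.mem_nhds h4)
    exact e1.and e2
  have h2 := hK.eventually_forall_of_forall_eventually
    (P := fun (s : ℝ) (p : X × E) => (p.1, s • p.2) ∈ Dm dev ∧
      (Ph dev p.1 (s • p.2), p.2) ∈ V) h1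
  obtain ⟨ε, hε, hb⟩ := Metric.eventually_nhds_iff.1 h2
  refine ⟨ε / 2, by linarith, fun p hp s hs => hb ?_ p hp⟩
  rw [Real.dist_eq, sub_zero]
  linarith

end

section
variable {X Γ E : Type} [TopologicalSpace X] [T2Space X] [Group Γ] [MulAction Γ X]
  [NormedAddCommGroup E] [NormedSpace ℝ E] [FiniteDimensional ℝ E]
  {dev : X → E} {hol : Γ →* (E ≃ᵃ[ℝ] E)}

theorem stay (D : AffData X Γ E dev hol) {K V : Set (X × E)} {ε : ℝ}
    (h : ∀ p ∈ K, ∀ s : ℝ, |s| ≤ ε →
      (p.1, s • p.2) ∈ Dm dev ∧ (Ph dev p.1 (s • p.2), p.2) ∈ V) {x : X} {w : E} {s t : ℝ}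
    (hs : (x, s • w) ∈ Dm dev) (hK : (Ph dev x (s • w), w) ∈ Sat hol K) (ht : |t| ≤ ε) :
    (x, (s + t) • w) ∈ Dm dev ∧ (Ph dev x ((s + t) • w), w) ∈ Sat hol V := by
  obtain ⟨γ, hγ⟩ := hK
  obtain ⟨h1, h2⟩ := h _ hγ t ht
  have e1 : t • lin hol γ w = lin hol γ (t • w) := ((hol γ).linear.map_smul t w).symm
  have h3 : (γ • Ph dev x (s • w), t • lin hol γ w) ∈ Dm dev := h1
  have h4 : (Ph dev (γ • Ph dev x (s • w)) (t • lin hol γ w), lin hol γ w) ∈ V := h2
  rw [e1, mem_Dm_smul D γ] at h3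
  rw [e1, Ph_smul D γ h3] at h4
  have h5 := (Dm_shift D.loc hs t).1 h3
  refine ⟨h5, γ, ?_⟩
  rw [← Ph_shift D.loc hs h5]
  exact h4

/-- the future of incomplete geodesics -/
theorem fut_bound (D : AffData X Γ E dev hol) {x : X} {w : E} (hb : bt dev (x, w) < ⊤)
    {K : Set (X × E)} (hK : IsCompact K) : ∃ r : ℝ, (x, r • w) ∈ Dm dev ∧
      ∀ s : ℝ, (x, s • w) ∈ Dm dev → (Ph dev x (s • w), w) ∈ Sat hol K → s ≤ r := by
  obtain ⟨ε, hε, h⟩ := life_unif D.loc hK isOpen_univ (subset_univ _)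
  have hpos : 0 < (bt dev (x, w)).toReal := ENNReal.toReal_pos (bt_pos D.loc _).ne' hb.ne
  have h0 : (0 : ℝ) ≤ max ((bt dev (x, w)).toReal - ε) 0 := le_max_right _ _
  refine ⟨max ((bt dev (x, w)).toReal - ε) 0, ?_, fun s hs hsK => ?_⟩
  · rw [mem_iff_lt_bt D.loc h0, ENNReal.ofReal_lt_iff_lt_toReal h0 hb.ne]
    exact max_lt (by linarith) hpos
  · by_contra hne
    rw [not_le] at hne
    have h1 : (bt dev (x, w)).toReal - ε < s := lt_of_le_of_lt (le_max_left _ _) hne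
    have h2 : (0 : ℝ) < s := lt_of_le_of_lt (le_max_right _ _) hne
    have h3 := (stay D h hs hsK (t := ε) (by rw [abs_of_pos hε])).1
    rw [mem_iff_lt_bt D.loc (by linarith), ENNReal.ofReal_lt_iff_lt_toReal (by linarith) hb.ne] at h3
    linarith

/-- reflection of a set of vectors -/
def Rf (K : Set (X × E)) : Set (X × E) := (fun p : X × E => (p.1, -p.2)) '' K

omit [T2Space X] [Group Γ] [MulAction Γ X] [FiniteDimensional ℝ E] in
theorem Rf_cpt {K : Set (X × E)} (hK : IsCompact K) : IsCompact (Rf K) :=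
  hK.image (continuous_fst.prodMk continuous_snd.neg)

omit [T2Space X] [TopologicalSpace X] [FiniteDimensional ℝ E] in
theorem Rf_sat {K : Set (X × E)} {x : X} {w : E} (h : (x, w) ∈ Sat hol K) :
    (x, -w) ∈ Sat hol (Rf K) := by
  obtain ⟨γ, hγ⟩ := h
  refine ⟨γ, ⟨_, hγ, ?_⟩⟩
  have h2 : lin hol γ (-w) = -lin hol γ w := (hol γ).linear.map_neg w
  show (γ • x, -lin hol γ w) = (γ • x, lin hol γ (-w))
  rw [h2]

/-- the past of geodesics which are incomplete in the past -/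
theorem past_bound0 (D : AffData X Γ E dev hol) {x : X} {w : E} (hb : bt dev (x, -w) < ⊤)
    {K : Set (X × E)} (hK : IsCompact K) : ∃ r : ℝ, (x, r • w) ∈ Dm dev ∧
      ∀ s : ℝ, (x, s • w) ∈ Dm dev → (Ph dev x (s • w), w) ∈ Sat hol K → r ≤ s := by
  obtain ⟨r, hr, h⟩ := fut_bound D hb (Rf_cpt hK)
  have e : ∀ s : ℝ, s • -w = (-s) • w := fun s => by rw [smul_neg, neg_smul]
  refine ⟨-r, by rw [← e]; exact hr, fun s hs hsK => ?_⟩
  have h1 : (-s) • -w = s • w := by rw [e, neg_neg]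
  have h2 := h (-s) (by rw [h1]; exact hs) (by rw [h1]; exact Rf_sat hsK)
  linarith

end

section
variable {X Γ E : Type} [TopologicalSpace X] [T2Space X] [SecondCountableTopology X] [Nonempty X]
  [MeasurableSpace X] [BorelSpace X] [Group Γ] [MulAction Γ X]
  [NormedAddCommGroup E] [NormedSpace ℝ E] [FiniteDimensional ℝ E] [MeasurableSpace E]
  [BorelSpace E] {dev : X → E} {hol : Γ →* (E ≃ᵃ[ℝ] E)} (lam : Measure E) [lam.IsAddHaarMeasure]

/-- a set of finite measure has little mass far out -/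
theorem tail_small {S : Set ℝ} (hS : MeasurableSet S) (hf : volume S < ⊤) {ε : ℝ} (hε : 0 < ε) :
    ∃ N : ℕ, volume (S ∩ Iic (-(N : ℝ))) < ENNReal.ofReal ε := by
  have h1 : Tendsto (fun N : ℕ => volume (S ∩ Iic (-(N : ℝ)))) atTop
      (𝓝 (volume (⋂ N : ℕ, S ∩ Iic (-(N : ℝ))))) := by
    refine tendsto_measure_iInter_atTop (fun N => (hS.inter measurableSet_Iic).nullMeasurableSet)
      ?_ ⟨0, ne_top_of_le_ne_top hf.ne (measure_mono inter_subset_left)⟩
    intro a b hab s hs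
    refine ⟨hs.1, ?_⟩
    have h2 : s ≤ -(b : ℝ) := hs.2
    have h3 : (a : ℝ) ≤ b := by exact_mod_cast hab
    show s ≤ -(a : ℝ)
    linarith
  have h2 : (⋂ N : ℕ, S ∩ Iic (-(N : ℝ))) = ∅ := by
    rw [eq_empty_iff_forall_notMem]
    intro s hs
    obtain ⟨N, hN⟩ := exists_nat_gt (-s)
    have h3 : s ≤ -(N : ℝ) := (mem_iInter.1 hs N).2
    linarith
  rw [h2, measure_empty] at h1
  exact (h1.eventually_lt_const (ENNReal.ofReal_pos.2 hε)).exists

/-- the past of future-incomplete geodesics, with finite past times -/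
theorem past_bound (D : AffData X Γ E dev hol) {x : X} {w : E}
    (hv : ∀ K : Set (X × E), IsCompact K → volume (Pst dev (Sat hol K) x w) < ⊤)
    {K : Set (X × E)} (hK : IsCompact K) : ∃ r : ℝ, (x, r • w) ∈ Dm dev ∧
      ∀ s : ℝ, (x, s • w) ∈ Dm dev → (Ph dev x (s • w), w) ∈ Sat hol K → r ≤ s := by
  rcases lt_or_eq_of_le (le_top : bt dev (x, -w) ≤ ⊤) with hb | hb
  · exact past_bound0 D hb hK
  · haveI : LocallyCompactSpace X := locallyCompact D
    obtain ⟨K', hK', hKK'⟩ := exists_compact_superset hK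
    obtain ⟨ε, hε, h⟩ := life_unif D.loc hK isOpen_interior hKK'
    have hneg : ∀ s : ℝ, s ≤ 0 → (x, s • w) ∈ Dm dev := by
      intro s hs
      have h1 := (bt_top_iff D.loc).1 hb (-s) (by linarith)
      have h2 : (-s) • -w = s • w := by rw [smul_neg, neg_smul, neg_neg]
      rwa [h2] at h1
    have hSm : MeasurableSet (Pst dev (Sat hol K') x w) :=
      Pst_meas D.loc (Sat_meas D hK'.measurableSet) x w
    obtain ⟨N, hN⟩ := tail_small hSm (hv K' hK') hε
    refine ⟨-(N : ℝ) - ε, hneg _ ?_, fun s hs hsK => ?_⟩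
    · have : (0 : ℝ) ≤ N := Nat.cast_nonneg N
      linarith
    · by_contra hne
      rw [not_le] at hne
      have hsub : Icc (s - ε) s ⊆ Pst dev (Sat hol K') x w ∩ Iic (-(N : ℝ)) := by
        intro t ht
        have h1 := stay D h hs hsK (t := t - s) (by
          rw [abs_le]
          constructor <;> linarith [ht.1, ht.2])
        rw [add_sub_cancel] at h1
        have h0 : (0 : ℝ) ≤ N := Nat.cast_nonneg N
        refine ⟨⟨by linarith [ht.2], h1.1, Sat_mono interior_subset h1.2⟩, ?_⟩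
        show t ≤ -(N : ℝ)
        linarith [ht.2]
      have h2 := measure_mono (μ := volume) hsub
      rw [Real.volume_Icc] at h2
      have h3 : s - (s - ε) = ε := by ring
      rw [h3] at h2
      exact absurd hN (not_lt.2 h2)

/-- almost every geodesic is complete or escapes in both directions -/
theorem escape {m : Measure E} [IsLocallyFiniteMeasure m]
    (hm : ∀ γ : Γ, m.map (lin hol γ) = m)
    (D : AffData X Γ E dev hol) {μ : Measure X} (hμ : ChartMeas dev lam μ) :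
    ∀ᵐ w ∂m, ∀ᵐ x ∂μ, (∀ s : ℝ, (x, s • w) ∈ Dm dev) ∨
      ∀ K : Set (X × E), IsCompact K → ∃ r₁ r₂ : ℝ, (x, r₁ • w) ∈ Dm dev ∧
        (x, r₂ • w) ∈ Dm dev ∧ ∀ s : ℝ, (x, s • w) ∈ Dm dev →
          (Ph dev x (s • w), w) ∈ Sat hol K → r₁ ≤ s ∧ s ≤ r₂ := by
  have h1 := past_fin lam hm D hμ
  have hm' : ∀ γ : Γ, (m.map fun u => -u).map (lin hol γ) = m.map fun u => -u := by
    intro γ
    have hA : Measurable (lin hol γ) := (lin_cont γ).measurable
    rw [Measure.map_map hA measurable_neg]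
    conv_rhs => rw [← hm γ]
    rw [Measure.map_map measurable_neg hA]
    congr 1
    funext u
    exact (hol γ).linear.map_neg u
  haveI : IsLocallyFiniteMeasure (m.map fun u : E => -u) := by
    refine ⟨fun u => ?_⟩
    obtain ⟨V, hV, hVf⟩ := (‹IsLocallyFiniteMeasure m›).finiteAtNhds (-u)
    obtain ⟨O, hOV, hO, hOu⟩ := _root_.mem_nhds_iff.1 hV
    refine ⟨(fun u : E => -u) ⁻¹' O, (hO.preimage continuous_neg).mem_nhds hOu, ?_⟩
    rw [Measure.map_apply measurable_neg (measurable_neg hO.measurableSet)]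
    have : (fun u : E => -u) ⁻¹' ((fun u : E => -u) ⁻¹' O) = O := by
      ext v; simp
    rw [this]
    exact lt_of_le_of_lt (measure_mono hOV) hVf
  have h2 := ae_of_ae_map measurable_neg.aemeasurable (past_fin lam hm' D hμ)
  filter_upwards [h1, h2] with w hw1 hw2
  filter_upwards [hw1, hw2] with x hx1 hx2
  rcases lt_or_eq_of_le (le_top : bt dev (x, w) ≤ ⊤) with hb | hb
  · right
    intro K hK
    obtain ⟨r₂, g1, g2⟩ := fut_bound D hb hK
    obtain ⟨r₁, g3, g4⟩ := past_bound D (hx1 hb) hK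
    exact ⟨r₁, r₂, g3, g1, fun s hs hsK => ⟨g4 s hs hsK, g2 s hs hsK⟩⟩
  · rcases lt_or_eq_of_le (le_top : bt dev (x, -w) ≤ ⊤) with hb' | hb'
    · right
      intro K hK
      obtain ⟨r₁, g1, g2⟩ := past_bound0 D hb' hK
      obtain ⟨r, g3, g4⟩ := past_bound D (hx2 hb') (Rf_cpt hK)
      have e : ∀ s : ℝ, s • -w = (-s) • w := fun s => by rw [smul_neg, neg_smul]
      refine ⟨r₁, -r, g1, by rw [← e]; exact g3, fun s hs hsK => ⟨g2 s hs hsK, ?_⟩⟩
      have h3 : (-s) • -w = s • w := by rw [e, neg_neg]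
      have h4 := g4 (-s) (by rw [h3]; exact hs) (by rw [h3]; exact Rf_sat hsK)
      linarith
    · left
      intro s
      rcases le_total 0 s with hs | hs
      · exact (bt_top_iff D.loc).1 hb s hs
      · have h1 := (bt_top_iff D.loc).1 hb' (-s) (by linarith)
        have h2 : (-s) • -w = s • w := by rw [smul_neg, neg_smul, neg_neg]
        rwa [h2] at h1

end

end Pool.Agent.FC640.MK
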