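import Pool.Agent.FC640.MK.One

set_option autoImplicit false

open Set Filter Topology Metric MeasureTheory
open scoped ENNReal

namespace Pool.Agent.FC640.MK

open Pool.Agent.W689.Mk

section
variable {X E : Type} [TopologicalSpace X] [T2Space X] [NormedAddCommGroup E] [NormedSpace ℝ E]
  {dev : X → E}

/-- the past times spent in `A` -/
def Pst (dev : X → E) (A : Set (X × E)) (x : X) (w : E) : Set ℝ :=
  {s | s ≤ 0 ∧ (x, s • w) ∈ Dm dev ∧ (Ph dev x (s • w), w) ∈ A}

open Classical in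
/-- the transport kernel -/
noncomputable def Ke (dev : X → E) (A : Set (X × E)) (N : ℝ≥0∞) (w : E) (s : ℝ) (x : X) : ℝ≥0∞ :=
  if (x, w) ∈ A ∧ 0 ≤ s ∧ (x, s • w) ∈ Dm dev ∧ (Ph dev x (s • w), w) ∈ A ∧
    bt dev (Ph dev x (s • w), w) ≤ N then 1 else 0

theorem Ph_zero (hloc : IsLocalHomeomorph dev) (x : X) : Ph dev x 0 = x :=
  Ph_eq hloc (Dm_zero hloc x)

theorem Ke_left (hloc : IsLocalHomeomorph dev) (A : Set (X × E)) (N : ℕ) (w : E) (x : X) :
    ∫⁻ s : ℝ, ind dev x (s • w) * Ke dev A N w s x ≤ ENNReal.ofReal (2 * N) * A.indicator 1 (x, w) := by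
  classical
  by_cases hA : (x, w) ∈ A
  · rw [indicator_of_mem hA]
    show _ ≤ _ * (1 : ℝ≥0∞)
    rw [mul_one]
    by_cases hex : ∃ s₀ : ℝ, Ke dev A N w s₀ x ≠ 0
    · obtain ⟨s₀, hs₀⟩ := hex
      have hiff : ∀ s, Ke dev A N w s x ≠ 0 → 0 ≤ s ∧ (x, s • w) ∈ Dm dev ∧
          bt dev (Ph dev x (s • w), w) ≤ N := by
        intro s hs
        unfold Ke at hs
        by_contra hne
        exact hs (if_neg fun h => hne ⟨h.2.1, h.2.2.1, h.2.2.2.2⟩)
      have hcmp : ∀ s t : ℝ, Ke dev A N w s x ≠ 0 → Ke dev A N w t x ≠ 0 → t ≤ s + N := by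
        intro s t hs ht
        obtain ⟨_, h2, h3⟩ := hiff s hs
        obtain ⟨_, g2, _⟩ := hiff t ht
        by_contra hlt
        have hlt' : (N : ℝ) < t - s := by linarith [not_le.1 hlt]
        have h4 : (Ph dev x (s • w), (t - s) • w) ∈ Dm dev := by
          rw [Dm_shift hloc h2, add_sub_cancel]
          exact g2
        have h0 : (0 : ℝ) ≤ t - s := le_trans (Nat.cast_nonneg N) hlt'.le
        have h5 := (mem_iff_lt_bt hloc h0).1 h4
        have h6 : ENNReal.ofReal (t - s) < N := lt_of_lt_of_le h5 h3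
        have h7 : (N : ℝ≥0∞) ≤ ENNReal.ofReal (t - s) := by
          rw [← ENNReal.ofReal_natCast]
          exact ENNReal.ofReal_le_ofReal hlt'.le
        exact absurd h6 (not_lt.2 h7)
      have e1 : ∀ s : ℝ, ind dev x (s • w) * Ke dev A N w s x ≤
          (Icc (s₀ - N) (s₀ + N)).indicator (fun _ => (1 : ℝ≥0∞)) s := by
        intro s
        by_cases hs : Ke dev A N w s x = 0
        · rw [hs, mul_zero]; exact bot_le
        · have h1 := hcmp s₀ s hs₀ hs
          have h2 := hcmp s s₀ hs hs₀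
          rw [indicator_of_mem (show s ∈ Icc (s₀ - N) (s₀ + N) from ⟨by linarith, by linarith⟩)]
          rw [ind_of (hiff s hs).2.1, one_mul]
          unfold Ke
          split_ifs
          · exact le_rfl
          · exact bot_le
      refine (lintegral_mono e1).trans ?_
      rw [lintegral_indicator measurableSet_Icc, setLIntegral_const, Real.volume_Icc, one_mul]
      refine ENNReal.ofReal_le_ofReal ?_
      linarith
    · have hz : ∀ s, Ke dev A N w s x = 0 := by
        intro s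
        by_contra h
        exact hex ⟨s, h⟩
      simp only [hz, mul_zero, lintegral_zero]
      exact bot_le
  · have hz : ∀ s, Ke dev A N w s x = 0 := by
      intro s
      unfold Ke
      rw [if_neg fun h => hA h.1]
    simp only [hz, mul_zero, lintegral_zero]
    exact bot_le

theorem Ke_right (hloc : IsLocalHomeomorph dev) (A : Set (X × E)) (N : ℕ) {w : E} {x : X}
    (hA : (x, w) ∈ A) (hN : bt dev (x, w) ≤ N) (s : ℝ) :
    (Pst dev A x w).indicator 1 s ≤ ind dev x (s • w) * Ke dev A N w (-s) (Ph dev x (s • w)) := by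
  by_cases hs : s ∈ Pst dev A x w
  · obtain ⟨h1, h2, h3⟩ := hs
    rw [indicator_of_mem (show s ∈ Pst dev A x w from ⟨h1, h2, h3⟩), ind_of h2, one_mul]
    have h0 : (x, (s + -s) • w) ∈ Dm dev := by
      rw [add_neg_cancel, zero_smul]; exact ⟨_, Dm_zero hloc x⟩
    have h4 : (Ph dev x (s • w), (-s) • w) ∈ Dm dev := (Dm_shift hloc h2 _).2 h0
    have h5 : Ph dev (Ph dev x (s • w)) ((-s) • w) = x := by
      rw [Ph_shift hloc h2 h0, add_neg_cancel, zero_smul, Ph_zero hloc]
    unfold Ke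
    rw [if_pos]
    · rfl
    · refine ⟨h3, by linarith, h4, ?_, ?_⟩
      · rw [h5]; exact hA
      · rw [h5]; exact hN
  · rw [indicator_of_notMem hs]
    exact bot_le

end

section
variable {X Γ E : Type} [TopologicalSpace X] [T2Space X] [SecondCountableTopology X] [Nonempty X]
  [MeasurableSpace X] [BorelSpace X] [Group Γ] [MulAction Γ X]
  [NormedAddCommGroup E] [NormedSpace ℝ E] [FiniteDimensional ℝ E] [MeasurableSpace E]
  [BorelSpace E] {dev : X → E} {hol : Γ →* (E ≃ᵃ[ℝ] E)} (lam : Measure E) [lam.IsAddHaarMeasure]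

/-- saturation of a set of tangent vectors -/
def Sat (hol : Γ →* (E ≃ᵃ[ℝ] E)) (K : Set (X × E)) : Set (X × E) :=
  {p | ∃ γ : Γ, (γ • p.1, lin hol γ p.2) ∈ K}

omit [T2Space X] [SecondCountableTopology X] [Nonempty X] [MeasurableSpace X] [BorelSpace X]
  [FiniteDimensional ℝ E] [MeasurableSpace E] [BorelSpace E] [TopologicalSpace X] in
theorem Sat_smul (K : Set (X × E)) (γ : Γ) (x : X) (w : E) :
    (γ • x, lin hol γ w) ∈ Sat hol K ↔ (x, w) ∈ Sat hol K := by
  constructor
  · rintro ⟨δ, hδ⟩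
    refine ⟨δ * γ, ?_⟩
    show ((δ * γ) • x, lin hol (δ * γ) w) ∈ K
    rw [mul_smul, lin_mul]
    exact hδ
  · rintro ⟨δ, hδ⟩
    refine ⟨δ * γ⁻¹, ?_⟩
    show ((δ * γ⁻¹) • γ • x, lin hol (δ * γ⁻¹) (lin hol γ w)) ∈ K
    rw [mul_smul, inv_smul_smul, lin_mul, lin_inv_apply]
    exact hδ

omit [T2Space X] [SecondCountableTopology X] [Nonempty X] [MeasurableSpace X] [BorelSpace X]
  [FiniteDimensional ℝ E] [MeasurableSpace E] [BorelSpace E] [TopologicalSpace X] in
theorem lin_one (w : E) : lin hol (1 : Γ) w = w := by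
  have h := lin_inv_apply (hol := hol) (1 : Γ) w
  rw [inv_one, ← lin_mul, one_mul] at h
  exact h

omit [T2Space X] [SecondCountableTopology X] [Nonempty X] [MeasurableSpace X] [BorelSpace X]
  [FiniteDimensional ℝ E] [MeasurableSpace E] [BorelSpace E] [TopologicalSpace X] in
theorem subset_Sat (K : Set (X × E)) : K ⊆ Sat hol K := by
  rintro ⟨x, w⟩ h
  refine ⟨1, ?_⟩
  show ((1 : Γ) • x, lin hol 1 w) ∈ K
  rw [one_smul, lin_one]
  exact h

omit [T2Space X] [SecondCountableTopology X] [Nonempty X] [MeasurableSpace X] [BorelSpace X]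
  [FiniteDimensional ℝ E] [MeasurableSpace E] [BorelSpace E] [TopologicalSpace X] in
theorem Sat_mono {K K' : Set (X × E)} (h : K ⊆ K') : Sat hol K ⊆ Sat hol K' := by
  rintro p ⟨γ, hγ⟩
  exact ⟨γ, h hγ⟩

omit [SecondCountableTopology X] [Nonempty X] [MeasurableSpace X] [BorelSpace X]
  [MeasurableSpace E] [BorelSpace E] [T2Space X] in
theorem lin_cont (γ : Γ) : Continuous fun u : E => lin hol γ u :=
  LinearMap.continuous_of_finiteDimensional ((hol γ).linear : E →ₗ[ℝ] E)

theorem Sat_meas (D : AffData X Γ E dev hol) {K : Set (X × E)} (hK : MeasurableSet K) :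
    MeasurableSet (Sat hol K) := by
  haveI : Countable Γ := countable_group D
  have : Sat hol K = ⋃ γ : Γ, (fun p : X × E => (γ • p.1, lin hol γ p.2)) ⁻¹' K := by
    ext p
    simp only [Sat, mem_setOf_eq, mem_iUnion, mem_preimage]
  rw [this]
  refine MeasurableSet.iUnion fun γ => ?_
  have h1 : Measurable fun p : X × E => (γ • p.1, lin hol γ p.2) :=
    ((D.cont γ).measurable.comp measurable_fst).prodMk
      ((lin_cont γ).measurable.comp measurable_snd)
  exact h1 hK

theorem dirActLin {m : Measure E} (hm : ∀ γ : Γ, m.map (lin hol γ) = m) :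
    DirAct hol (fun γ u => lin hol γ u) (fun _ _ => 1) m :=
  ⟨fun γ => (lin_cont γ).measurable, fun _ => measurable_const, fun _ _ => one_pos,
    fun _ _ => (one_smul ℝ _).symm, hm⟩

theorem bt_smul (D : AffData X Γ E dev hol) (γ : Γ) (x : X) (w : E) :
    bt dev (γ • x, lin hol γ w) = bt dev (x, w) := by
  unfold bt
  refine iSup_congr fun s => ?_
  have e1 : s • lin hol γ w = lin hol γ (s • w) := ((hol γ).linear.map_smul s w).symm
  have : (((γ • x, lin hol γ w) : X × E).1, s • ((γ • x, lin hol γ w) : X × E).2) ∈ Dm dev ↔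
      (((x, w) : X × E).1, s • ((x, w) : X × E).2) ∈ Dm dev := by
    show (γ • x, s • lin hol γ w) ∈ Dm dev ↔ (x, s • w) ∈ Dm dev
    rw [e1, mem_Dm_smul D γ]
  exact iSup_congr_Prop this fun _ => rfl

theorem Pst_smul (D : AffData X Γ E dev hol) {A : Set (X × E)}
    (hA : ∀ (γ : Γ) x w, (γ • x, lin hol γ w) ∈ A ↔ (x, w) ∈ A) (γ : Γ) (x : X) (w : E) :
    Pst dev A (γ • x) (lin hol γ w) = Pst dev A x w := by
  ext s
  have e1 : s • lin hol γ w = lin hol γ (s • w) := ((hol γ).linear.map_smul s w).symm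
  unfold Pst
  simp only [mem_setOf_eq]
  rw [e1, mem_Dm_smul D γ]
  refine and_congr_right fun _ => and_congr_right fun h => ?_
  rw [Ph_smul D γ h, hA]

theorem Ke_inv (D : AffData X Γ E dev hol) {A : Set (X × E)}
    (hA : ∀ (γ : Γ) x w, (γ • x, lin hol γ w) ∈ A ↔ (x, w) ∈ A) (N : ℝ≥0∞) (γ : Γ) (w : E)
    (s : ℝ) (x : X) : Ke dev A N (lin hol γ w) (1 * s) (γ • x) * ENNReal.ofReal 1 =
      Ke dev A N w s x := by
  rw [one_mul, ENNReal.ofReal_one, mul_one]
  have e1 : s • lin hol γ w = lin hol γ (s • w) := ((hol γ).linear.map_smul s w).symm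
  unfold Ke
  rw [e1]
  have : ((γ • x, lin hol γ w) ∈ A ∧ 0 ≤ s ∧ (γ • x, lin hol γ (s • w)) ∈ Dm dev ∧
      (Ph dev (γ • x) (lin hol γ (s • w)), lin hol γ w) ∈ A ∧
      bt dev (Ph dev (γ • x) (lin hol γ (s • w)), lin hol γ w) ≤ N) ↔
      ((x, w) ∈ A ∧ 0 ≤ s ∧ (x, s • w) ∈ Dm dev ∧ (Ph dev x (s • w), w) ∈ A ∧
      bt dev (Ph dev x (s • w), w) ≤ N) := by
    rw [hA, mem_Dm_smul D γ]
    refine and_congr_right fun _ => and_congr_right fun _ => and_congr_right fun h => ?_
    rw [Ph_smul D γ h, hA, bt_smul D]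
  by_cases h : (x, w) ∈ A ∧ 0 ≤ s ∧ (x, s • w) ∈ Dm dev ∧ (Ph dev x (s • w), w) ∈ A ∧
      bt dev (Ph dev x (s • w), w) ≤ N
  · rw [if_pos h, if_pos (this.2 h)]
  · rw [if_neg h, if_neg fun h' => h (this.1 h')]

theorem Ke_meas (hloc : IsLocalHomeomorph dev) {A : Set (X × E)} (hA : MeasurableSet A)
    (N : ℝ≥0∞) : Measurable fun p : E × ℝ × X => Ke dev A N p.1 p.2.1 p.2.2 := by
  have hP : Measurable fun p : X × E => Ph dev p.1 p.2 := Ph_measurable hloc
  have c1 : Measurable fun p : E × ℝ × X => p.1 := measurable_fst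
  have c2 : Measurable fun p : E × ℝ × X => p.2.1 := measurable_fst.comp measurable_snd
  have c3 : Measurable fun p : E × ℝ × X => p.2.2 := measurable_snd.comp measurable_snd
  have c31 : Measurable fun p : E × ℝ × X => (p.2.2, p.1) := c3.prodMk c1
  have msu : Measurable fun p : E × ℝ × X => (p.2.2, p.2.1 • p.1) := c3.prodMk (c2.smul c1)
  have mPh : Measurable fun p : E × ℝ × X => (Ph dev p.2.2 (p.2.1 • p.1), p.1) :=
    (hP.comp msu).prodMk c1
  unfold Ke
  refine Measurable.ite ?_ measurable_const measurable_const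
  have e1 : MeasurableSet {p : E × ℝ × X | (p.2.2, p.1) ∈ A} := c31 hA
  have e2 : MeasurableSet {p : E × ℝ × X | 0 ≤ p.2.1} := measurableSet_le measurable_const c2
  have e3 : MeasurableSet {p : E × ℝ × X | (p.2.2, p.2.1 • p.1) ∈ Dm dev} :=
    msu (isOpen_Dm hloc).measurableSet
  have e4 : MeasurableSet {p : E × ℝ × X | (Ph dev p.2.2 (p.2.1 • p.1), p.1) ∈ A} := mPh hA
  have e5 : MeasurableSet {p : E × ℝ × X | bt dev (Ph dev p.2.2 (p.2.1 • p.1), p.1) ≤ N} :=
    measurableSet_le ((bt_meas hloc).comp mPh) measurable_const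
  exact e1.inter (e2.inter (e3.inter (e4.inter e5)))

theorem Pst_meas3 (hloc : IsLocalHomeomorph dev) {A : Set (X × E)} (hA : MeasurableSet A) :
    Measurable fun p : E × ℝ × X => (Pst dev A p.2.2 p.1).indicator (1 : ℝ → ℝ≥0∞) p.2.1 := by
  classical
  have hP : Measurable fun p : X × E => Ph dev p.1 p.2 := Ph_measurable hloc
  have c1 : Measurable fun p : E × ℝ × X => p.1 := measurable_fst
  have c2 : Measurable fun p : E × ℝ × X => p.2.1 := measurable_fst.comp measurable_snd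
  have c3 : Measurable fun p : E × ℝ × X => p.2.2 := measurable_snd.comp measurable_snd
  have msu : Measurable fun p : E × ℝ × X => (p.2.2, p.2.1 • p.1) := c3.prodMk (c2.smul c1)
  have mPh : Measurable fun p : E × ℝ × X => (Ph dev p.2.2 (p.2.1 • p.1), p.1) :=
    (hP.comp msu).prodMk c1
  have e2 : MeasurableSet {p : E × ℝ × X | p.2.1 ≤ 0} := measurableSet_le c2 measurable_const
  have e3 : MeasurableSet {p : E × ℝ × X | (p.2.2, p.2.1 • p.1) ∈ Dm dev} :=
    msu (isOpen_Dm hloc).measurableSet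
  have e4 : MeasurableSet {p : E × ℝ × X | (Ph dev p.2.2 (p.2.1 • p.1), p.1) ∈ A} := mPh hA
  have h1 : (fun p : E × ℝ × X => (Pst dev A p.2.2 p.1).indicator (1 : ℝ → ℝ≥0∞) p.2.1) =
      ({p : E × ℝ × X | p.2.1 ≤ 0} ∩ ({p : E × ℝ × X | (p.2.2, p.2.1 • p.1) ∈ Dm dev} ∩
        {p : E × ℝ × X | (Ph dev p.2.2 (p.2.1 • p.1), p.1) ∈ A})).indicator 1 := by
    funext p
    by_cases hp : p.2.1 ∈ Pst dev A p.2.2 p.1
    · rw [indicator_of_mem hp, indicator_of_mem]
      · rfl
      · exact hp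
    · rw [indicator_of_notMem hp, indicator_of_notMem]
      exact hp
  rw [h1]
  exact measurable_one.indicator (e2.inter (e3.inter e4))

theorem Pst_meas (hloc : IsLocalHomeomorph dev) {A : Set (X × E)} (hA : MeasurableSet A) (x : X)
    (w : E) : MeasurableSet (Pst dev A x w) := by
  have h1 := Pst_meas3 hloc hA
  have h2 : Measurable fun s : ℝ => (Pst dev A x w).indicator (1 : ℝ → ℝ≥0∞) s :=
    h1.comp (measurable_const.prodMk (measurable_id.prodMk measurable_const))
  have h3 : Pst dev A x w = (fun s : ℝ => (Pst dev A x w).indicator (1 : ℝ → ℝ≥0∞) s) ⁻¹' {1} := by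
    ext s
    by_cases hs : s ∈ Pst dev A x w
    · simp only [mem_preimage, indicator_of_mem hs, hs, mem_singleton_iff, Pi.one_apply]
    · simp only [mem_preimage, indicator_of_notMem hs, hs, mem_singleton_iff, zero_ne_one]
  rw [h3]
  exact h2 (measurableSet_singleton 1)

/-- finite covolume of saturations of compact sets -/
theorem Sat_covol {m : Measure E} [IsLocallyFiniteMeasure m] (hm : ∀ γ : Γ, m.map (lin hol γ) = m)
    (D : AffData X Γ E dev hol) {μ : Measure X} (hμ : ChartMeas dev lam μ)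
    {G : X → ℝ≥0∞} (hG : Measurable G) (hG1 : ∀ x, ∑' γ : Γ, G (γ • x) = 1)
    {K : Set (X × E)} (hK : IsCompact K) (hKm : MeasurableSet K) :
    ∫⁻ w, ∫⁻ x, G x * (Sat hol K).indicator 1 (x, w) ∂μ ∂m ≠ (⊤ : ℝ≥0∞) := by
  haveI : IsLocallyFiniteMeasure μ := locFin lam D.loc hμ
  haveI : Countable Γ := countable_group D
  have hI : Measurable fun p : E × X => K.indicator (1 : X × E → ℝ≥0∞) (p.2, p.1) :=
    (measurable_one.indicator hKm).comp (measurable_snd.prodMk measurable_fst)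
  have hγm : ∀ γ : Γ, Measurable fun x : X => γ • x := fun γ => (D.cont γ).measurable
  have hIγ : ∀ γ : Γ, Measurable fun p : E × X =>
      K.indicator (1 : X × E → ℝ≥0∞) (γ • p.2, lin hol γ p.1) := fun γ =>
    (measurable_one.indicator hKm).comp (((hγm γ).comp measurable_snd).prodMk
      ((lin_cont γ).measurable.comp measurable_fst))
  have hF1 : ∀ γ : Γ, Measurable fun p : E × X =>
      G p.2 * K.indicator (1 : X × E → ℝ≥0∞) (γ • p.2, lin hol γ p.1) := fun γ =>
    Measurable.mul (hG.comp measurable_snd) (hIγ γ)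
  have hF2 : ∀ γ : Γ, Measurable fun p : E × X =>
      G (γ⁻¹ • p.2) * K.indicator (1 : X × E → ℝ≥0∞) (p.2, p.1) := fun γ =>
    Measurable.mul (hG.comp ((hγm γ⁻¹).comp measurable_snd)) hI
  have sw : ∀ {T : Γ → E → X → ℝ≥0∞}, (∀ γ, Measurable fun p : E × X => T γ p.1 p.2) →
      ∫⁻ w, ∫⁻ x, ∑' γ, T γ w x ∂μ ∂m = ∑' γ, ∫⁻ w, ∫⁻ x, T γ w x ∂μ ∂m := by
    intro T hT
    have h1 : ∀ w, ∫⁻ x, ∑' γ, T γ w x ∂μ = ∑' γ, ∫⁻ x, T γ w x ∂μ := fun w =>
      lintegral_tsum fun γ => ((hT γ).comp (measurable_const.prodMk measurable_id)).aemeasurable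
    simp only [h1]
    exact lintegral_tsum fun γ => ((hT γ).lintegral_prod_right').aemeasurable
  have s1 : ∫⁻ w, ∫⁻ x, G x * (Sat hol K).indicator 1 (x, w) ∂μ ∂m ≤
      ∫⁻ w, ∫⁻ x, ∑' γ : Γ, G x * K.indicator (1 : X × E → ℝ≥0∞) (γ • x, lin hol γ w) ∂μ ∂m := by
    refine lintegral_mono fun w => lintegral_mono fun x => ?_
    show G x * (Sat hol K).indicator 1 (x, w) ≤
      ∑' γ : Γ, G x * K.indicator (1 : X × E → ℝ≥0∞) (γ • x, lin hol γ w)
    by_cases h : (x, w) ∈ Sat hol K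
    · obtain ⟨γ, hγ⟩ := h
      rw [indicator_of_mem (show (x, w) ∈ Sat hol K from ⟨γ, hγ⟩)]
      refine le_trans ?_ (ENNReal.le_tsum γ)
      rw [indicator_of_mem (show (γ • x, lin hol γ w) ∈ K from hγ)]
      exact le_rfl
    · rw [indicator_of_notMem h, mul_zero]
      exact bot_le
  have s2 : ∀ γ : Γ, ∫⁻ w, ∫⁻ x, G x * K.indicator (1 : X × E → ℝ≥0∞) (γ • x, lin hol γ w) ∂μ ∂m =
      ∫⁻ w, ∫⁻ x, G (γ⁻¹ • x) * K.indicator (1 : X × E → ℝ≥0∞) (x, w) ∂μ ∂m := by
    intro γ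
    have h1 := inv_pair lam (dirActLin hm) D hμ γ
      (F := fun w x => G (γ⁻¹ • x) * K.indicator (1 : X × E → ℝ≥0∞) (x, w)) (hF2 γ)
    rw [← h1]
    refine lintegral_congr fun w => lintegral_congr fun x => ?_
    beta_reduce
    rw [inv_smul_smul]
  have s3 : ∫⁻ w, ∫⁻ x, ∑' γ : Γ, G x * K.indicator (1 : X × E → ℝ≥0∞) (γ • x, lin hol γ w) ∂μ ∂m =
      ∫⁻ w, ∫⁻ x, K.indicator (1 : X × E → ℝ≥0∞) (x, w) ∂μ ∂m := by
    rw [sw hF1]
    simp only [s2]
    rw [← sw hF2]
    refine lintegral_congr fun w => lintegral_congr fun x => ?_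
    rw [ENNReal.tsum_mul_right]
    have h2 : ∑' γ : Γ, G (γ⁻¹ • x) = 1 := by
      rw [← hG1 x]
      exact (Equiv.inv Γ).tsum_eq (fun γ : Γ => G (γ • x))
    rw [h2, one_mul]
  have s4 : ∫⁻ w, ∫⁻ x, K.indicator (1 : X × E → ℝ≥0∞) (x, w) ∂μ ∂m ≤
      μ (Prod.fst '' K) * m (Prod.snd '' K) := by
    have h1 : ∀ w, ∫⁻ x, K.indicator (1 : X × E → ℝ≥0∞) (x, w) ∂μ ≤
        (Prod.snd '' K).indicator (fun _ => μ (Prod.fst '' K)) w := by
      intro w
      by_cases hw : w ∈ Prod.snd '' K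
      · rw [indicator_of_mem hw, ← lintegral_indicator_one (hK.image continuous_fst).measurableSet]
        refine lintegral_mono fun x => ?_
        by_cases hx : (x, w) ∈ K
        · rw [indicator_of_mem hx, indicator_of_mem (show x ∈ Prod.fst '' K from ⟨_, hx, rfl⟩)]
          exact le_rfl
        · rw [indicator_of_notMem hx]
          exact bot_le
      · have : ∀ x, K.indicator (1 : X × E → ℝ≥0∞) (x, w) = 0 := fun x =>
          indicator_of_notMem (fun h => hw ⟨_, h, rfl⟩) _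
        simp only [this, lintegral_zero]
        exact bot_le
    refine (lintegral_mono h1).trans ?_
    rw [lintegral_indicator (hK.image continuous_snd).measurableSet, setLIntegral_const]
  refine ne_top_of_le_ne_top ?_ (s1.trans (s3.trans_le s4))
  exact ENNReal.mul_ne_top (hK.image continuous_fst).measure_lt_top.ne
    (hK.image continuous_snd).measure_lt_top.ne

end

end Pool.Agent.FC640.MK
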