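import Pool.Agent.FC640.MK.Law

set_option autoImplicit false

open Set Filter Topology Metric MeasureTheory
open scoped ENNReal

namespace Pool.Agent.FC640.MK

open Pool.Agent.W689.Mk

section
variable {X E : Type} [TopologicalSpace X] [NormedAddCommGroup E] [NormedSpace ℝ E]

/-- the lifetime of the geodesic ray with initial point `x` and initial velocity `u` -/
noncomputable def life (dev : X → E) (x : X) (u : E) : ℝ≥0∞ :=
  ⨆ (t : ℝ) (_ : Geod dev x (t • u)), ENNReal.ofReal t

/-- the geodesics which are incomplete in both directions, given by initial point and velocity -/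
def TwoSided (dev : X → E) : Set (X × E) :=
  {p | life dev p.1 p.2 < ⊤ ∧ life dev p.1 (-p.2) < ⊤}

/-- the relative position of the initial point on such a geodesic: the length of the past divided
by the total length -/
noncomputable def position (dev : X → E) (p : X × E) : ℝ :=
  (life dev p.1 (-p.2)).toReal / ((life dev p.1 (-p.2)).toReal + (life dev p.1 p.2).toReal)

variable [T2Space X] {dev : X → E}

theorem life_eq (hloc : IsLocalHomeomorph dev) (x : X) (u : E) : life dev x u = bt dev (x, u) := by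
  unfold life bt
  refine iSup_congr fun t => ?_
  have : Geod dev x (t • u) ↔ (((x, u) : X × E).1, t • ((x, u) : X × E).2) ∈ Dm dev := by
    constructor
    · intro h
      exact h.ex hloc
    · rintro ⟨y, hy⟩
      exact Ex.geod hy
  exact iSup_congr_Prop this fun _ => rfl

theorem twoSided_eq (hloc : IsLocalHomeomorph dev) : TwoSided dev = W2 dev := by
  ext p
  show (life dev p.1 p.2 < ⊤ ∧ life dev p.1 (-p.2) < ⊤) ↔ _
  rw [life_eq hloc, life_eq hloc]
  rfl

theorem pos_eq (hloc : IsLocalHomeomorph dev) (B : Set ℝ) :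
    {p | p ∈ TwoSided dev ∧ position dev p ∈ B} = WB dev B := by
  ext p
  rw [mem_setOf_eq, twoSided_eq hloc]
  unfold position
  rw [life_eq hloc, life_eq hloc]
  rfl

end

section
variable {X Γ E : Type} [TopologicalSpace X] [T2Space X] [SecondCountableTopology X] [Nonempty X]
  [MeasurableSpace X] [BorelSpace X] [Group Γ] [MulAction Γ X]
  [NormedAddCommGroup E] [NormedSpace ℝ E] [FiniteDimensional ℝ E] [MeasurableSpace E]
  [BorelSpace E] {dev : X → E} {hol : Γ →* (E ≃ᵃ[ℝ] E)} (lam : Measure E) [lam.IsAddHaarMeasure]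

theorem neg_inv {m : Measure E}
    (hm : ∀ γ : Γ, m.map (fun u => (‖u‖ / ‖lin hol γ u‖) • lin hol γ u) = m) (γ : Γ) :
    (m.map fun u => -u).map (fun u => (‖u‖ / ‖lin hol γ u‖) • lin hol γ u) =
      m.map fun u => -u := by
  have hA : Measurable fun u : E => (‖u‖ / ‖lin hol γ u‖) • lin hol γ u :=
    (measurable_norm.div (lin_cont γ).measurable.norm).smul (lin_cont γ).measurable
  rw [Measure.map_map hA measurable_neg]
  conv_rhs => rw [← hm γ]
  rw [Measure.map_map measurable_neg hA]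
  congr 1
  funext u
  have h2 : lin hol γ (-u) = -lin hol γ u := (hol γ).linear.map_neg u
  show (‖-u‖ / ‖lin hol γ (-u)‖) • lin hol γ (-u) = -((‖u‖ / ‖lin hol γ u‖) • lin hol γ u)
  rw [h2, norm_neg, norm_neg, smul_neg]

theorem law_fin (D : AffData X Γ E dev hol) {μ : Measure X} (hμ : ChartMeas dev lam μ)
    {m : Measure E} (hm : ∀ γ : Γ, m.map (fun u => (‖u‖ / ‖lin hol γ u‖) • lin hol γ u) = m)
    {G : X → ℝ≥0∞} (hG : Measurable G) (hG1 : ∀ x, ∑' γ : Γ, G (γ • x) = 1)
    {B : Set ℝ} (hB : MeasurableSet B) :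
    ∫⁻ u, ∫⁻ x, G x * {p | p ∈ TwoSided dev ∧ position dev p ∈ B}.indicator 1 (x, u) ∂μ ∂m =
      volume (B ∩ Ioo (0 : ℝ) 1) *
        ∫⁻ u, ∫⁻ x, G x * (TwoSided dev).indicator 1 (x, u) ∂μ ∂m := by
  rw [pos_eq D.loc, twoSided_eq D.loc]
  exact uniform_law lam (dirAct hm) D hμ hG hG1 hB

theorem complete_fin (D : AffData X Γ E dev hol) {μ : Measure X} (hμ : ChartMeas dev lam μ)
    {m : Measure E} [IsFiniteMeasure m]
    (hm : ∀ γ : Γ, m.map (fun u => (‖u‖ / ‖lin hol γ u‖) • lin hol γ u) = m)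
    {G : X → ℝ≥0∞} (hG : Measurable G) (hG1 : ∀ x, ∑' γ : Γ, G (γ • x) = 1)
    {N : X → E → ℝ} (hN : InvMetric dev hol N)
    (hfin : ∫⁻ u, ∫⁻ x, G x * {p : X × E | life dev p.1 p.2 < ⊤}.indicator
      (fun p => life dev p.1 p.2 * ENNReal.ofReal (N p.1 p.2)) (x, u) ∂μ ∂m ≠ (⊤ : ℝ≥0∞)) :
    ∀ᵐ u ∂m, ∀ᵐ x ∂μ, ∀ t : ℝ, Geod dev x (t • u) := by
  simp only [life_eq D.loc] at hfin
  have h1 := integrable_life lam (dirAct hm) D hμ hG hG1 hN hfin
  have h2 := Wd_null lam (dirAct hm) D hμ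
  haveI : IsFiniteMeasure (m.map fun u : E => -u) := inferInstance
  have h3 := ae_of_ae_map measurable_neg.aemeasurable
    (Wd_null lam (dirAct (neg_inv hm)) D hμ)
  filter_upwards [h1, h2, h3] with u hu1 hu2 hu3
  filter_upwards [hu1, hu2, hu3] with x hx1 hx2 hx3 t
  have e1 : bt dev (x, u) = ⊤ ∧ bt dev (x, -u) = ⊤ := by
    by_cases ha : bt dev (x, u) = ⊤
    · refine ⟨ha, ?_⟩
      by_contra hb
      refine hx3 ⟨lt_top_iff_ne_top.2 hb, ?_⟩
      show bt dev (x, - -u) = ⊤
      rw [neg_neg]; exact ha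
    · exfalso
      by_cases hb : bt dev (x, -u) = ⊤
      · exact hx2 ⟨lt_top_iff_ne_top.2 ha, hb⟩
      · exact hx1 ⟨lt_top_iff_ne_top.2 ha, lt_top_iff_ne_top.2 hb⟩
  rcases le_total 0 t with ht | ht
  · exact (bt_top_geod D.loc).1 e1.1 t ht
  · have h4 := (bt_top_geod D.loc).1 e1.2 (-t) (by linarith)
    have h5 : (-t) • -u = t • u := by rw [smul_neg, neg_smul, neg_neg]
    rwa [h5] at h4

end

end Pool.Agent.FC640.MK
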