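import Pool.Agent.FC640.MK.Law0

set_option autoImplicit false

open Set Filter Topology Metric MeasureTheory
open scoped ENNReal

namespace Pool.Agent.FC640.MK

open Pool.Agent.W689.Mk

section
variable {X Γ E : Type} [TopologicalSpace X] [T2Space X] [SecondCountableTopology X] [Nonempty X]
  [MeasurableSpace X] [BorelSpace X] [Group Γ] [MulAction Γ X]
  [NormedAddCommGroup E] [NormedSpace ℝ E] [FiniteDimensional ℝ E] [MeasurableSpace E]
  [BorelSpace E] {dev : X → E} {hol : Γ →* (E ≃ᵃ[ℝ] E)} (lam : Measure E) [lam.IsAddHaarMeasure]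

/-- the uniform law -/
theorem uniform_law {A : Γ → E → E} {c : Γ → E → ℝ} {m : Measure E}
    (H : DirAct hol A c m) (D : AffData X Γ E dev hol) {μ : Measure X}
    (hμ : ChartMeas dev lam μ) {G : X → ℝ≥0∞} (hG : Measurable G)
    (hG1 : ∀ x, ∑' γ : Γ, G (γ • x) = 1) {B : Set ℝ} (hB : MeasurableSet B) :
    ∫⁻ u, ∫⁻ x, G x * (WB dev B).indicator 1 (x, u) ∂μ ∂m =
      volume (B ∩ Ioo (0 : ℝ) 1) * ∫⁻ u, ∫⁻ x, G x * (W2 dev).indicator 1 (x, u) ∂μ ∂m := by
  haveI : Countable Γ := countable_group D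
  have key := mtp lam H D hμ hG hG1 (K := Ku dev B) (Ku_meas D.loc hB)
    (fun γ u s x => Ku_inv D H.pos H.lin B γ u s x)
  simp only [Ku_left D.loc hB, Ku_right D.loc] at key
  rw [← key]
  have hv : volume (B ∩ Ioo (0 : ℝ) 1) ≠ ⊤ := by
    refine ne_top_of_le_ne_top ?_ (measure_mono inter_subset_right)
    rw [Real.volume_Ioo]
    exact ENNReal.ofReal_ne_top
  rw [← lintegral_const_mul' _ _ hv]
  refine lintegral_congr fun u => ?_
  rw [← lintegral_const_mul' _ _ hv]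
  refine lintegral_congr fun x => ?_
  by_cases h : (x, u) ∈ W2 dev
  · rw [indicator_of_mem h, indicator_of_mem h, Pi.one_apply, mul_one, mul_comm]
  · rw [indicator_of_notMem h, indicator_of_notMem h, mul_zero, mul_zero]

/-- an invariant metric -/
structure InvMetric (dev : X → E) (hol : Γ →* (E ≃ᵃ[ℝ] E)) (N : X → E → ℝ) : Prop where
  cont : Continuous fun p : X × E => N p.1 p.2
  pos : ∀ x u, u ≠ 0 → 0 < N x u
  hom : ∀ x (t : ℝ) u, N x (t • u) = |t| * N x u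
  inv : ∀ (γ : Γ) x u, N (γ • x) ((hol γ).linear u) = N x u

theorem life_lower (D : AffData X Γ E dev hol) {N : X → E → ℝ} (hN : InvMetric dev hol N) :
    ∃ ε : ℝ, 0 < ε ∧ ∀ x u, u ≠ 0 → ENNReal.ofReal (ε / N x u) ≤ bt dev (x, u) := by
  obtain ⟨K, hK, hcc⟩ := D.cc
  have hC : IsCompact (K ×ˢ sphere (0 : E) 1) := hK.prod (isCompact_sphere _ _)
  obtain ⟨ε, hε, h⟩ := life_unif D.loc hC isOpen_univ (subset_univ _)
  -- an upper bound for `1 / N`, i.e. a lower bound for `N`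
  have hn : ∃ n : ℝ, 0 < n ∧ ∀ p ∈ K ×ˢ sphere (0 : E) 1, n ≤ N p.1 p.2 := by
    rcases (K ×ˢ sphere (0 : E) 1).eq_empty_or_nonempty with h0 | h0
    · exact ⟨1, one_pos, fun p hp => by rw [h0] at hp; exact hp.elim⟩
    · obtain ⟨p, hp, hmin⟩ := hC.exists_isMinOn h0 hN.cont.continuousOn
      refine ⟨N p.1 p.2, hN.pos _ _ ?_, fun q hq => hmin hq⟩
      intro h0
      have h2 : ‖p.2‖ = 1 := by simpa using hp.2
      rw [h0, norm_zero] at h2
      exact zero_ne_one h2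
  obtain ⟨n, hn0, hn⟩ := hn
  refine ⟨ε * n, mul_pos hε hn0, fun x u hu => ?_⟩
  obtain ⟨γ, k, hk, rfl⟩ := hcc x
  set v : E := lin hol γ⁻¹ u with hv
  have huv : u = lin hol γ v := by
    have := lin_inv_apply (hol := hol) γ⁻¹ u
    rw [inv_inv] at this
    exact this.symm
  have hv0 : v ≠ 0 := lin_ne_zero γ⁻¹ hu
  have hr : 0 < ‖v‖ := norm_pos_iff.2 hv0
  have hunit : (k, ‖v‖⁻¹ • v) ∈ K ×ˢ sphere (0 : E) 1 := by
    refine ⟨hk, ?_⟩
    rw [mem_sphere_zero_iff_norm, norm_smul, norm_inv, norm_norm, inv_mul_cancel₀ hr.ne']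
  have h1 := hn _ hunit
  have h2 : N k (‖v‖⁻¹ • v) = ‖v‖⁻¹ * N k v := by
    rw [hN.hom, abs_of_pos (inv_pos.2 hr)]
  have h3 : n ≤ ‖v‖⁻¹ * N k v := by rw [← h2]; exact h1
  have h4 : N (γ • k) u = N k v := by rw [huv]; exact hN.inv γ k v
  have hNv : 0 < N k v := hN.pos _ _ hv0
  rw [h4, huv, bt_smul D]
  -- the time `ε / ‖v‖` is reached
  have h5 := (h _ hunit ε (by rw [abs_of_pos hε])).1
  have h6 : ε • ‖v‖⁻¹ • v = (ε * ‖v‖⁻¹) • v := smul_smul _ _ _
  have h7 : (k, (ε * ‖v‖⁻¹) • v) ∈ Dm dev := by rw [← h6]; exact h5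
  rw [mem_iff_lt_bt D.loc (by positivity)] at h7
  refine le_trans (ENNReal.ofReal_le_ofReal ?_) h7.le
  rw [div_le_iff₀ hNv]
  have h8 : ε * n ≤ ε * (‖v‖⁻¹ * N k v) := mul_le_mul_of_nonneg_left h3 hε.le
  calc ε * n ≤ ε * (‖v‖⁻¹ * N k v) := h8
    _ = ε * ‖v‖⁻¹ * N k v := by ring

/-- invariant sets of infinite weight are negligible when the weighted integral is finite -/
theorem null_of_top {A : Γ → E → E} {c : Γ → E → ℝ} {m : Measure E}
    (H : DirAct hol A c m) (D : AffData X Γ E dev hol) {μ : Measure X}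
    (hμ : ChartMeas dev lam μ) {G : X → ℝ≥0∞} (hG : Measurable G)
    (hG1 : ∀ x, ∑' γ : Γ, G (γ • x) = 1) {S : Set (X × E)} (hS : MeasurableSet S)
    (hSi : ∀ (γ : Γ) x u, (γ • x, A γ u) ∈ S ↔ (x, u) ∈ S)
    (hfin : ∫⁻ u, ∫⁻ x, G x * S.indicator (fun _ => ⊤) (x, u) ∂μ ∂m ≠ (⊤ : ℝ≥0∞)) :
    ∀ᵐ u ∂m, ∀ᵐ x ∂μ, (x, u) ∉ S := by
  haveI : IsLocallyFiniteMeasure μ := locFin lam D.loc hμ
  haveI : Countable Γ := countable_group D
  have hI : Measurable fun p : E × X => S.indicator (fun _ => (⊤ : ℝ≥0∞)) (p.2, p.1) :=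
    (measurable_const.indicator hS).comp (measurable_snd.prodMk measurable_fst)
  have hF : Measurable fun p : E × X => G p.2 * S.indicator (fun _ => (⊤ : ℝ≥0∞)) (p.2, p.1) :=
    Measurable.mul (hG.comp measurable_snd) hI
  have hinv : ∀ (γ : Γ) u x, S.indicator (fun _ => (⊤ : ℝ≥0∞)) (γ • x, A γ u) =
      S.indicator (fun _ => (⊤ : ℝ≥0∞)) (x, u) := by
    intro γ u x
    by_cases h : (x, u) ∈ S
    · rw [indicator_of_mem h, indicator_of_mem ((hSi γ x u).2 h)]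
    · rw [indicator_of_notMem h, indicator_of_notMem fun h' => h ((hSi γ x u).1 h')]
  have h1 : ∀ γ : Γ, ∀ᵐ u ∂m, ∀ᵐ x ∂μ,
      G (γ • x) * S.indicator (fun _ => (⊤ : ℝ≥0∞)) (x, u) < ⊤ := by
    intro γ
    have hm2 : Measurable fun p : E × X =>
        G (γ • p.2) * S.indicator (fun _ => (⊤ : ℝ≥0∞)) (p.2, p.1) :=
      Measurable.mul (hG.comp ((D.cont γ).measurable.comp measurable_snd)) hI
    have h2 := inv_pair lam H D hμ γ (F := fun u x => G x * S.indicator (fun _ => ⊤) (x, u)) hF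
    simp only [hinv] at h2
    rw [← h2] at hfin
    have h3 := ae_lt_top hm2.lintegral_prod_right' hfin
    filter_upwards [h3] with w hw
    have hm3 : Measurable fun x : X => G (γ • x) * S.indicator (fun _ => (⊤ : ℝ≥0∞)) (x, w) :=
      hm2.comp (measurable_const.prodMk measurable_id)
    exact ae_lt_top hm3 hw.ne
  have h2 : ∀ᵐ u ∂m, ∀ γ : Γ, ∀ᵐ x ∂μ,
      G (γ • x) * S.indicator (fun _ => (⊤ : ℝ≥0∞)) (x, u) < ⊤ := ae_all_iff.2 h1
  filter_upwards [h2] with w hw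
  have h3 : ∀ᵐ x ∂μ, ∀ γ : Γ, G (γ • x) * S.indicator (fun _ => (⊤ : ℝ≥0∞)) (x, w) < ⊤ :=
    ae_all_iff.2 hw
  filter_upwards [h3] with x hx hxS
  have h4 : ∃ γ : Γ, G (γ • x) ≠ 0 := by
    by_contra hne
    push Not at hne
    have h5 := hG1 x
    simp only [hne, tsum_zero] at h5
    exact zero_ne_one h5
  obtain ⟨γ, hγ⟩ := h4
  have h5 := hx γ
  rw [indicator_of_mem hxS, ENNReal.mul_top hγ] at h5
  exact lt_irrefl _ h5

/-- integrable lifetimes: no geodesic is incomplete on both sides -/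
theorem integrable_life {A : Γ → E → E} {c : Γ → E → ℝ} {m : Measure E} [IsFiniteMeasure m]
    (H : DirAct hol A c m) (D : AffData X Γ E dev hol) {μ : Measure X}
    (hμ : ChartMeas dev lam μ) {G : X → ℝ≥0∞} (hG : Measurable G)
    (hG1 : ∀ x, ∑' γ : Γ, G (γ • x) = 1) {N : X → E → ℝ} (hN : InvMetric dev hol N)
    (hfin : ∫⁻ u, ∫⁻ x, G x * {p : X × E | bt dev p < ⊤}.indicator
      (fun p => bt dev p * ENNReal.ofReal (N p.1 p.2)) (x, u) ∂μ ∂m ≠ (⊤ : ℝ≥0∞)) :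
    ∀ᵐ u ∂m, ∀ᵐ x ∂μ, (x, u) ∉ W2 dev := by
  haveI : IsLocallyFiniteMeasure μ := locFin lam D.loc hμ
  haveI : Countable Γ := countable_group D
  obtain ⟨ε, hε, hlow⟩ := life_lower D hN
  refine null_of_top lam H D hμ hG hG1 (W2_meas D.loc)
    (fun γ x u => W2_smul_iff D H.pos H.lin γ) ?_
  have key := mtp lam H D hμ hG hG1 (K := Kq dev) (Kq_meas D.loc)
    (fun γ u s x => Kq_inv D H.pos H.lin γ u s x)
  simp only [Kq_left D.loc, Kq_right D.loc] at key
  rw [key]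
  obtain ⟨G', hG', hG1', hGf'⟩ := exists_weight lam D hμ
  have hGf : ∫⁻ x, G x ∂μ ≠ ⊤ := by
    rw [weight_indep lam D hμ hG hG' hG1 hG1']
    exact hGf'
  set Q : X × E → ℝ≥0∞ := {p : X × E | bt dev p < ⊤}.indicator
    (fun p => bt dev p * ENNReal.ofReal (N p.1 p.2)) with hQ
  have h1 : ∀ x u, (W2 dev).indicator (fun _ => ENNReal.ofReal ((pa dev x u)⁻¹ *
      (pa dev x u + fu dev x u))) (x, u) ≤ 1 + ENNReal.ofReal ε⁻¹ * Q (x, u) := by
    intro x u
    by_cases h : (x, u) ∈ W2 dev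
    · rw [indicator_of_mem h]
      have hf := fu_pos D.loc h
      have hp := pa_pos D.loc h
      have hu : -u ≠ 0 := by
        intro h0
        have h1 : u = 0 := neg_eq_zero.1 h0
        have h2 : bt dev (x, u) = ⊤ := by
          rw [h1]
          exact (bt_top_iff D.loc).2 fun s _ => by rw [smul_zero]; exact ⟨_, Dm_zero D.loc x⟩
        exact h.1.ne h2
      have h2 := hlow x (-u) hu
      have h3 : N x (-u) = N x u := by
        have := hN.hom x (-1) u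
        rw [neg_one_smul, abs_neg, abs_one, one_mul] at this
        exact this
      have hNp : 0 < N x u := by rw [← h3]; exact hN.pos _ _ hu
      rw [h3] at h2
      have h4 : ε / N x u ≤ pa dev x u := by
        have := (ENNReal.ofReal_le_iff_le_toReal h.2.ne).1 h2
        exact this
      have h5 : (pa dev x u)⁻¹ ≤ ε⁻¹ * N x u := by
        rw [inv_le_comm₀ hp (by positivity), mul_inv, inv_inv, ← div_eq_mul_inv]
        exact h4
      have hQe : Q (x, u) = ENNReal.ofReal (fu dev x u) * ENNReal.ofReal (N x u) := by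
        rw [hQ, indicator_of_mem (show (x, u) ∈ {p : X × E | bt dev p < ⊤} from h.1)]
        show bt dev (x, u) * ENNReal.ofReal (N x u) = _
        unfold fu
        rw [ENNReal.ofReal_toReal h.1.ne]
      rw [hQe, ← ENNReal.ofReal_mul hf.le, ← ENNReal.ofReal_mul (inv_nonneg.2 hε.le),
        ← ENNReal.ofReal_one, ← ENNReal.ofReal_add zero_le_one (by positivity)]
      refine ENNReal.ofReal_le_ofReal ?_
      rw [mul_add, inv_mul_cancel₀ hp.ne']
      have h6 : (pa dev x u)⁻¹ * fu dev x u ≤ (ε⁻¹ * N x u) * fu dev x u :=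
        mul_le_mul_of_nonneg_right h5 hf.le
      calc 1 + (pa dev x u)⁻¹ * fu dev x u ≤ 1 + (ε⁻¹ * N x u) * fu dev x u := by linarith
        _ = 1 + ε⁻¹ * (fu dev x u * N x u) := by ring
    · rw [indicator_of_notMem h]
      exact bot_le
  have h2 : ∫⁻ u, ∫⁻ x, G x * (W2 dev).indicator (fun _ => ENNReal.ofReal ((pa dev x u)⁻¹ *
      (pa dev x u + fu dev x u))) (x, u) ∂μ ∂m ≤
      ∫⁻ u, ((∫⁻ x, G x ∂μ) + ENNReal.ofReal ε⁻¹ * ∫⁻ x, G x * Q (x, u) ∂μ) ∂m := by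
    refine lintegral_mono fun u => ?_
    show ∫⁻ x, G x * (W2 dev).indicator (fun _ => ENNReal.ofReal ((pa dev x u)⁻¹ *
      (pa dev x u + fu dev x u))) (x, u) ∂μ ≤
      (∫⁻ x, G x ∂μ) + ENNReal.ofReal ε⁻¹ * ∫⁻ x, G x * Q (x, u) ∂μ
    rw [← lintegral_const_mul' _ _ ENNReal.ofReal_ne_top, ← lintegral_add_left hG]
    refine lintegral_mono fun x => ?_
    calc G x * (W2 dev).indicator (fun _ => ENNReal.ofReal ((pa dev x u)⁻¹ *
          (pa dev x u + fu dev x u))) (x, u) ≤ G x * (1 + ENNReal.ofReal ε⁻¹ * Q (x, u)) :=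
          mul_le_mul_right (h1 x u) _
      _ = G x + ENNReal.ofReal ε⁻¹ * (G x * Q (x, u)) := by ring
  refine ne_top_of_le_ne_top ?_ h2
  rw [lintegral_add_left measurable_const, lintegral_const, lintegral_const_mul' _ _
    ENNReal.ofReal_ne_top]
  refine ENNReal.add_ne_top.2 ⟨ENNReal.mul_ne_top hGf (measure_ne_top m _),
    ENNReal.mul_ne_top ENNReal.ofReal_ne_top hfin⟩

end

end Pool.Agent.FC640.MK
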