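import Pool.Agent.FC640.MK.Null

set_option autoImplicit false

open Set Filter Topology Metric MeasureTheory
open scoped ENNReal

namespace Pool.Agent.FC640.MK

open Pool.Agent.W689.Mk

section
variable {X E : Type} [TopologicalSpace X] [T2Space X] [NormedAddCommGroup E] [NormedSpace ℝ E]
  {dev : X → E}

theorem bt_top_geod (hloc : IsLocalHomeomorph dev) {x : X} {u : E} :
    bt dev (x, u) = ⊤ ↔ ∀ t : ℝ, 0 ≤ t → Geod dev x (t • u) := by
  rw [bt_top_iff hloc]
  refine forall_congr' fun t => forall_congr' fun _ => ?_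
  constructor
  · rintro ⟨y, hy⟩
    exact hy.geod
  · intro h
    exact h.ex hloc

end

section
variable {X Γ E : Type} [TopologicalSpace X] [T2Space X] [SecondCountableTopology X] [Nonempty X]
  [Group Γ] [MulAction Γ X]
  [NormedAddCommGroup E] [NormedSpace ℝ E] [FiniteDimensional ℝ E] [MeasurableSpace E]
  [BorelSpace E] {dev : X → E} {hol : Γ →* (E ≃ᵃ[ℝ] E)} (lam : Measure E) [lam.IsAddHaarMeasure]

omit [SecondCountableTopology X] [Nonempty X] [T2Space X] [TopologicalSpace X] [MulAction Γ X]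
  [FiniteDimensional ℝ E] [MeasurableSpace E] [BorelSpace E] in
theorem lin_ne_zero (γ : Γ) {u : E} (hu : u ≠ 0) : lin hol γ u ≠ 0 := by
  intro h
  have h1 := lin_inv_apply (hol := hol) γ u
  rw [h] at h1
  have h2 : lin hol γ⁻¹ (0 : E) = 0 := (hol γ⁻¹).linear.map_zero
  rw [h2] at h1
  exact hu h1.symm

open Classical in
/-- scaling factor of the projectivised holonomy -/
noncomputable def cf (hol : Γ →* (E ≃ᵃ[ℝ] E)) (γ : Γ) (u : E) : ℝ :=
  if u = 0 then 1 else ‖lin hol γ u‖ / ‖u‖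

omit [SecondCountableTopology X] [Nonempty X] [T2Space X] [TopologicalSpace X] [MulAction Γ X] in
theorem dirAct {m : Measure E}
    (hm : ∀ γ : Γ, m.map (fun u => (‖u‖ / ‖lin hol γ u‖) • lin hol γ u) = m) :
    DirAct hol (fun γ u => (‖u‖ / ‖lin hol γ u‖) • lin hol γ u) (cf hol) m := by
  have hL : ∀ γ : Γ, Measurable fun u : E => lin hol γ u := fun γ =>
    (LinearMap.continuous_of_finiteDimensional ((hol γ).linear : E →ₗ[ℝ] E)).measurable
  refine ⟨fun γ => ?_, fun γ => ?_, fun γ u => ?_, fun γ u => ?_, hm⟩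
  · exact (measurable_norm.div (hL γ).norm).smul (hL γ)
  · unfold cf
    exact Measurable.ite (measurableSet_singleton (0 : E)) measurable_const
      ((hL γ).norm.div measurable_norm)
  · unfold cf
    split_ifs with h
    · exact one_pos
    · exact div_pos (norm_pos_iff.2 (lin_ne_zero γ h)) (norm_pos_iff.2 h)
  · by_cases h : u = 0
    · subst h
      have h2 : lin hol γ (0 : E) = 0 := (hol γ).linear.map_zero
      rw [h2, smul_zero, smul_zero]
    · have h1 : ‖u‖ ≠ 0 := norm_ne_zero_iff.2 h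
      have h2 : ‖lin hol γ u‖ ≠ 0 := norm_ne_zero_iff.2 (lin_ne_zero γ h)
      unfold cf
      rw [if_neg h, smul_smul]
      have : ‖lin hol γ u‖ / ‖u‖ * (‖u‖ / ‖lin hol γ u‖) = 1 := by field_simp
      rw [this, one_smul]

/-- both sides, in the charts -/
theorem sides (D : AffData X Γ E dev hol) (m : Measure E) [IsFiniteMeasure m]
    (hm : ∀ γ : Γ, m.map (fun u => (‖u‖ / ‖lin hol γ u‖) • lin hol γ u) = m) :
    ∀ᵐ u ∂m, ∀ (U : Set E) (σ : E → X), Sec dev U σ → ∀ᵐ q ∂(lam.restrict U),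
      ((∀ t : ℝ, 0 ≤ t → Geod dev (σ q) (t • u)) ↔
        (∀ t : ℝ, 0 ≤ t → Geod dev (σ q) (-(t • u)))) := by
  letI : MeasurableSpace X := borel X
  haveI : BorelSpace X := ⟨rfl⟩
  obtain ⟨μ, hμ⟩ := exists_chartMeas lam D.loc
  have h1 := Wd_null lam (dirAct hm) D hμ
  have hL : ∀ γ : Γ, Measurable fun u : E => lin hol γ u := fun γ =>
    (LinearMap.continuous_of_finiteDimensional ((hol γ).linear : E →ₗ[ℝ] E)).measurable
  have hm' : ∀ γ : Γ, (m.map fun u => -u).map (fun u => (‖u‖ / ‖lin hol γ u‖) • lin hol γ u) =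
      m.map fun u => -u := by
    intro γ
    have hA : Measurable fun u : E => (‖u‖ / ‖lin hol γ u‖) • lin hol γ u :=
      (measurable_norm.div (hL γ).norm).smul (hL γ)
    rw [Measure.map_map hA measurable_neg]
    conv_rhs => rw [← hm γ]
    rw [Measure.map_map measurable_neg hA]
    congr 1
    funext u
    have h2 : lin hol γ (-u) = -lin hol γ u := (hol γ).linear.map_neg u
    show (‖-u‖ / ‖lin hol γ (-u)‖) • lin hol γ (-u) = -((‖u‖ / ‖lin hol γ u‖) • lin hol γ u)
    rw [h2, norm_neg, norm_neg, smul_neg]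
  haveI : IsFiniteMeasure (m.map fun u : E => -u) := inferInstance
  have h2 := Wd_null lam (dirAct hm') D hμ
  have h3 := ae_of_ae_map measurable_neg.aemeasurable h2
  filter_upwards [h1, h3] with u hu1 hu2 U σ hσ
  have h4 : ∀ᵐ x ∂μ, ((∀ t : ℝ, 0 ≤ t → Geod dev x (t • u)) ↔
      (∀ t : ℝ, 0 ≤ t → Geod dev x (-(t • u)))) := by
    filter_upwards [hu1, hu2] with x hx1 hx2
    have e : (∀ t : ℝ, 0 ≤ t → Geod dev x (-(t • u))) ↔ ∀ t : ℝ, 0 ≤ t → Geod dev x (t • -u) := by
      simp only [smul_neg]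
    rw [e, ← bt_top_geod D.loc, ← bt_top_geod D.loc]
    constructor
    · intro h
      by_contra hne
      refine hx2 ⟨lt_top_iff_ne_top.2 hne, ?_⟩
      show bt dev (x, - -u) = ⊤
      rw [neg_neg]; exact h
    · intro h
      by_contra hne
      exact hx1 ⟨lt_top_iff_ne_top.2 hne, h⟩
  have h5 := ae_restrict_of_ae (s := σ '' U) h4
  rw [hμ U σ hσ] at h5
  exact ae_of_ae_map (sec_aemeas lam hσ) h5

/-- one invariant line -/
theorem sides_line (D : AffData X Γ E dev hol) (u : E)
    (hu : ∀ γ : Γ, ∃ c : ℝ, lin hol γ u = c • u) :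
    ∀ (U : Set E) (σ : E → X), Sec dev U σ → ∀ᵐ q ∂(lam.restrict U),
      ((∀ t : ℝ, 0 ≤ t → Geod dev (σ q) (t • u)) ↔
        (∀ t : ℝ, 0 ≤ t → Geod dev (σ q) (-(t • u)))) := by
  rcases eq_or_ne u 0 with h0 | h0
  · subst h0
    intro U σ _
    refine Eventually.of_forall fun q => ?_
    simp only [smul_zero, neg_zero]
  · have hL : ∀ γ : Γ, Measurable fun u : E => lin hol γ u := fun γ =>
      (LinearMap.continuous_of_finiteDimensional ((hol γ).linear : E →ₗ[ℝ] E)).measurable
    have hA : ∀ γ : Γ, Measurable fun u : E => (‖u‖ / ‖lin hol γ u‖) • lin hol γ u := fun γ =>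
      (measurable_norm.div (hL γ).norm).smul (hL γ)
    have h1 : ∀ γ : Γ, (‖u‖ / ‖lin hol γ u‖) • lin hol γ u = u ∨
        (‖u‖ / ‖lin hol γ u‖) • lin hol γ u = -u := by
      intro γ
      obtain ⟨c, hc⟩ := hu γ
      have hc0 : c ≠ 0 := by
        intro h
        rw [h, zero_smul] at hc
        exact lin_ne_zero γ h0 hc
      have hn : ‖u‖ ≠ 0 := norm_ne_zero_iff.2 h0
      rw [hc, norm_smul, Real.norm_eq_abs, smul_smul]
      rcases lt_or_gt_of_ne hc0 with h | h
      · right
        rw [abs_of_neg h]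
        have : ‖u‖ / (-c * ‖u‖) * c = -1 := by field_simp
        rw [this, neg_one_smul]
      · left
        rw [abs_of_pos h]
        have : ‖u‖ / (c * ‖u‖) * c = 1 := by field_simp
        rw [this, one_smul]
    have h2 : ∀ γ : Γ, (‖-u‖ / ‖lin hol γ (-u)‖) • lin hol γ (-u) =
        -((‖u‖ / ‖lin hol γ u‖) • lin hol γ u) := by
      intro γ
      have h2 : lin hol γ (-u) = -lin hol γ u := (hol γ).linear.map_neg u
      rw [h2, norm_neg, norm_neg, smul_neg]
    have hm : ∀ γ : Γ, (Measure.dirac u + Measure.dirac (-u) : Measure E).map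
        (fun u => (‖u‖ / ‖lin hol γ u‖) • lin hol γ u) = Measure.dirac u + Measure.dirac (-u) := by
      intro γ
      rw [Measure.map_add _ _ (hA γ), Measure.map_dirac' (hA γ), Measure.map_dirac' (hA γ), h2 γ]
      rcases h1 γ with h | h
      · rw [h]
      · rw [h, neg_neg, add_comm]
    have h3 := sides lam D (Measure.dirac u + Measure.dirac (-u)) hm
    rw [ae_add_measure_iff] at h3
    have h4 := h3.1
    rw [ae_dirac_eq] at h4
    exact h4

end

end Pool.Agent.FC640.MK
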