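import Pool.Agent.FC640.MK.Two
import Pool.Agent.FC640.MK.Det
import Pool.Agent.FC640.MK.Sides

set_option autoImplicit false

open Set Filter Topology Metric MeasureTheory
open scoped ENNReal

namespace Pool.Agent.FC640.MK

open Pool.Agent.W689.Mk

section
variable {X Γ E : Type} [TopologicalSpace X] [T2Space X] [SecondCountableTopology X] [Nonempty X]
  [MeasurableSpace X] [BorelSpace X] [Group Γ] [MulAction Γ X]
  [NormedAddCommGroup E] [NormedSpace ℝ E] [FiniteDimensional ℝ E] [MeasurableSpace E]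
  [BorelSpace E] {dev : X → E} {hol : Γ →* (E ≃ᵃ[ℝ] E)} (lam : Measure E) [lam.IsAddHaarMeasure]

theorem W2_smul (D : AffData X Γ E dev hol) {A : Γ → E → E} {c : Γ → E → ℝ}
    (hpos : ∀ γ u, 0 < c γ u) (hlin : ∀ γ u, lin hol γ u = c γ u • A γ u) (γ : Γ) {x : X} {u : E}
    (h : (x, u) ∈ W2 dev) : (γ • x, A γ u) ∈ W2 dev ∧
      fu dev (γ • x) (A γ u) = c γ u * fu dev x u ∧ pa dev (γ • x) (A γ u) = c γ u * pa dev x u := by
  have h1 := W2_mem D.loc h
  have hc := hpos γ u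
  refine W2_of (mul_pos hc (pa_pos D.loc h)) (mul_pos hc (fu_pos D.loc h)) fun s => ?_
  have e1 : s • A γ u = lin hol γ ((s / c γ u) • u) := by
    have h1 : lin hol γ ((s / c γ u) • u) = (s / c γ u) • lin hol γ u :=
      (hol γ).linear.map_smul _ u
    rw [h1, hlin, smul_smul, div_mul_cancel₀ _ hc.ne']
  rw [e1, mem_Dm_smul D γ, h1, div_lt_iff₀ hc, lt_div_iff₀ hc, neg_mul, mul_comm (pa dev x u),
    mul_comm (fu dev x u)]

theorem W2_smul_iff (D : AffData X Γ E dev hol) {A : Γ → E → E} {c : Γ → E → ℝ}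
    (hpos : ∀ γ u, 0 < c γ u) (hlin : ∀ γ u, lin hol γ u = c γ u • A γ u) (γ : Γ) {x : X} {u : E} :
    (γ • x, A γ u) ∈ W2 dev ↔ (x, u) ∈ W2 dev := by
  refine ⟨fun h => ?_, fun h => (W2_smul D hpos hlin γ h).1⟩
  have h1 := W2_mem D.loc h
  have hc := hpos γ u
  refine (W2_of (div_pos (pa_pos D.loc h) hc) (div_pos (fu_pos D.loc h) hc) fun s => ?_).1
  have e1 : lin hol γ (s • u) = (c γ u * s) • A γ u := by
    have h1 : lin hol γ (s • u) = s • lin hol γ u := (hol γ).linear.map_smul _ u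
    rw [h1, hlin, smul_smul, mul_comm]
  rw [← mem_Dm_smul D γ, e1, h1, lt_div_iff₀ hc, ← neg_div, div_lt_iff₀ hc, mul_comm s]

theorem Kq_inv (D : AffData X Γ E dev hol) {A : Γ → E → E} {c : Γ → E → ℝ}
    (hpos : ∀ γ u, 0 < c γ u) (hlin : ∀ γ u, lin hol γ u = c γ u • A γ u) (γ : Γ) (u : E) (s : ℝ)
    (x : X) : Kq dev (A γ u) (c γ u * s) (γ • x) * ENNReal.ofReal (c γ u) = Kq dev u s x := by
  have hc := hpos γ u
  unfold Kq
  by_cases h : (x, u) ∈ W2 dev
  · obtain ⟨h1, h2, h3⟩ := W2_smul D hpos hlin γ h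
    rw [if_pos h1, if_pos h, h3, ← mul_add, mul_comm, ← ENNReal.ofReal_mul hc.le, mul_inv,
      ← mul_assoc, mul_inv_cancel₀ hc.ne', one_mul]
  · rw [if_neg fun h' => h ((W2_smul_iff D hpos hlin γ).1 h'), if_neg h, zero_mul]

theorem Ku_inv (D : AffData X Γ E dev hol) {A : Γ → E → E} {c : Γ → E → ℝ}
    (hpos : ∀ γ u, 0 < c γ u) (hlin : ∀ γ u, lin hol γ u = c γ u • A γ u) (B : Set ℝ) (γ : Γ)
    (u : E) (s : ℝ) (x : X) :
    Ku dev B (A γ u) (c γ u * s) (γ • x) * ENNReal.ofReal (c γ u) = Ku dev B u s x := by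
  have hc := hpos γ u
  unfold Ku
  by_cases h : (x, u) ∈ W2 dev
  · obtain ⟨h1, h2, h3⟩ := W2_smul D hpos hlin γ h
    have e1 : (c γ u * pa dev x u + c γ u * s) / (c γ u * pa dev x u + c γ u * fu dev x u) =
        (pa dev x u + s) / (pa dev x u + fu dev x u) := by
      rw [← mul_add, ← mul_add, mul_div_mul_left _ _ hc.ne']
    rw [h2, h3, e1]
    by_cases hb : (pa dev x u + s) / (pa dev x u + fu dev x u) ∈ B
    · rw [if_pos ⟨h1, hb⟩, if_pos ⟨h, hb⟩, ← mul_add, mul_comm, ← ENNReal.ofReal_mul hc.le, mul_inv,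
        ← mul_assoc, mul_inv_cancel₀ hc.ne', one_mul]
    · rw [if_neg fun h' => hb h'.2, if_neg fun h' => hb h'.2, zero_mul]
  · rw [if_neg fun h' => h ((W2_smul_iff D hpos hlin γ).1 h'.1), if_neg fun h' => h h'.1, zero_mul]

theorem fu_meas (hloc : IsLocalHomeomorph dev) : Measurable fun p : X × E => fu dev p.1 p.2 :=
  (bt_meas hloc).ennreal_toReal

theorem btn_meas (hloc : IsLocalHomeomorph dev) :
    Measurable fun p : X × E => bt dev (p.1, -p.2) :=
  (bt_meas hloc).comp (measurable_fst.prodMk measurable_snd.neg)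

theorem pa_meas (hloc : IsLocalHomeomorph dev) : Measurable fun p : X × E => pa dev p.1 p.2 :=
  (btn_meas hloc).ennreal_toReal

theorem W2_meas (hloc : IsLocalHomeomorph dev) : MeasurableSet (W2 dev) :=
  (measurableSet_lt (bt_meas hloc) measurable_const).inter
    (measurableSet_lt (btn_meas hloc) measurable_const)

theorem Kq_meas (hloc : IsLocalHomeomorph dev) :
    Measurable fun p : E × ℝ × X => Kq dev p.1 p.2.1 p.2.2 := by
  have c0 : Measurable fun p : E × ℝ × X => (p.2.2, p.1) :=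
    (measurable_snd.comp measurable_snd).prodMk measurable_fst
  have c2 : Measurable fun p : E × ℝ × X => p.2.1 := measurable_fst.comp measurable_snd
  have c3' := (pa_meas hloc).comp c0
  have c3 : Measurable fun p : E × ℝ × X => pa dev p.2.2 p.1 := c3'
  have e1 : MeasurableSet {p : E × ℝ × X | (p.2.2, p.1) ∈ W2 dev} := c0 (W2_meas hloc)
  have e2 : Measurable fun p : E × ℝ × X => ENNReal.ofReal (pa dev p.2.2 p.1 + p.2.1)⁻¹ :=
    (c3.add c2).inv.ennreal_ofReal
  unfold Kq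
  exact Measurable.ite e1 e2 measurable_const

theorem Ku_meas (hloc : IsLocalHomeomorph dev) {B : Set ℝ} (hB : MeasurableSet B) :
    Measurable fun p : E × ℝ × X => Ku dev B p.1 p.2.1 p.2.2 := by
  have c0 : Measurable fun p : E × ℝ × X => (p.2.2, p.1) :=
    (measurable_snd.comp measurable_snd).prodMk measurable_fst
  have c2 : Measurable fun p : E × ℝ × X => p.2.1 := measurable_fst.comp measurable_snd
  have c3' := (pa_meas hloc).comp c0
  have c3 : Measurable fun p : E × ℝ × X => pa dev p.2.2 p.1 := c3'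
  have c4' := (fu_meas hloc).comp c0
  have c4 : Measurable fun p : E × ℝ × X => fu dev p.2.2 p.1 := c4'
  have c5 : Measurable fun p : E × ℝ × X =>
      (pa dev p.2.2 p.1 + p.2.1) / (pa dev p.2.2 p.1 + fu dev p.2.2 p.1) :=
    (c3.add c2).div (c3.add c4)
  have e1 : MeasurableSet {p : E × ℝ × X | (p.2.2, p.1) ∈ W2 dev} := c0 (W2_meas hloc)
  have e2 : MeasurableSet {p : E × ℝ × X |
      (pa dev p.2.2 p.1 + p.2.1) / (pa dev p.2.2 p.1 + fu dev p.2.2 p.1) ∈ B} := c5 hB
  have e3 : Measurable fun p : E × ℝ × X =>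
      ENNReal.ofReal (pa dev p.2.2 p.1 + fu dev p.2.2 p.1)⁻¹ := (c3.add c4).inv.ennreal_ofReal
  unfold Ku
  refine Measurable.ite ?_ e3 measurable_const
  exact e1.inter e2

end

end Pool.Agent.FC640.MK
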