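import Pool.Agent.FC640.MK.MTP
import Pool.Agent.W689.Mk.Av

set_option autoImplicit false

open Set Filter Topology Metric MeasureTheory
open scoped ENNReal

namespace Pool.Agent.FC640.MK

open Pool.Agent.W689.Mk

section
variable {X E : Type} [TopologicalSpace X] [T2Space X] [NormedAddCommGroup E] [NormedSpace ℝ E]
  {dev : X → E}

/-- lifetime in the direction `u` -/
noncomputable def bt (dev : X → E) (p : X × E) : ℝ≥0∞ :=
  ⨆ (s : ℝ) (_ : (p.1, s • p.2) ∈ Dm dev), ENNReal.ofReal s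

theorem lt_bt {p : X × E} {c : ℝ≥0∞} :
    c < bt dev p ↔ ∃ s : ℝ, (p.1, s • p.2) ∈ Dm dev ∧ c < ENNReal.ofReal s := by
  unfold bt
  simp only [lt_iSup_iff, exists_prop]

/-- the set of times is an interval -/
theorem Dm_mono {x : X} {u : E} {s t : ℝ} (h : (x, t • u) ∈ Dm dev) (h0 : 0 ≤ s) (h1 : s ≤ t) :
    (x, s • u) ∈ Dm dev := by
  rcases eq_or_lt_of_le (h0.trans h1) with h2 | h2
  · have : s = t := by linarith
    rwa [this]
  · obtain ⟨y, hy⟩ := h
    have h3 := Ex.scale hy (θ := s / t) (div_nonneg h0 h2.le) ((div_le_one h2).2 h1)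
    rwa [smul_smul, div_mul_cancel₀ _ h2.ne'] at h3

theorem mem_iff_lt_bt (hloc : IsLocalHomeomorph dev) {x : X} {u : E} {s : ℝ} (hs : 0 ≤ s) :
    (x, s • u) ∈ Dm dev ↔ ENNReal.ofReal s < bt dev (x, u) := by
  constructor
  · intro h
    have hc : Continuous fun s : ℝ => (x, s • u) :=
      continuous_const.prodMk (continuous_id.smul continuous_const)
    have h1 : (fun s : ℝ => (x, s • u)) ⁻¹' Dm dev ∈ 𝓝 s :=
      ((isOpen_Dm hloc).preimage hc).mem_nhds h
    obtain ⟨ε, hε, hb⟩ := Metric.mem_nhds_iff.1 h1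
    have h2 : s + ε / 2 ∈ ball s ε := by
      rw [mem_ball, Real.dist_eq, add_sub_cancel_left, abs_of_pos (by linarith)]
      linarith
    refine lt_bt.2 ⟨s + ε / 2, hb h2, ?_⟩
    exact (ENNReal.ofReal_lt_ofReal_iff (by linarith)).2 (by linarith)
  · intro h
    obtain ⟨t, ht, hst⟩ := lt_bt.1 h
    exact Dm_mono ht hs (ENNReal.ofReal_lt_ofReal_iff'.1 hst).1.le

theorem bt_pos (hloc : IsLocalHomeomorph dev) (p : X × E) : 0 < bt dev p := by
  have h := (mem_iff_lt_bt hloc (x := p.1) (u := p.2) (s := 0) le_rfl).1 (by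
    rw [zero_smul]; exact ⟨_, Dm_zero hloc p.1⟩)
  rwa [ENNReal.ofReal_zero] at h

/-- shift of the set of times -/
theorem Dm_shift (hloc : IsLocalHomeomorph dev) {x : X} {u : E} {s : ℝ}
    (h : (x, s • u) ∈ Dm dev) (t : ℝ) :
    (Ph dev x (s • u), t • u) ∈ Dm dev ↔ (x, (s + t) • u) ∈ Dm dev := by
  have h1 := Ph_spec h
  constructor
  · rintro ⟨z, hz⟩
    exact ⟨z, Ex.concat hloc h1 hz⟩
  · rintro ⟨z, hz⟩
    have h2 := h1.symm
    rw [← neg_smul] at h2
    have h3 := Ex.concat hloc h2 hz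
    rw [neg_add_cancel_left] at h3
    exact ⟨z, h3⟩

theorem Ph_shift (hloc : IsLocalHomeomorph dev) {x : X} {u : E} {s t : ℝ}
    (h : (x, s • u) ∈ Dm dev) (h' : (x, (s + t) • u) ∈ Dm dev) :
    Ph dev (Ph dev x (s • u)) (t • u) = Ph dev x ((s + t) • u) := by
  have h2 := Ph_spec ((Dm_shift hloc h t).2 h')
  exact ((Ph_eq hloc (Ex.concat hloc (Ph_spec h) h2))).symm

theorem bt_lsc (hloc : IsLocalHomeomorph dev) : LowerSemicontinuous (bt dev) := by
  rw [lowerSemicontinuous_iff_isOpen_preimage]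
  intro c
  have : bt dev ⁻¹' Ioi c = ⋃ (s : ℝ) (_ : c < ENNReal.ofReal s),
      (fun p : X × E => (p.1, s • p.2)) ⁻¹' Dm dev := by
    ext p
    simp only [mem_preimage, mem_Ioi, lt_bt, mem_iUnion, exists_prop]
    constructor
    · rintro ⟨s, h1, h2⟩; exact ⟨s, h2, h1⟩
    · rintro ⟨s, h1, h2⟩; exact ⟨s, h2, h1⟩
  rw [this]
  refine isOpen_iUnion fun s => isOpen_iUnion fun _ => (isOpen_Dm hloc).preimage ?_
  exact continuous_fst.prodMk (continuous_const.smul continuous_snd)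

/-- the pairs with finite future and infinite past -/
def Wd (dev : X → E) : Set (X × E) :=
  {p | bt dev p < ⊤ ∧ bt dev (p.1, -p.2) = ⊤}

theorem bt_top_iff (hloc : IsLocalHomeomorph dev) {x : X} {u : E} :
    bt dev (x, u) = ⊤ ↔ ∀ s : ℝ, 0 ≤ s → (x, s • u) ∈ Dm dev := by
  constructor
  · intro h s hs
    rw [mem_iff_lt_bt hloc hs, h]
    exact ENNReal.ofReal_lt_top
  · intro h
    by_contra hne
    have h1 := h (bt dev (x, u)).toReal ENNReal.toReal_nonneg
    rw [mem_iff_lt_bt hloc ENNReal.toReal_nonneg, ENNReal.ofReal_toReal hne] at h1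
    exact lt_irrefl _ h1

theorem Wd_mem (hloc : IsLocalHomeomorph dev) {x : X} {u : E} (h : (x, u) ∈ Wd dev) (s : ℝ) :
    (x, s • u) ∈ Dm dev ↔ s < (bt dev (x, u)).toReal := by
  obtain ⟨h1, h2⟩ := h
  have hb : 0 < (bt dev (x, u)).toReal := ENNReal.toReal_pos (bt_pos hloc _).ne' h1.ne
  rcases le_total 0 s with hs | hs
  · rw [mem_iff_lt_bt hloc hs, ENNReal.ofReal_lt_iff_lt_toReal hs h1.ne]
  · refine ⟨fun _ => lt_of_le_of_lt hs hb, fun _ => ?_⟩
    have h3 := (bt_top_iff hloc).1 h2 (-s) (by linarith)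
    have h4 : (-s) • -u = s • u := by rw [smul_neg, neg_smul, neg_neg]
    have h5 : (x, (-s) • -u) ∈ Dm dev := h3
    rwa [h4] at h5

/-- characterisation of the set of one-sided pairs -/
theorem Wd_of (hloc : IsLocalHomeomorph dev) {x : X} {u : E} {β : ℝ} (hβ : 0 < β)
    (h : ∀ s : ℝ, (x, s • u) ∈ Dm dev ↔ s < β) :
    (x, u) ∈ Wd dev ∧ bt dev (x, u) = ENNReal.ofReal β := by
  have h1 : bt dev (x, u) = ENNReal.ofReal β := by
    refine le_antisymm ?_ ?_
    · refine iSup_le fun s => iSup_le fun hs => ?_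
      exact ENNReal.ofReal_le_ofReal ((h s).1 hs).le
    · refine le_of_forall_lt fun c hc => ?_
      have hc' : c.toReal < β := by
        have h1 : c ≠ ⊤ := ne_top_of_lt hc
        exact (ENNReal.lt_ofReal_iff_toReal_lt h1).1 hc
      obtain ⟨t, ht1, ht2⟩ := exists_between hc'
      refine lt_bt.2 ⟨t, (h t).2 ht2, ?_⟩
      exact (ENNReal.lt_ofReal_iff_toReal_lt (ne_top_of_lt hc)).2 ht1
  refine ⟨⟨by rw [h1]; exact ENNReal.ofReal_lt_top, ?_⟩, h1⟩
  refine (bt_top_iff hloc).2 fun s hs => ?_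
  have h2 : s • -u = (-s) • u := by rw [smul_neg, neg_smul]
  show (x, s • -u) ∈ Dm dev
  rw [h2, h]
  linarith

theorem Wd_shift (hloc : IsLocalHomeomorph dev) {x : X} {u : E} {s : ℝ}
    (hs : (x, s • u) ∈ Dm dev) (h : (x, u) ∈ Wd dev) :
    (Ph dev x (s • u), u) ∈ Wd dev ∧
      (bt dev (Ph dev x (s • u), u)).toReal = (bt dev (x, u)).toReal - s := by
  have h1 := Wd_mem hloc h
  have h2 := (h1 s).1 hs
  have h3 := Wd_of hloc (x := Ph dev x (s • u)) (u := u) (β := (bt dev (x, u)).toReal - s)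
    (by linarith) (fun t => by
      rw [Dm_shift hloc hs, h1]
      constructor <;> intro <;> linarith)
  refine ⟨h3.1, ?_⟩
  rw [h3.2, ENNReal.toReal_ofReal (by linarith)]

theorem Wd_shift_iff (hloc : IsLocalHomeomorph dev) {x : X} {u : E} {s : ℝ}
    (hs : (x, s • u) ∈ Dm dev) :
    (Ph dev x (s • u), u) ∈ Wd dev ↔ (x, u) ∈ Wd dev := by
  refine ⟨fun h => ?_, fun h => (Wd_shift hloc hs h).1⟩
  have h1 := Ph_spec hs
  have h2 := h1.symm
  rw [← neg_smul] at h2
  have h3 := (Wd_shift hloc (Ex.mem h2) h).1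
  rwa [Ph_eq hloc h2] at h3

end

section
variable {X Γ E : Type} [TopologicalSpace X] [T2Space X] [SecondCountableTopology X]
  [MeasurableSpace X] [BorelSpace X] [Group Γ] [MulAction Γ X]
  [NormedAddCommGroup E] [NormedSpace ℝ E] [FiniteDimensional ℝ E] [MeasurableSpace E]
  [BorelSpace E] {dev : X → E} {hol : Γ →* (E ≃ᵃ[ℝ] E)} (lam : Measure E) [lam.IsAddHaarMeasure]

theorem bt_meas (hloc : IsLocalHomeomorph dev) : Measurable (bt dev) :=
  (bt_lsc hloc).measurable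

theorem Wd_meas (hloc : IsLocalHomeomorph dev) : MeasurableSet (Wd dev) := by
  have h1 : Measurable (bt dev) := bt_meas hloc
  have h2 : Measurable fun p : X × E => bt dev (p.1, -p.2) :=
    h1.comp (measurable_fst.prodMk measurable_snd.neg)
  exact (measurableSet_lt h1 measurable_const).inter (measurableSet_eq_fun h2 measurable_const)

theorem Wd_smul (D : AffData X Γ E dev hol) {A : Γ → E → E} {c : Γ → E → ℝ}
    (hpos : ∀ γ u, 0 < c γ u) (hlin : ∀ γ u, lin hol γ u = c γ u • A γ u) (γ : Γ) {x : X} {u : E}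
    (h : (x, u) ∈ Wd dev) : (γ • x, A γ u) ∈ Wd dev ∧
      (bt dev (γ • x, A γ u)).toReal = c γ u * (bt dev (x, u)).toReal := by
  have h1 := Wd_mem D.loc h
  have hb : 0 < (bt dev (x, u)).toReal := ENNReal.toReal_pos (bt_pos D.loc _).ne' h.1.ne
  have hc := hpos γ u
  have h2 : ∀ s : ℝ, (γ • x, s • A γ u) ∈ Dm dev ↔ s < c γ u * (bt dev (x, u)).toReal := by
    intro s
    have e1 : s • A γ u = lin hol γ ((s / c γ u) • u) := by
      have h1 : lin hol γ ((s / c γ u) • u) = (s / c γ u) • lin hol γ u :=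
        (hol γ).linear.map_smul _ u
      rw [h1, hlin, smul_smul, div_mul_cancel₀ _ hc.ne']
    rw [e1, mem_Dm_smul D γ, h1, div_lt_iff₀ hc, mul_comm]
  have h3 := Wd_of D.loc (mul_pos hc hb) h2
  refine ⟨h3.1, ?_⟩
  rw [h3.2, ENNReal.toReal_ofReal (mul_pos hc hb).le]

end

end Pool.Agent.FC640.MK
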