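import Pool.Agent.FC640.MK.Trans

set_option autoImplicit false

open Set Filter Topology Metric MeasureTheory
open scoped ENNReal

namespace Pool.Agent.FC640.MK

open Pool.Agent.W689.Mk

section
variable {X E : Type} [TopologicalSpace X] [T2Space X] [SecondCountableTopology X]
  [MeasurableSpace X] [BorelSpace X]
  [NormedAddCommGroup E] [NormedSpace ℝ E] [FiniteDimensional ℝ E] [MeasurableSpace E]
  [BorelSpace E] {dev : X → E} (lam : Measure E) [lam.IsAddHaarMeasure]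

/-- the chart measure is locally finite -/
theorem locFin (hloc : IsLocalHomeomorph dev) {μ : Measure X} (hμ : ChartMeas dev lam μ) :
    IsLocallyFiniteMeasure μ := by
  refine ⟨fun x => ?_⟩
  obtain ⟨e, r, hx, he, hr, hrt⟩ := exists_sec hloc x
  have hs := sec_of_target e he _ _ hrt
  have ho := hs.isOpen_image hloc hs.isOpen Subset.rfl
  have hxm : x ∈ e.symm '' ball (dev x) r := ⟨dev x, mem_ball_self hr, by rw [he]; exact e.left_inv hx⟩
  refine ⟨e.symm '' ball (dev x) r, ho.mem_nhds hxm, ?_⟩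
  have h1 := hμ _ _ hs
  have h2 : μ (e.symm '' ball (dev x) r) = μ.restrict (e.symm '' ball (dev x) r) univ := by
    rw [Measure.restrict_apply_univ]
  rw [h2, h1, map_sec_apply lam hs MeasurableSet.univ]
  simp only [preimage_univ, univ_inter]
  exact measure_ball_lt_top

/-- indicator of the domain -/
noncomputable def ind (dev : X → E) (x : X) (w : E) : ℝ≥0∞ := (Dm dev).indicator 1 (x, w)

omit [T2Space X] [SecondCountableTopology X] [MeasurableSpace X] [BorelSpace X]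
  [FiniteDimensional ℝ E] [MeasurableSpace E] [BorelSpace E] in
theorem ind_of {x : X} {w : E} (h : (x, w) ∈ Dm dev) : ind dev x w = 1 :=
  indicator_of_mem (s := Dm dev) (f := (1 : X × E → ℝ≥0∞)) h

omit [T2Space X] [SecondCountableTopology X] [MeasurableSpace X] [BorelSpace X]
  [FiniteDimensional ℝ E] [MeasurableSpace E] [BorelSpace E] in
theorem ind_not {x : X} {w : E} (h : (x, w) ∉ Dm dev) : ind dev x w = 0 :=
  indicator_of_notMem (s := Dm dev) (f := (1 : X × E → ℝ≥0∞)) h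

theorem ind_meas (hloc : IsLocalHomeomorph dev) :
    Measurable fun p : X × E => ind dev p.1 p.2 :=
  measurable_one.indicator (isOpen_Dm hloc).measurableSet

/-- translation invariance with indicators -/
theorem trans_ind [Nonempty X] (hloc : IsLocalHomeomorph dev) {μ : Measure X}
    (hμ : ChartMeas dev lam μ) (w : E) {F G : X → ℝ≥0∞} (hF : Measurable F) (hG : Measurable G) :
    ∫⁻ x, ind dev x w * (G x * F (Ph dev x w)) ∂μ =
      ∫⁻ y, ind dev y (-w) * (G (Ph dev y (-w)) * F y) ∂μ := by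
  have h := trans_lintegral lam hloc hμ w hF hG
  have e : ∀ (w : E) (H : X → ℝ≥0∞), ∫⁻ x in Sl dev w, H x ∂μ = ∫⁻ x, ind dev x w * H x ∂μ := by
    intro w H
    rw [← lintegral_indicator (isOpen_Sl hloc w).measurableSet]
    refine lintegral_congr fun x => ?_
    by_cases hx : (x, w) ∈ Dm dev
    · rw [indicator_of_mem (show x ∈ Sl dev w from hx), ind_of hx, one_mul]
    · rw [indicator_of_notMem (show x ∉ Sl dev w from hx), ind_not hx, zero_mul]
  rw [e, e] at h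
  exact h

end

section
variable {X Γ E : Type} [TopologicalSpace X] [T2Space X] [SecondCountableTopology X]
  [MeasurableSpace X] [BorelSpace X] [Group Γ] [MulAction Γ X]
  [NormedAddCommGroup E] [NormedSpace ℝ E] [FiniteDimensional ℝ E] [MeasurableSpace E]
  [BorelSpace E] {dev : X → E} {hol : Γ →* (E ≃ᵃ[ℝ] E)} (lam : Measure E) [lam.IsAddHaarMeasure]

omit [SecondCountableTopology X] [MeasurableSpace X] [BorelSpace X] [MeasurableSpace E]
  [BorelSpace E] in
theorem mem_Dm_smul (D : AffData X Γ E dev hol) (γ : Γ) {x : X} {w : E} :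
    (γ • x, lin hol γ w) ∈ Dm dev ↔ (x, w) ∈ Dm dev := by
  constructor
  · rintro ⟨y, hy⟩
    have h1 := D.Ex_smul γ⁻¹ hy
    rw [inv_smul_smul, lin_inv_apply] at h1
    exact ⟨_, h1⟩
  · rintro ⟨y, hy⟩
    exact ⟨_, D.Ex_smul γ hy⟩

omit [SecondCountableTopology X] [MeasurableSpace X] [BorelSpace X] [MeasurableSpace E]
  [BorelSpace E] in
theorem ind_smul (D : AffData X Γ E dev hol) (γ : Γ) (x : X) (w : E) :
    ind dev (γ • x) (lin hol γ w) = ind dev x w := by
  by_cases h : (x, w) ∈ Dm dev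
  · rw [ind_of h, ind_of ((mem_Dm_smul D γ).2 h)]
  · rw [ind_not h, ind_not fun h' => h ((mem_Dm_smul D γ).1 h')]

omit [SecondCountableTopology X] [MeasurableSpace X] [BorelSpace X] [MeasurableSpace E]
  [BorelSpace E] in
theorem Ph_smul (D : AffData X Γ E dev hol) (γ : Γ) {x : X} {w : E} (h : (x, w) ∈ Dm dev) :
    Ph dev (γ • x) (lin hol γ w) = γ • Ph dev x w :=
  Ph_eq D.loc (D.Ex_smul γ (Ph_spec h))

/-- an action of the group on vectors, linear up to positive factors, preserving a measure -/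
structure DirAct (hol : Γ →* (E ≃ᵃ[ℝ] E)) (A : Γ → E → E) (c : Γ → E → ℝ) (m : Measure E) :
    Prop where
  meas : ∀ γ, Measurable (A γ)
  cmeas : ∀ γ, Measurable (c γ)
  pos : ∀ γ u, 0 < c γ u
  lin : ∀ γ u, lin hol γ u = c γ u • A γ u
  pres : ∀ γ, m.map (A γ) = m

theorem subst {A : Γ → E → E} {c : Γ → E → ℝ} {m : Measure E} (H : DirAct hol A c m)
    (D : AffData X Γ E dev hol) [Nonempty X] {μ : Measure X} (hμ : ChartMeas dev lam μ)
    (γ : Γ) {Ψ : E → ℝ → X → ℝ≥0∞} (hΨ : Measurable fun p : E × ℝ × X => Ψ p.1 p.2.1 p.2.2)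
    [SFinite μ] :
    ∫⁻ u, ∫⁻ s, ∫⁻ y, Ψ (A γ u) (c γ u * s) (γ • y) * ENNReal.ofReal (c γ u) ∂μ ∂volume ∂m =
      ∫⁻ u, ∫⁻ s, ∫⁻ y, Ψ u s y ∂μ ∂volume ∂m := by
  have hγ : Measurable fun x : X => γ • x := (D.cont γ).measurable
  have h1 : ∀ (v : E) (t : ℝ), ∫⁻ y, Ψ v t (γ • y) ∂μ = ∫⁻ y, Ψ v t y ∂μ := by
    intro v t
    have hm : Measurable (Ψ v t) := hΨ.comp (measurable_const.prodMk
      (measurable_const.prodMk measurable_id))
    rw [← lintegral_map hm hγ, hμ.map_smul lam D γ]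
  have hm1 : Measurable fun p : E × ℝ => ∫⁻ y, Ψ p.1 p.2 y ∂μ := by
    have : Measurable fun p : (E × ℝ) × X => Ψ p.1.1 p.1.2 p.2 :=
      hΨ.comp ((measurable_fst.comp measurable_fst).prodMk
        ((measurable_snd.comp measurable_fst).prodMk measurable_snd))
    exact this.lintegral_prod_right'
  have h2 : ∀ (v : E) (a : ℝ), 0 < a →
      ∫⁻ s, ENNReal.ofReal a * ∫⁻ y, Ψ v (a * s) y ∂μ = ∫⁻ s, ∫⁻ y, Ψ v s y ∂μ := by
    intro v a ha
    have hm : Measurable fun s : ℝ => ∫⁻ y, Ψ v s y ∂μ :=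
      hm1.comp (measurable_const.prodMk measurable_id)
    have hmul : Measurable fun s : ℝ => a * s := measurable_const.mul measurable_id
    have hma : Measurable fun s : ℝ => ∫⁻ y, Ψ v (a * s) y ∂μ := hm.comp hmul
    have h3 := Real.smul_map_volume_mul_left (a := a) ha.ne'
    conv_rhs => rw [← h3]
    rw [lintegral_const_mul _ hma, lintegral_smul_measure,
      lintegral_map hm hmul, abs_of_pos ha]
    rfl
  calc ∫⁻ u, ∫⁻ s, ∫⁻ y, Ψ (A γ u) (c γ u * s) (γ • y) * ENNReal.ofReal (c γ u) ∂μ ∂volume ∂m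
      = ∫⁻ u, ∫⁻ s, ENNReal.ofReal (c γ u) * ∫⁻ y, Ψ (A γ u) (c γ u * s) y ∂μ ∂volume ∂m := by
        refine lintegral_congr fun u => lintegral_congr fun s => ?_
        rw [lintegral_mul_const', h1, mul_comm]
        exact ENNReal.ofReal_ne_top
    _ = ∫⁻ u, ∫⁻ s, ∫⁻ y, Ψ (A γ u) s y ∂μ ∂volume ∂m :=
        lintegral_congr fun u => h2 _ _ (H.pos γ u)
    _ = ∫⁻ u, ∫⁻ s, ∫⁻ y, Ψ u s y ∂μ ∂volume ∂m := by
        have hm2 : Measurable fun u : E => ∫⁻ s, ∫⁻ y, Ψ u s y ∂μ := hm1.lintegral_prod_right'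
        conv_rhs => rw [← H.pres γ]
        rw [lintegral_map hm2 (H.meas γ)]

/-- mass transport along geodesics -/
theorem mtp {A : Γ → E → E} {c : Γ → E → ℝ} {m : Measure E} (H : DirAct hol A c m)
    (D : AffData X Γ E dev hol) [Nonempty X] {μ : Measure X} (hμ : ChartMeas dev lam μ)
    [Countable Γ] {G : X → ℝ≥0∞} (hG : Measurable G) (hG1 : ∀ x, ∑' γ : Γ, G (γ • x) = 1)
    {K : E → ℝ → X → ℝ≥0∞} (hK : Measurable fun p : E × ℝ × X => K p.1 p.2.1 p.2.2)
    (hinv : ∀ (γ : Γ) u s x, K (A γ u) (c γ u * s) (γ • x) * ENNReal.ofReal (c γ u) = K u s x) :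
    ∫⁻ u, ∫⁻ x, G x * ∫⁻ s : ℝ, ind dev x (s • u) * K u s x ∂volume ∂μ ∂m =
      ∫⁻ u, ∫⁻ x, G x * ∫⁻ s : ℝ, ind dev x (s • u) * K u (-s) (Ph dev x (s • u)) ∂volume ∂μ ∂m := by
  haveI : IsLocallyFiniteMeasure μ := locFin lam D.loc hμ
  have hind : Measurable fun p : X × E => ind dev p.1 p.2 := ind_meas D.loc
  have hP : Measurable fun p : X × E => Ph dev p.1 p.2 := Ph_measurable D.loc
  -- coordinates on `E × ℝ × X`
  have c1 : Measurable fun p : E × ℝ × X => p.1 := measurable_fst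
  have c2 : Measurable fun p : E × ℝ × X => p.2.1 := measurable_fst.comp measurable_snd
  have c3 : Measurable fun p : E × ℝ × X => p.2.2 := measurable_snd.comp measurable_snd
  have csu : Measurable fun p : E × ℝ × X => p.2.1 • p.1 := c2.smul c1
  have msu : Measurable fun p : E × ℝ × X => (p.2.2, p.2.1 • p.1) := c3.prodMk csu
  have mind : Measurable fun p : E × ℝ × X => ind dev p.2.2 (p.2.1 • p.1) := hind.comp msu
  have mPh : Measurable fun p : E × ℝ × X => Ph dev p.2.2 (p.2.1 • p.1) := hP.comp msu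
  have mKP : Measurable fun p : E × ℝ × X => K p.1 (-p.2.1) (Ph dev p.2.2 (p.2.1 • p.1)) :=
    hK.comp (c1.prodMk (c2.neg.prodMk mPh))
  have hγm : ∀ γ : Γ, Measurable fun x : X => γ • x := fun γ => (D.cont γ).measurable
  -- fibres
  have fib : ∀ {f : E → ℝ → X → ℝ≥0∞}, (Measurable fun p : E × ℝ × X => f p.1 p.2.1 p.2.2) →
      (∀ u s, Measurable fun x => f u s x) ∧ (∀ u, Measurable fun s => ∫⁻ x, f u s x ∂μ) ∧
      (Measurable fun u => ∫⁻ s : ℝ, ∫⁻ x, f u s x ∂μ ∂volume) ∧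
      (∀ u, ∫⁻ s : ℝ, ∫⁻ x, f u s x ∂μ ∂volume = ∫⁻ x, ∫⁻ s : ℝ, f u s x ∂volume ∂μ) ∧
      (∀ u x, Measurable fun s => f u s x) := by
    intro f hf
    have hf2 : Measurable fun p : (E × ℝ) × X => f p.1.1 p.1.2 p.2 :=
      hf.comp ((measurable_fst.comp measurable_fst).prodMk
        ((measurable_snd.comp measurable_fst).prodMk measurable_snd))
    have hf3 : Measurable fun p : E × ℝ => ∫⁻ x, f p.1 p.2 x ∂μ := hf2.lintegral_prod_right'
    refine ⟨fun u s => hf.comp (measurable_const.prodMk (measurable_const.prodMk measurable_id)),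
      fun u => hf3.comp (measurable_const.prodMk measurable_id), hf3.lintegral_prod_right',
      fun u => ?_, fun u x => hf.comp (measurable_const.prodMk (measurable_id.prodMk
        measurable_const))⟩
    refine lintegral_lintegral_swap ?_
    exact (hf.comp (measurable_const.prodMk (measurable_fst.prodMk measurable_snd))).aemeasurable
  -- left hand side
  let L : E → ℝ → X → ℝ≥0∞ := fun u s x => ind dev x (s • u) * (G x * K u s x)
  have mL : Measurable fun p : E × ℝ × X => L p.1 p.2.1 p.2.2 :=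
    mind.mul ((hG.comp c3).mul hK)
  let R : E → ℝ → X → ℝ≥0∞ := fun u s x => ind dev x (s • u) * (G x * K u (-s) (Ph dev x (s • u)))
  have mR : Measurable fun p : E × ℝ × X => R p.1 p.2.1 p.2.2 :=
    mind.mul ((hG.comp c3).mul mKP)
  have eL : ∫⁻ u, ∫⁻ x, G x * ∫⁻ s : ℝ, ind dev x (s • u) * K u s x ∂volume ∂μ ∂m =
      ∫⁻ u, ∫⁻ s : ℝ, ∫⁻ x, L u s x ∂μ ∂volume ∂m := by
    refine lintegral_congr fun u => ?_
    rw [(fib mL).2.2.2.1 u]
    refine lintegral_congr fun x => ?_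
    have h1 : Measurable fun s : ℝ => ind dev x (s • u) * K u s x :=
      (fib (f := fun u s x => ind dev x (s • u) * K u s x) (mind.mul hK)).2.2.2.2 u x
    rw [← lintegral_const_mul _ h1]
    refine lintegral_congr fun s => ?_
    show G x * (ind dev x (s • u) * K u s x) = ind dev x (s • u) * (G x * K u s x)
    ring
  have eR : ∫⁻ u, ∫⁻ x, G x * ∫⁻ s : ℝ, ind dev x (s • u) * K u (-s) (Ph dev x (s • u))
        ∂volume ∂μ ∂m = ∫⁻ u, ∫⁻ s : ℝ, ∫⁻ x, R u s x ∂μ ∂volume ∂m := by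
    refine lintegral_congr fun u => ?_
    rw [(fib mR).2.2.2.1 u]
    refine lintegral_congr fun x => ?_
    have h1 : Measurable fun s : ℝ => ind dev x (s • u) * K u (-s) (Ph dev x (s • u)) :=
      (fib (f := fun u s x => ind dev x (s • u) * K u (-s) (Ph dev x (s • u)))
        (mind.mul mKP)).2.2.2.2 u x
    rw [← lintegral_const_mul _ h1]
    refine lintegral_congr fun s => ?_
    show G x * (ind dev x (s • u) * K u (-s) (Ph dev x (s • u))) =
      ind dev x (s • u) * (G x * K u (-s) (Ph dev x (s • u)))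
    ring
  rw [eL, eR]
  -- the terms
  let T1 : Γ → E → ℝ → X → ℝ≥0∞ := fun γ u s x =>
    ind dev x (s • u) * ((G x * K u s x) * G (γ • Ph dev x (s • u)))
  let T2 : Γ → E → ℝ → X → ℝ≥0∞ := fun γ u s x =>
    ind dev x (s • u) * ((G (Ph dev x (s • u)) * K u (-s) (Ph dev x (s • u))) * G (γ • x))
  let T3 : Γ → E → ℝ → X → ℝ≥0∞ := fun γ u s x =>
    ind dev x (s • u) * ((G (γ⁻¹ • Ph dev x (s • u)) * K u (-s) (Ph dev x (s • u))) * G x)
  have mT1 : ∀ γ, Measurable fun p : E × ℝ × X => T1 γ p.1 p.2.1 p.2.2 := fun γ =>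
    mind.mul (((hG.comp c3).mul hK).mul (hG.comp ((hγm γ).comp mPh)))
  have mT2 : ∀ γ, Measurable fun p : E × ℝ × X => T2 γ p.1 p.2.1 p.2.2 := fun γ =>
    mind.mul (((hG.comp mPh).mul mKP).mul (hG.comp ((hγm γ).comp c3)))
  have mT3 : ∀ γ, Measurable fun p : E × ℝ × X => T3 γ p.1 p.2.1 p.2.2 := fun γ =>
    mind.mul (((hG.comp ((hγm γ⁻¹).comp mPh)).mul mKP).mul (hG.comp c3))
  have sumswap : ∀ {T : Γ → E → ℝ → X → ℝ≥0∞},
      (∀ γ, Measurable fun p : E × ℝ × X => T γ p.1 p.2.1 p.2.2) →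
      ∫⁻ u, ∫⁻ s : ℝ, ∫⁻ x, ∑' γ, T γ u s x ∂μ ∂volume ∂m =
        ∑' γ, ∫⁻ u, ∫⁻ s : ℝ, ∫⁻ x, T γ u s x ∂μ ∂volume ∂m := by
    intro T hT
    have h1 : ∀ u s, ∫⁻ x, ∑' γ, T γ u s x ∂μ = ∑' γ, ∫⁻ x, T γ u s x ∂μ := fun u s =>
      lintegral_tsum fun γ => ((fib (hT γ)).1 u s).aemeasurable
    have h2 : ∀ u, ∫⁻ s : ℝ, ∫⁻ x, ∑' γ, T γ u s x ∂μ ∂volume =
        ∑' γ, ∫⁻ s : ℝ, ∫⁻ x, T γ u s x ∂μ ∂volume := by
      intro u
      simp only [h1]
      exact lintegral_tsum fun γ => ((fib (hT γ)).2.1 u).aemeasurable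
    simp only [h2]
    exact lintegral_tsum fun γ => (fib (hT γ)).2.2.1.aemeasurable
  have s1 : ∫⁻ u, ∫⁻ s : ℝ, ∫⁻ x, L u s x ∂μ ∂volume ∂m =
      ∑' γ, ∫⁻ u, ∫⁻ s : ℝ, ∫⁻ x, T1 γ u s x ∂μ ∂volume ∂m := by
    rw [← sumswap mT1]
    refine lintegral_congr fun u => lintegral_congr fun s => lintegral_congr fun x => ?_
    show ind dev x (s • u) * (G x * K u s x) = ∑' γ : Γ, T1 γ u s x
    have : ∀ γ : Γ, T1 γ u s x = (ind dev x (s • u) * (G x * K u s x)) * G (γ • Ph dev x (s • u)) :=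
      fun γ => by
        show ind dev x (s • u) * ((G x * K u s x) * G (γ • Ph dev x (s • u))) = _
        ring
    simp only [this]
    rw [ENNReal.tsum_mul_left, hG1, mul_one]
  have s3 : ∫⁻ u, ∫⁻ s : ℝ, ∫⁻ x, R u s x ∂μ ∂volume ∂m =
      ∑' γ, ∫⁻ u, ∫⁻ s : ℝ, ∫⁻ x, T3 γ u s x ∂μ ∂volume ∂m := by
    rw [← sumswap mT3]
    refine lintegral_congr fun u => lintegral_congr fun s => lintegral_congr fun x => ?_
    show ind dev x (s • u) * (G x * K u (-s) (Ph dev x (s • u))) = ∑' γ : Γ, T3 γ u s x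
    have : ∀ γ : Γ, T3 γ u s x = (ind dev x (s • u) * (G x * K u (-s) (Ph dev x (s • u)))) *
        G (γ⁻¹ • Ph dev x (s • u)) :=
      fun γ => by
        show ind dev x (s • u) * ((G (γ⁻¹ • Ph dev x (s • u)) * K u (-s) (Ph dev x (s • u))) * G x)
          = _
        ring
    simp only [this]
    rw [ENNReal.tsum_mul_left]
    have h2 : ∑' γ : Γ, G (γ⁻¹ • Ph dev x (s • u)) = 1 := by
      rw [← hG1 (Ph dev x (s • u))]
      exact (Equiv.inv Γ).tsum_eq (fun γ : Γ => G (γ • Ph dev x (s • u)))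
    rw [h2, mul_one]
  rw [s1, s3]
  congr 1
  funext γ
  -- first step: transport
  have t1 : ∫⁻ u, ∫⁻ s : ℝ, ∫⁻ x, T1 γ u s x ∂μ ∂volume ∂m =
      ∫⁻ u, ∫⁻ s : ℝ, ∫⁻ x, T2 γ u s x ∂μ ∂volume ∂m := by
    refine lintegral_congr fun u => ?_
    have h1 : ∀ s : ℝ, ∫⁻ x, T1 γ u s x ∂μ = ∫⁻ x, T2 γ u (-s) x ∂μ := by
      intro s
      have h2 := trans_ind lam D.loc hμ (s • u) (F := fun y => G (γ • y))
        (G := fun x => G x * K u s x) (hG.comp (hγm γ))
        (hG.mul ((fib hK).1 u s))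
      show ∫⁻ x, ind dev x (s • u) * ((G x * K u s x) * G (γ • Ph dev x (s • u))) ∂μ = _
      rw [h2]
      refine lintegral_congr fun y => ?_
      show _ = ind dev y ((-s) • u) * ((G (Ph dev y ((-s) • u)) *
        K u (-(-s)) (Ph dev y ((-s) • u))) * G (γ • y))
      rw [neg_neg, neg_smul]
    simp only [h1]
    exact lintegral_neg_eq_self (fun s : ℝ => ∫⁻ x, T2 γ u s x ∂μ)
  rw [t1]
  rw [← subst lam H D hμ γ (mT3 γ)]
  refine lintegral_congr fun u => lintegral_congr fun s => lintegral_congr fun x => ?_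
  show ind dev x (s • u) * ((G (Ph dev x (s • u)) * K u (-s) (Ph dev x (s • u))) * G (γ • x)) =
    ind dev (γ • x) ((c γ u * s) • A γ u) * ((G (γ⁻¹ • Ph dev (γ • x) ((c γ u * s) • A γ u)) *
      K (A γ u) (-(c γ u * s)) (Ph dev (γ • x) ((c γ u * s) • A γ u))) * G (γ • x)) *
      ENNReal.ofReal (c γ u)
  have e1 : (c γ u * s) • A γ u = lin hol γ (s • u) := by
    have h1 : lin hol γ (s • u) = s • lin hol γ u := (hol γ).linear.map_smul s u
    rw [h1, H.lin, smul_smul, mul_comm]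
  rw [e1, ind_smul D]
  by_cases hx : (x, s • u) ∈ Dm dev
  · rw [Ph_smul D γ hx, inv_smul_smul, ← hinv γ u (-s) (Ph dev x (s • u)), mul_neg]
    ring
  · rw [ind_not hx]
    simp

end

end Pool.Agent.FC640.MK
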