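import Pool.Agent.FC640.MK.One

set_option autoImplicit false



open Set Filter Topology Metric MeasureTheory
open scoped ENNReal

namespace Pool.Agent.FC640.MK

open Pool.Agent.W689.Mk

section
variable {X Γ E : Type} [TopologicalSpace X] [T2Space X] [SecondCountableTopology X] [Nonempty X]
  [MeasurableSpace X] [BorelSpace X] [Group Γ] [MulAction Γ X]
  [NormedAddCommGroup E] [NormedSpace ℝ E] [FiniteDimensional ℝ E] [MeasurableSpace E]
  [BorelSpace E] {dev : X → E} {hol : Γ →* (E ≃ᵃ[ℝ] E)} (lam : Measure E) [lam.IsAddHaarMeasure]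

/-- the one-sided pairs are negligible -/
theorem Wd_null {A : Γ → E → E} {c : Γ → E → ℝ} {m : Measure E} [IsFiniteMeasure m]
    (H : DirAct hol A c m) (D : AffData X Γ E dev hol) {μ : Measure X}
    (hμ : ChartMeas dev lam μ) : ∀ᵐ u ∂m, ∀ᵐ x ∂μ, (x, u) ∉ Wd dev := by
  haveI : IsLocallyFiniteMeasure μ := locFin lam D.loc hμ
  haveI : Countable Γ := countable_group D
  obtain ⟨G, hG, hG1, hGf⟩ := exists_weight lam D hμ
  have hI : Measurable fun p : E × X => (Wd dev).indicator (1 : X × E → ℝ≥0∞) (p.2, p.1) :=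
    (measurable_one.indicator (Wd_meas D.loc)).comp (measurable_snd.prodMk measurable_fst)
  have hJ : Measurable fun p : X × E => (Wd dev).indicator (1 : X × E → ℝ≥0∞) p :=
    measurable_one.indicator (Wd_meas D.loc)
  have hIu : ∀ u : E, Measurable fun x : X => (Wd dev).indicator (1 : X × E → ℝ≥0∞) (x, u) :=
    fun u => hJ.comp (measurable_prodMk_right (y := u))
  have key := mtp lam H D hμ hG hG1 (K := Kn dev) (Kn_meas D.loc)
    (fun γ u s x => Kn_inv D H.pos H.lin γ u s x)
  simp only [Kn_left D.loc] at key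
  set M := ∫⁻ u, ∫⁻ x, G x * (Wd dev).indicator 1 (x, u) ∂μ ∂m with hM
  have h1 : M ≤ ENNReal.ofReal (1 / 2) * M := by
    conv_lhs => rw [key]
    rw [hM]
    have h2 : ∀ u, ∫⁻ x, G x * ∫⁻ s : ℝ, ind dev x (s • u) * Kn dev u (-s) (Ph dev x (s • u))
        ∂volume ∂μ ≤ ENNReal.ofReal (1 / 2) * ∫⁻ x, G x * (Wd dev).indicator 1 (x, u) ∂μ := by
      intro u
      rw [← lintegral_const_mul' _ _ ENNReal.ofReal_ne_top]
      refine lintegral_mono fun x => ?_
      calc G x * ∫⁻ s : ℝ, ind dev x (s • u) * Kn dev u (-s) (Ph dev x (s • u)) ∂volume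
          ≤ G x * (ENNReal.ofReal (1 / 2) * (Wd dev).indicator 1 (x, u)) :=
            mul_le_mul_right (Kn_right D.loc u x) _
        _ = ENNReal.ofReal (1 / 2) * (G x * (Wd dev).indicator 1 (x, u)) := by ring
    rw [← lintegral_const_mul' _ _ ENNReal.ofReal_ne_top]
    exact lintegral_mono h2
  have h2 : M ≠ ⊤ := by
    have h3 : M ≤ ∫⁻ _u : E, ∫⁻ x, G x ∂μ ∂m := by
      refine lintegral_mono fun u => lintegral_mono fun x => ?_
      calc G x * (Wd dev).indicator 1 (x, u) ≤ G x * 1 := by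
            refine mul_le_mul_right ?_ _
            exact indicator_le_self' (fun _ _ => bot_le) _
        _ = G x := mul_one _
    rw [lintegral_const] at h3
    exact ne_top_of_le_ne_top (ENNReal.mul_ne_top hGf (measure_ne_top m _)) h3
  have h3 : M = 0 := by
    by_contra hne
    have h4 : ENNReal.ofReal (1 / 2) * M < M := by
      have h5 : ENNReal.ofReal (1 / 2) < 1 := by
        rw [← ENNReal.ofReal_one]
        exact (ENNReal.ofReal_lt_ofReal_iff one_pos).2 (by norm_num)
      calc ENNReal.ofReal (1 / 2) * M < 1 * M := ENNReal.mul_lt_mul_left hne h2 h5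
        _ = M := one_mul _
    exact absurd h1 (not_le.2 h4)
  -- all translates
  have h4 : ∀ γ : Γ, ∫⁻ u, ∫⁻ x, G (γ • x) * (Wd dev).indicator 1 (x, u) ∂μ ∂m = 0 := by
    intro γ
    have h5 := inv_pair lam H D hμ γ (F := fun u x => G x * (Wd dev).indicator 1 (x, u))
      ((hG.comp measurable_snd).mul hI)
    rw [← hM, h3] at h5
    rw [← h5]
    refine lintegral_congr fun u => lintegral_congr fun x => ?_
    congr 1
    by_cases h : (x, u) ∈ Wd dev
    · rw [indicator_of_mem h, indicator_of_mem ((Wd_smul_iff D H.pos H.lin γ).2 h)]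
      rfl
    · rw [indicator_of_notMem h,
        indicator_of_notMem fun h' => h ((Wd_smul_iff D H.pos H.lin γ).1 h')]
  have h5 : ∫⁻ u, ∫⁻ x, (Wd dev).indicator 1 (x, u) ∂μ ∂m = (0 : ℝ≥0∞) := by
    have h6 : ∀ u, ∫⁻ x, (Wd dev).indicator 1 (x, u) ∂μ =
        ∑' γ : Γ, ∫⁻ x, G (γ • x) * (Wd dev).indicator 1 (x, u) ∂μ := by
      intro u
      have h8 : ∀ γ : Γ, Measurable fun x => G (γ • x) *
          (Wd dev).indicator (1 : X × E → ℝ≥0∞) (x, u) := fun γ =>
        Measurable.mul (hG.comp (D.cont γ).measurable) (hIu u)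
      rw [← lintegral_tsum fun γ => (h8 γ).aemeasurable]
      refine lintegral_congr fun x => ?_
      rw [ENNReal.tsum_mul_right, hG1, one_mul]
    simp only [h6]
    have h7 : ∀ γ : Γ, Measurable fun u => ∫⁻ x, G (γ • x) * (Wd dev).indicator 1 (x, u) ∂μ := by
      intro γ
      have : Measurable fun p : E × X => G (γ • p.2) * (Wd dev).indicator (1 : X × E → ℝ≥0∞)
          (p.2, p.1) :=
        Measurable.mul (hG.comp ((D.cont γ).measurable.comp measurable_snd)) hI
      exact this.lintegral_prod_right'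
    rw [lintegral_tsum fun γ => (h7 γ).aemeasurable]
    simp only [h4, tsum_zero]
  have h6 : Measurable fun u => ∫⁻ x, (Wd dev).indicator (1 : X × E → ℝ≥0∞) (x, u) ∂μ :=
    hI.lintegral_prod_right'
  rw [lintegral_eq_zero_iff h6] at h5
  filter_upwards [h5] with u hu
  have h7 : Measurable fun x => (Wd dev).indicator (1 : X × E → ℝ≥0∞) (x, u) := hIu u
  have h8 : ∫⁻ x, (Wd dev).indicator (1 : X × E → ℝ≥0∞) (x, u) ∂μ = 0 := hu
  rw [lintegral_eq_zero_iff h7] at h8
  filter_upwards [h8] with x hx hxW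
  rw [indicator_of_mem hxW] at hx
  exact one_ne_zero hx

end

end Pool.Agent.FC640.MK
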