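import Pool.Agent.FC640.MK.Life

set_option autoImplicit false

open Set Filter Topology Metric MeasureTheory
open scoped ENNReal

namespace Pool.Agent.FC640.MK

open Pool.Agent.W689.Mk

section
variable {X Γ E : Type} [TopologicalSpace X] [T2Space X] [SecondCountableTopology X] [Nonempty X]
  [MeasurableSpace X] [BorelSpace X] [Group Γ] [MulAction Γ X]
  [NormedAddCommGroup E] [NormedSpace ℝ E] [FiniteDimensional ℝ E] [MeasurableSpace E]
  [BorelSpace E] {dev : X → E} {hol : Γ →* (E ≃ᵃ[ℝ] E)} (lam : Measure E) [lam.IsAddHaarMeasure]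

/-- a weight with values in the extended half line -/
theorem exists_weight (D : AffData X Γ E dev hol) {μ : Measure X} (hμ : ChartMeas dev lam μ) :
    ∃ G : X → ℝ≥0∞, Measurable G ∧ (∀ x, ∑' γ : Γ, G (γ • x) = 1) ∧ (∫⁻ x, G x ∂μ) ≠ ⊤ := by
  obtain ⟨ρ, hρ⟩ := exists_wt D
  obtain ⟨K, hK, hs⟩ := hρ.supp
  have hc : Continuous ρ := hρ.ll.continuous D.loc.continuous
  have hG1 : ∀ x, ∑' γ : Γ, ENNReal.ofReal (ρ (γ • x)) = 1 := by
    intro x
    obtain ⟨F, hF⟩ := hρ.fin x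
    have e1 : ∑' γ : Γ, ρ (γ • x) = ∑ γ ∈ F, ρ (γ • x) := tsum_eq_sum fun γ hγ => hF γ hγ
    have e2 : ∑' γ : Γ, ENNReal.ofReal (ρ (γ • x)) = ∑ γ ∈ F, ENNReal.ofReal (ρ (γ • x)) :=
      tsum_eq_sum fun γ hγ => by rw [hF γ hγ, ENNReal.ofReal_zero]
    rw [e2, ← ENNReal.ofReal_sum_of_nonneg fun γ _ => hρ.nonneg _, ← e1, hρ.sum, ENNReal.ofReal_one]
  have hle : ∀ x, ENNReal.ofReal (ρ x) ≤ 1 := by
    intro x
    rw [← hG1 x]
    refine le_trans ?_ (ENNReal.le_tsum (1 : Γ))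
    rw [one_smul]
  refine ⟨fun x => ENNReal.ofReal (ρ x), hc.measurable.ennreal_ofReal, hG1, ?_⟩
  haveI : IsLocallyFiniteMeasure μ := locFin lam D.loc hμ
  have h1 : ∫⁻ x, ENNReal.ofReal (ρ x) ∂μ ≤ ∫⁻ x, K.indicator 1 x ∂μ := by
    refine lintegral_mono fun x => ?_
    by_cases hx : x ∈ K
    · rw [indicator_of_mem hx]; exact hle x
    · rw [hs x hx, ENNReal.ofReal_zero]; exact bot_le
  have h2 : ∫⁻ x, K.indicator 1 x ∂μ = μ K := lintegral_indicator_one hK.measurableSet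
  rw [h2] at h1
  exact ne_top_of_le_ne_top hK.measure_lt_top.ne h1

theorem inv_pair {A : Γ → E → E} {c : Γ → E → ℝ} {m : Measure E} (H : DirAct hol A c m)
    (D : AffData X Γ E dev hol) {μ : Measure X} (hμ : ChartMeas dev lam μ) [SFinite μ]
    (γ : Γ) {F : E → X → ℝ≥0∞} (hF : Measurable fun p : E × X => F p.1 p.2) :
    ∫⁻ u, ∫⁻ x, F (A γ u) (γ • x) ∂μ ∂m = ∫⁻ u, ∫⁻ x, F u x ∂μ ∂m := by
  have hγ : Measurable fun x : X => γ • x := (D.cont γ).measurable
  have h1 : ∀ v : E, ∫⁻ x, F v (γ • x) ∂μ = ∫⁻ x, F v x ∂μ := by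
    intro v
    have hm : Measurable (F v) := hF.comp (measurable_const.prodMk measurable_id)
    rw [← lintegral_map hm hγ, hμ.map_smul lam D γ]
  have h2 : Measurable fun u : E => ∫⁻ x, F u x ∂μ := hF.lintegral_prod_right'
  simp only [h1]
  conv_rhs => rw [← H.pres γ]
  rw [lintegral_map h2 (H.meas γ)]

open Classical in
/-- the transport kernel -/
noncomputable def Kn (dev : X → E) (u : E) (s : ℝ) (x : X) : ℝ≥0∞ :=
  if (x, u) ∈ Wd dev ∧ -(2 * (bt dev (x, u)).toReal) ≤ s ∧ s ≤ -(bt dev (x, u)).toReal then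
    ENNReal.ofReal ((bt dev (x, u)).toReal)⁻¹ else 0

theorem Kn_meas (hloc : IsLocalHomeomorph dev) :
    Measurable fun p : E × ℝ × X => Kn dev p.1 p.2.1 p.2.2 := by
  have c0 : Measurable fun p : E × ℝ × X => (p.2.2, p.1) :=
    (measurable_snd.comp measurable_snd).prodMk measurable_fst
  have c1 : Measurable fun p : E × ℝ × X => (bt dev (p.2.2, p.1)).toReal :=
    ((bt_meas hloc).comp c0).ennreal_toReal
  have c2 : Measurable fun p : E × ℝ × X => p.2.1 := measurable_fst.comp measurable_snd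
  unfold Kn
  refine Measurable.ite ?_ c1.inv.ennreal_ofReal measurable_const
  have e1 : MeasurableSet {p : E × ℝ × X | (p.2.2, p.1) ∈ Wd dev} := c0 (Wd_meas hloc)
  have e2 : MeasurableSet {p : E × ℝ × X | -(2 * (bt dev (p.2.2, p.1)).toReal) ≤ p.2.1} :=
    measurableSet_le (c1.const_mul 2).neg c2
  have e3 : MeasurableSet {p : E × ℝ × X | p.2.1 ≤ -(bt dev (p.2.2, p.1)).toReal} :=
    measurableSet_le c2 c1.neg
  exact e1.inter (e2.inter e3)

omit [SecondCountableTopology X] [Nonempty X] [MeasurableSpace X] [BorelSpace X]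
  [FiniteDimensional ℝ E] [MeasurableSpace E] [BorelSpace E] [Group Γ] [MulAction Γ X] in
theorem Kn_of_notMem {u : E} {s : ℝ} {x : X} (h : (x, u) ∉ Wd dev) : Kn dev u s x = 0 := by
  unfold Kn
  rw [if_neg fun h' => h h'.1]

theorem Wd_smul_iff (D : AffData X Γ E dev hol) {A : Γ → E → E} {c : Γ → E → ℝ}
    (hpos : ∀ γ u, 0 < c γ u) (hlin : ∀ γ u, lin hol γ u = c γ u • A γ u) (γ : Γ) {x : X} {u : E} :
    (γ • x, A γ u) ∈ Wd dev ↔ (x, u) ∈ Wd dev := by
  refine ⟨fun h => ?_, fun h => (Wd_smul D hpos hlin γ h).1⟩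
  have h1 := Wd_mem D.loc h
  have hb : 0 < (bt dev (γ • x, A γ u)).toReal := ENNReal.toReal_pos (bt_pos D.loc _).ne' h.1.ne
  have hc := hpos γ u
  refine (Wd_of D.loc (β := (bt dev (γ • x, A γ u)).toReal / c γ u) (div_pos hb hc)
    fun s => ?_).1
  have e1 : lin hol γ (s • u) = (c γ u * s) • A γ u := by
    have h1 : lin hol γ (s • u) = s • lin hol γ u := (hol γ).linear.map_smul _ u
    rw [h1, hlin, smul_smul, mul_comm]
  rw [← mem_Dm_smul D γ, e1, h1, lt_div_iff₀ hc, mul_comm]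

theorem Kn_inv (D : AffData X Γ E dev hol) {A : Γ → E → E} {c : Γ → E → ℝ}
    (hpos : ∀ γ u, 0 < c γ u) (hlin : ∀ γ u, lin hol γ u = c γ u • A γ u) (γ : Γ) (u : E) (s : ℝ)
    (x : X) : Kn dev (A γ u) (c γ u * s) (γ • x) * ENNReal.ofReal (c γ u) = Kn dev u s x := by
  by_cases h : (x, u) ∈ Wd dev
  · obtain ⟨h1, h2⟩ := Wd_smul D hpos hlin γ h
    have hc := hpos γ u
    have hb : 0 < (bt dev (x, u)).toReal := ENNReal.toReal_pos (bt_pos D.loc _).ne' h.1.ne
    unfold Kn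
    rw [h2]
    set β := (bt dev (x, u)).toReal with hβ
    have e1 : (-(2 * (c γ u * β)) ≤ c γ u * s) ↔ (-(2 * β) ≤ s) := by
      have : -(2 * (c γ u * β)) = c γ u * (-(2 * β)) := by ring
      rw [this, mul_le_mul_iff_right₀ hc]
    have e2 : (c γ u * s ≤ -(c γ u * β)) ↔ (s ≤ -β) := by
      have : -(c γ u * β) = c γ u * (-β) := by ring
      rw [this, mul_le_mul_iff_right₀ hc]
    by_cases h3 : -(2 * β) ≤ s ∧ s ≤ -β
    · rw [if_pos ⟨h1, e1.2 h3.1, e2.2 h3.2⟩, if_pos ⟨h, h3⟩,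
        ← ENNReal.ofReal_mul (inv_nonneg.2 (mul_pos hc hb).le)]
      congr 1
      field_simp
    · rw [if_neg fun h' => h3 ⟨e1.1 h'.2.1, e2.1 h'.2.2⟩, if_neg fun h' => h3 h'.2, zero_mul]
  · rw [Kn_of_notMem h, Kn_of_notMem (fun h' => h ((Wd_smul_iff D hpos hlin γ).1 h')), zero_mul]

theorem Kn_left (hloc : IsLocalHomeomorph dev) (u : E) (x : X) :
    ∫⁻ s : ℝ, ind dev x (s • u) * Kn dev u s x = (Wd dev).indicator 1 (x, u) := by
  by_cases h : (x, u) ∈ Wd dev
  · have hb : 0 < (bt dev (x, u)).toReal := ENNReal.toReal_pos (bt_pos hloc _).ne' h.1.ne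
    rw [indicator_of_mem h]
    set β := (bt dev (x, u)).toReal with hβ
    have e1 : ∀ s : ℝ, ind dev x (s • u) * Kn dev u s x =
        (Icc (-(2 * β)) (-β)).indicator (fun _ => ENNReal.ofReal β⁻¹) s := by
      intro s
      unfold Kn
      rw [← hβ]
      by_cases h3 : s ∈ Icc (-(2 * β)) (-β)
      · rw [indicator_of_mem h3, if_pos ⟨h, h3.1, h3.2⟩, ind_of, one_mul]
        rw [Wd_mem hloc h, ← hβ]
        linarith [h3.2]
      · rw [indicator_of_notMem h3, if_neg fun h' => h3 h'.2, mul_zero]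
    simp only [e1]
    rw [lintegral_indicator measurableSet_Icc, setLIntegral_const, Real.volume_Icc,
      ← ENNReal.ofReal_mul (inv_nonneg.2 hb.le)]
    have : β⁻¹ * (-β - -(2 * β)) = 1 := by field_simp; ring
    rw [this, ENNReal.ofReal_one]
    rfl
  · rw [indicator_of_notMem h]
    simp only [Kn_of_notMem h, mul_zero, lintegral_zero]

theorem Kn_right (hloc : IsLocalHomeomorph dev) (u : E) (x : X) :
    ∫⁻ s : ℝ, ind dev x (s • u) * Kn dev u (-s) (Ph dev x (s • u)) ≤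
      ENNReal.ofReal (1 / 2) * (Wd dev).indicator 1 (x, u) := by
  by_cases h : (x, u) ∈ Wd dev
  · have hb : 0 < (bt dev (x, u)).toReal := ENNReal.toReal_pos (bt_pos hloc _).ne' h.1.ne
    rw [indicator_of_mem h]
    have hsh : ∀ s : ℝ, (x, s • u) ∈ Dm dev → _ := fun s hs => Wd_shift hloc hs h
    set β := (bt dev (x, u)).toReal with hβ
    have e1 : ∀ s : ℝ, ind dev x (s • u) * Kn dev u (-s) (Ph dev x (s • u)) ≤
        (Icc (β / 2) (2 * β / 3)).indicator (fun _ => ENNReal.ofReal (3 * β⁻¹)) s := by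
      intro s
      by_cases hs : (x, s • u) ∈ Dm dev
      · obtain ⟨g1, g2⟩ := hsh s hs
        unfold Kn
        rw [g2]
        by_cases h3 : -(2 * (β - s)) ≤ -s ∧ -s ≤ -(β - s)
        · have h4 : s ∈ Icc (β / 2) (2 * β / 3) := ⟨by linarith [h3.2], by linarith [h3.1]⟩
          rw [if_pos ⟨g1, h3⟩, indicator_of_mem h4, ind_of hs, one_mul]
          refine ENNReal.ofReal_le_ofReal ?_
          have h5 : 0 < β / 3 := by linarith
          have h6 : β / 3 ≤ β - s := by linarith [h4.2]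
          have h7 : (β - s)⁻¹ ≤ (β / 3)⁻¹ := inv_anti₀ h5 h6
          have h8 : (β / 3)⁻¹ = 3 * β⁻¹ := by field_simp
          rwa [h8] at h7
        · rw [if_neg fun h' => h3 h'.2, mul_zero]
          exact bot_le
      · rw [ind_not hs, zero_mul]
        exact bot_le
    refine (lintegral_mono e1).trans ?_
    rw [lintegral_indicator measurableSet_Icc, setLIntegral_const, Real.volume_Icc,
      ← ENNReal.ofReal_mul (by positivity)]
    have : 3 * β⁻¹ * (2 * β / 3 - β / 2) = 1 / 2 := by field_simp; ring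
    rw [this]
    show _ ≤ _ * (1 : ℝ≥0∞)
    rw [mul_one]
  · have e1 : ∀ s : ℝ, ind dev x (s • u) * Kn dev u (-s) (Ph dev x (s • u)) = 0 := by
      intro s
      by_cases hs : (x, s • u) ∈ Dm dev
      · rw [Kn_of_notMem fun h' => h ((Wd_shift_iff hloc hs).1 h'), mul_zero]
      · rw [ind_not hs, zero_mul]
    simp only [e1, lintegral_zero]
    exact bot_le

end

end Pool.Agent.FC640.MK
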