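import Pool.Agent.FC640.MK.Det

set_option autoImplicit false

open Set Filter Topology Metric MeasureTheory
open scoped ENNReal

namespace Pool.Agent.FC640.MK

open Pool.Agent.W689.Mk

section
variable {X Γ E : Type} [TopologicalSpace X] [T2Space X] [SecondCountableTopology X] [Nonempty X]
  [Group Γ] [MulAction Γ X]
  [NormedAddCommGroup E] [NormedSpace ℝ E] [FiniteDimensional ℝ E] [MeasurableSpace E]
  [BorelSpace E] {dev : X → E} {hol : Γ →* (E ≃ᵃ[ℝ] E)} (lam : Measure E) [lam.IsAddHaarMeasure]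

/-- the statement in the charts -/
theorem escape_charts (D : AffData X Γ E dev hol) (m : Measure E) [IsLocallyFiniteMeasure m]
    (hm : ∀ γ : Γ, m.map (fun w => lin hol γ w) = m) :
    ∀ᵐ w ∂m, ∀ (U : Set E) (σ : E → X), Sec dev U σ → ∀ᵐ q ∂(lam.restrict U),
      (∀ t : ℝ, Geod dev (σ q) (t • w)) ∨
      (∀ K : Set (X × E), IsCompact K → ∃ a b : ℝ, Geod dev (σ q) (a • w) ∧
        Geod dev (σ q) (b • w) ∧ ∀ (t : ℝ) (y : X), Ex dev (σ q) (t • w) y →
          (∃ γ : Γ, (γ • y, lin hol γ w) ∈ K) → a ≤ t ∧ t ≤ b) := by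
  letI : MeasurableSpace X := borel X
  haveI : BorelSpace X := ⟨rfl⟩
  obtain ⟨μ, hμ⟩ := exists_chartMeas lam D.loc
  have h1 := escape lam hm D hμ
  filter_upwards [h1] with w hw U σ hσ
  have h5 := ae_restrict_of_ae (s := σ '' U) hw
  rw [hμ U σ hσ] at h5
  have h6 := ae_of_ae_map (sec_aemeas lam hσ) h5
  filter_upwards [h6] with q hq
  have hg : ∀ {v : E}, (σ q, v) ∈ Dm dev → Geod dev (σ q) v := by
    rintro v ⟨y, hy⟩
    exact hy.geod
  rcases hq with h | h
  · left
    exact fun t => hg (h t)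
  · right
    intro K hK
    obtain ⟨a, b, ha, hb, h7⟩ := h K hK
    refine ⟨a, b, hg ha, hg hb, fun t y hy hyK => h7 t (Ex.mem hy) ?_⟩
    rw [Ph_eq D.loc hy]
    exact hyK

theorem lam_inv (D : AffData X Γ E dev hol) (γ : Γ) : lam.map (fun w => lin hol γ w) = lam := by
  have hdet := D.unimod γ
  have hdet0 : LinearMap.det ((hol γ).linear : E →ₗ[ℝ] E) ≠ 0 := by
    intro h
    rw [h] at hdet
    simp at hdet
  have h := Measure.map_linearMap_addHaar_eq_smul_addHaar lam hdet0
  rw [abs_inv, hdet, inv_one, ENNReal.ofReal_one, one_smul] at h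
  exact h

/-- vectors with locally finite orbit -/
theorem orbit_meas (v : E)
    (hv : ∀ R : ℝ, {u : E | ‖u‖ ≤ R ∧ ∃ γ : Γ, lin hol γ v = u}.Finite) :
    ∃ m : Measure E, IsLocallyFiniteMeasure m ∧ (∀ γ : Γ, m.map (fun w => lin hol γ w) = m) ∧
      m {v} ≠ 0 := by
  set O : Set E := {u | ∃ γ : Γ, lin hol γ v = u} with hO
  have hfin : ∀ R : ℝ, (closedBall (0 : E) R ∩ O).Finite := by
    intro R
    refine (hv R).subset ?_
    rintro u ⟨h1, h2⟩
    exact ⟨by simpa using h1, h2⟩
  have hOc : O.Countable := by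
    have h1 : O ⊆ ⋃ n : ℕ, closedBall (0 : E) n ∩ O := by
      intro u hu
      obtain ⟨n, hn⟩ := exists_nat_ge ‖u‖
      exact mem_iUnion.2 ⟨n, by simpa using hn, hu⟩
    exact (countable_iUnion fun n : ℕ => (hfin (n : ℝ)).countable).mono h1
  have hOm : MeasurableSet O := hOc.measurableSet
  have hL : ∀ γ : Γ, Measurable fun u : E => lin hol γ u := fun γ => (lin_cont γ).measurable
  have hinj : ∀ γ : Γ, Function.Injective fun u : E => lin hol γ u := by
    intro γ a b hab
    have := congrArg (lin hol γ⁻¹) hab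
    beta_reduce at this
    rwa [lin_inv_apply, lin_inv_apply] at this
  refine ⟨Measure.count.restrict O, ⟨fun u => ?_⟩, fun γ => ?_, ?_⟩
  · refine ⟨closedBall (0 : E) (‖u‖ + 1), ?_, ?_⟩
    · refine Filter.mem_of_superset (isOpen_ball.mem_nhds (x := u) (s := ball (0 : E) (‖u‖ + 1)) ?_)
        ball_subset_closedBall
      simp
    · rw [Measure.restrict_apply isClosed_closedBall.measurableSet]
      exact Measure.count_apply_lt_top.2 (hfin _)
  · ext S hS
    rw [Measure.map_apply (hL γ) hS, Measure.restrict_apply ((hL γ) hS), Measure.restrict_apply hS]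
    have h1 : (fun u => lin hol γ u) '' ((fun u => lin hol γ u) ⁻¹' S ∩ O) = S ∩ O := by
      ext u
      constructor
      · rintro ⟨u', ⟨h1, δ, rfl⟩, rfl⟩
        refine ⟨h1, γ * δ, ?_⟩
        rw [lin_mul]
      · rintro ⟨h1, δ, rfl⟩
        refine ⟨lin hol γ⁻¹ (lin hol δ v), ⟨?_, γ⁻¹ * δ, ?_⟩, ?_⟩
        · show lin hol γ (lin hol γ⁻¹ (lin hol δ v)) ∈ S
          rw [← lin_mul, mul_inv_cancel, lin_one]
          exact h1
        · rw [lin_mul]
        · beta_reduce
          rw [← lin_mul, mul_inv_cancel, lin_one]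
    rw [← h1, Measure.count_injective_image (hinj γ)]
  · rw [Measure.restrict_apply (measurableSet_singleton v)]
    have h1 : v ∈ O := ⟨1, lin_one v⟩
    rw [inter_eq_left.2 (singleton_subset_iff.2 h1), Measure.count_singleton]
    exact one_ne_zero

theorem ae_at_atom {m : Measure E} {v : E} (h : m {v} ≠ 0) {P : E → Prop} (hP : ∀ᵐ w ∂m, P w) :
    P v := by
  by_contra hne
  apply h
  refine measure_mono_null ?_ hP
  intro w hw
  rw [mem_singleton_iff.1 hw]
  exact hne

end

end Pool.Agent.FC640.MK
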