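import Pool.Agent.FC640.MK.Esc

set_option autoImplicit false

open Set Filter Topology Metric MeasureTheory
open scoped ENNReal

namespace Pool.Agent.FC640.MK

open Pool.Agent.W689.Mk

section
variable {X Γ E : Type} [TopologicalSpace X] [T2Space X] [SecondCountableTopology X] [Nonempty X]
  [MeasurableSpace X] [BorelSpace X] [Group Γ] [MulAction Γ X]
  [NormedAddCommGroup E] [NormedSpace ℝ E] [FiniteDimensional ℝ E] [MeasurableSpace E]
  [BorelSpace E] {dev : X → E} {hol : Γ →* (E ≃ᵃ[ℝ] E)} (lam : Measure E) [lam.IsAddHaarMeasure]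

/-- weighted integrals which are finite for all translates of the weight -/
theorem ae_fin_of_weight {m : Measure E} (hm : ∀ γ : Γ, m.map (lin hol γ) = m)
    (D : AffData X Γ E dev hol) {μ : Measure X} (hμ : ChartMeas dev lam μ)
    {G : X → ℝ≥0∞} (hG : Measurable G) (hG1 : ∀ x, ∑' γ : Γ, G (γ • x) = 1)
    {F : E → X → ℝ≥0∞} (hF : Measurable fun p : E × X => F p.1 p.2)
    (hFi : ∀ (γ : Γ) w x, F (lin hol γ w) (γ • x) = F w x)
    (hfin : ∫⁻ w, ∫⁻ x, G x * F w x ∂μ ∂m ≠ ⊤) : ∀ᵐ w ∂m, ∀ᵐ x ∂μ, F w x < ⊤ := by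
  haveI : IsLocallyFiniteMeasure μ := locFin lam D.loc hμ
  haveI : Countable Γ := countable_group D
  have h1 : ∀ γ : Γ, ∀ᵐ w ∂m, ∀ᵐ x ∂μ, G (γ • x) * F w x < ⊤ := by
    intro γ
    have hm2 : Measurable fun p : E × X => G (γ • p.2) * F p.1 p.2 :=
      Measurable.mul (hG.comp ((D.cont γ).measurable.comp measurable_snd)) hF
    have h2 := inv_pair lam (dirActLin hm) D hμ γ (F := fun w x => G x * F w x)
      (Measurable.mul (hG.comp measurable_snd) hF)
    simp only [hFi] at h2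
    rw [← h2] at hfin
    have h3 := ae_lt_top hm2.lintegral_prod_right' hfin
    filter_upwards [h3] with w hw
    have hm3 : Measurable fun x : X => G (γ • x) * F w x :=
      hm2.comp (measurable_const.prodMk measurable_id)
    exact ae_lt_top hm3 hw.ne
  have h2 : ∀ᵐ w ∂m, ∀ γ : Γ, ∀ᵐ x ∂μ, G (γ • x) * F w x < ⊤ := ae_all_iff.2 h1
  filter_upwards [h2] with w hw
  have h3 : ∀ᵐ x ∂μ, ∀ γ : Γ, G (γ • x) * F w x < ⊤ := ae_all_iff.2 hw
  filter_upwards [h3] with x hx
  have h4 : ∃ γ : Γ, G (γ • x) ≠ 0 := by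
    by_contra hne
    push Not at hne
    have h5 := hG1 x
    simp only [hne, tsum_zero] at h5
    exact zero_ne_one h5
  obtain ⟨γ, hγ⟩ := h4
  by_contra htop
  rw [not_lt, top_le_iff] at htop
  have h5 := hx γ
  rw [htop, ENNReal.mul_top hγ] at h5
  exact lt_irrefl _ h5

/-- the past time spent in a set of finite covolume is finite if the future is finite -/
theorem past_fin_aux {m : Measure E} [IsLocallyFiniteMeasure m]
    (hm : ∀ γ : Γ, m.map (lin hol γ) = m)
    (D : AffData X Γ E dev hol) {μ : Measure X} (hμ : ChartMeas dev lam μ)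
    {K : Set (X × E)} (hK : IsCompact K) (N : ℕ) :
    ∀ᵐ w ∂m, ∀ᵐ x ∂μ, (x, w) ∈ Sat hol K → bt dev (x, w) ≤ N →
      volume (Pst dev (Sat hol K) x w) < ⊤ := by
  classical
  haveI : IsLocallyFiniteMeasure μ := locFin lam D.loc hμ
  haveI : Countable Γ := countable_group D
  obtain ⟨G, hG, hG1, hGf⟩ := exists_weight lam D hμ
  have hKm : MeasurableSet K := hK.measurableSet
  set A : Set (X × E) := Sat hol K with hAdef
  have hA : MeasurableSet A := Sat_meas D hKm
  have hAi : ∀ (γ : Γ) x w, (γ • x, lin hol γ w) ∈ A ↔ (x, w) ∈ A := fun γ x w => Sat_smul K γ x w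
  have hcov : ∫⁻ w, ∫⁻ x, G x * A.indicator 1 (x, w) ∂μ ∂m ≠ (⊤ : ℝ≥0∞) :=
    Sat_covol lam hm D hμ hG hG1 hK hKm
  set B : Set (X × E) := A ∩ {p | bt dev p ≤ N} with hB
  have hBm : MeasurableSet B := hA.inter (measurableSet_le (bt_meas D.loc) measurable_const)
  have hBi : ∀ (γ : Γ) x w, (γ • x, lin hol γ w) ∈ B ↔ (x, w) ∈ B := by
    intro γ x w
    show ((γ • x, lin hol γ w) ∈ A ∧ bt dev (γ • x, lin hol γ w) ≤ N) ↔
      ((x, w) ∈ A ∧ bt dev (x, w) ≤ N)
    rw [hAi, bt_smul D]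
  let F : E → X → ℝ≥0∞ := fun w x => B.indicator 1 (x, w) * volume (Pst dev A x w)
  have hI : Measurable fun p : E × X => B.indicator (1 : X × E → ℝ≥0∞) (p.2, p.1) :=
    (measurable_one.indicator hBm).comp (measurable_snd.prodMk measurable_fst)
  have hv : ∀ x w, volume (Pst dev A x w) =
      ∫⁻ s : ℝ, (Pst dev A x w).indicator (1 : ℝ → ℝ≥0∞) s := fun x w =>
    (lintegral_indicator_one (Pst_meas D.loc hA x w)).symm
  have hV : Measurable fun p : E × X => volume (Pst dev A p.2 p.1) := by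
    simp only [hv]
    have h3 := Pst_meas3 D.loc hA
    have h4 : Measurable fun q : (E × X) × ℝ =>
        (Pst dev A q.1.2 q.1.1).indicator (1 : ℝ → ℝ≥0∞) q.2 :=
      h3.comp ((measurable_fst.comp measurable_fst).prodMk
        (measurable_snd.prodMk (measurable_snd.comp measurable_fst)))
    exact h4.lintegral_prod_right'
  have hF : Measurable fun p : E × X => F p.1 p.2 := Measurable.mul hI hV
  have hFi : ∀ (γ : Γ) w x, F (lin hol γ w) (γ • x) = F w x := by
    intro γ w x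
    show B.indicator 1 (γ • x, lin hol γ w) * volume (Pst dev A (γ • x) (lin hol γ w)) =
      B.indicator 1 (x, w) * volume (Pst dev A x w)
    rw [Pst_smul D hAi]
    congr 1
    by_cases h : (x, w) ∈ B
    · rw [indicator_of_mem h, indicator_of_mem ((hBi γ x w).2 h)]
      rfl
    · rw [indicator_of_notMem h, indicator_of_notMem fun h' => h ((hBi γ x w).1 h')]
  have key := mtp lam (dirActLin hm) D hμ hG hG1 (K := Ke dev A N) (Ke_meas D.loc hA N)
    (fun γ w s x => Ke_inv D hAi N γ w s x)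
  have hfin : ∫⁻ w, ∫⁻ x, G x * F w x ∂μ ∂m ≠ ⊤ := by
    have h1 : ∫⁻ w, ∫⁻ x, G x * F w x ∂μ ∂m ≤ ∫⁻ w, ∫⁻ x, G x * ∫⁻ s : ℝ,
        ind dev x (s • w) * Ke dev A N w (-s) (Ph dev x (s • w)) ∂volume ∂μ ∂m := by
      refine lintegral_mono fun w => lintegral_mono fun x => ?_
      show G x * (B.indicator 1 (x, w) * volume (Pst dev A x w)) ≤ G x * ∫⁻ s : ℝ,
        ind dev x (s • w) * Ke dev A N w (-s) (Ph dev x (s • w))
      refine mul_le_mul_right ?_ _
      by_cases h : (x, w) ∈ B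
      · rw [indicator_of_mem h, Pi.one_apply, one_mul, hv]
        exact lintegral_mono fun s => Ke_right D.loc A N h.1 h.2 s
      · rw [indicator_of_notMem h, zero_mul]
        exact bot_le
    have h2 : ∫⁻ w, ∫⁻ x, G x * ∫⁻ s : ℝ, ind dev x (s • w) * Ke dev A N w s x ∂volume ∂μ ∂m ≤
        ENNReal.ofReal (2 * N) * ∫⁻ w, ∫⁻ x, G x * A.indicator 1 (x, w) ∂μ ∂m := by
      rw [← lintegral_const_mul' _ _ ENNReal.ofReal_ne_top]
      refine lintegral_mono fun w => ?_
      show ∫⁻ x, G x * ∫⁻ s : ℝ, ind dev x (s • w) * Ke dev A N w s x ∂volume ∂μ ≤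
        ENNReal.ofReal (2 * N) * ∫⁻ x, G x * A.indicator 1 (x, w) ∂μ
      rw [← lintegral_const_mul' _ _ ENNReal.ofReal_ne_top]
      refine lintegral_mono fun x => ?_
      calc G x * ∫⁻ s : ℝ, ind dev x (s • w) * Ke dev A N w s x ∂volume
          ≤ G x * (ENNReal.ofReal (2 * N) * A.indicator 1 (x, w)) :=
            mul_le_mul_right (Ke_left D.loc A N w x) _
        _ = ENNReal.ofReal (2 * N) * (G x * A.indicator 1 (x, w)) := by ring
    refine ne_top_of_le_ne_top ?_ (h1.trans (key.symm.le.trans h2))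
    exact ENNReal.mul_ne_top ENNReal.ofReal_ne_top hcov
  have h1 := ae_fin_of_weight lam hm D hμ hG hG1 hF hFi hfin
  filter_upwards [h1] with w hw
  filter_upwards [hw] with x hx hxA hxN
  have h2 : B.indicator 1 (x, w) * volume (Pst dev A x w) < ⊤ := hx
  rw [indicator_of_mem (show (x, w) ∈ B from ⟨hxA, hxN⟩), Pi.one_apply, one_mul] at h2
  exact h2

omit [MeasurableSpace X] [BorelSpace X] [MeasurableSpace E] [BorelSpace E]
  [SecondCountableTopology X] [Nonempty X] in
theorem locallyCompact (D : AffData X Γ E dev hol) : LocallyCompactSpace X := by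
  haveI : WeaklyLocallyCompactSpace X := ⟨fun x => by
    obtain ⟨N, hN, hNc⟩ := exists_cpt_nhd D x
    exact ⟨N, hNc, hN⟩⟩
  infer_instance

/-- all compact sets at once -/
theorem past_fin {m : Measure E} [IsLocallyFiniteMeasure m]
    (hm : ∀ γ : Γ, m.map (lin hol γ) = m)
    (D : AffData X Γ E dev hol) {μ : Measure X} (hμ : ChartMeas dev lam μ) :
    ∀ᵐ w ∂m, ∀ᵐ x ∂μ, bt dev (x, w) < ⊤ → ∀ K : Set (X × E), IsCompact K →
      volume (Pst dev (Sat hol K) x w) < ⊤ := by
  haveI : LocallyCompactSpace X := locallyCompact D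
  let C : CompactExhaustion (X × E) := default
  have h1 : ∀ᵐ w ∂m, ∀ n N : ℕ, ∀ᵐ x ∂μ, (x, w) ∈ Sat hol (C n) → bt dev (x, w) ≤ N →
      volume (Pst dev (Sat hol (C n)) x w) < ⊤ :=
    ae_all_iff.2 fun n => ae_all_iff.2 fun N => past_fin_aux lam hm D hμ (C.isCompact n) N
  filter_upwards [h1] with w hw
  have h2 : ∀ᵐ x ∂μ, ∀ n N : ℕ, (x, w) ∈ Sat hol (C n) → bt dev (x, w) ≤ N →
      volume (Pst dev (Sat hol (C n)) x w) < ⊤ :=
    ae_all_iff.2 fun n => ae_all_iff.2 fun N => hw n N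
  filter_upwards [h2] with x hx hfin K hK
  obtain ⟨n, hn⟩ := C.exists_superset_of_isCompact (hK.insert (x, w))
  obtain ⟨N, hN⟩ := ENNReal.exists_nat_gt hfin.ne
  have h3 := hx n N (subset_Sat _ (hn (mem_insert _ _))) hN.le
  refine lt_of_le_of_lt (measure_mono ?_) h3
  rintro s ⟨g1, g2, g3⟩
  exact ⟨g1, g2, Sat_mono ((subset_insert _ _).trans hn) g3⟩

end

end Pool.Agent.FC640.MK
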