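import Pool.Agent.W689.Mk.Tube
import Pool.Agent.W689.Mk.Meas

set_option autoImplicit false

open Set Filter Topology Metric MeasureTheory
open scoped ENNReal

namespace Pool.Agent.FC640.MK

open Pool.Agent.W689.Mk

section
variable {X E : Type} [TopologicalSpace X] [T2Space X] [NormedAddCommGroup E] [NormedSpace ℝ E]
  {dev : X → E}

/-- domain of the exponential map -/
def Dm (dev : X → E) : Set (X × E) := {p | ∃ y, Ex dev p.1 p.2 y}

open Classical in
/-- the exponential map (junk value outside of its domain) -/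
noncomputable def Ph (dev : X → E) (x : X) (w : E) : X :=
  if h : ∃ y, Ex dev x w y then h.choose else x

theorem Ph_spec {x : X} {w : E} (h : (x, w) ∈ Dm dev) : Ex dev x w (Ph dev x w) := by
  have h' : ∃ y, Ex dev x w y := h
  unfold Ph
  rw [dif_pos h']
  exact h'.choose_spec

theorem Ph_eq (hloc : IsLocalHomeomorph dev) {x : X} {w : E} {y : X} (h : Ex dev x w y) :
    Ph dev x w = y := (Ph_spec (x := x) (w := w) ⟨y, h⟩).unique hloc h

theorem Ex.mem {x : X} {w : E} {y : X} (h : Ex dev x w y) : (x, w) ∈ Dm dev := ⟨y, h⟩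

/-- a neighbourhood on which the exponential map is given by a section -/
theorem Ex_nhd (hloc : IsLocalHomeomorph dev) {x : X} {w : E} {y : X} (h : Ex dev x w y) :
    ∃ (U : Set E) (σ : E → X), Sec dev U σ ∧ dev x ∈ U ∧ dev x + w ∈ U ∧ σ (dev x) = x ∧
      ∀ᶠ p : X × E in 𝓝 (x, w), Ex dev p.1 p.2 (σ (dev p.1 + p.2)) := by
  obtain ⟨U, σ, h1, h2, h3, h4, h5⟩ := h
  refine ⟨U, σ, h1, h2, h4, h3, ?_⟩
  have hW : IsOpen (σ '' U) := h1.isOpen_image hloc h1.isOpen Subset.rfl
  have e1 : ∀ᶠ p : X × E in 𝓝 (x, w), p.1 ∈ σ '' U := by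
    have : Tendsto (fun p : X × E => p.1) (𝓝 (x, w)) (𝓝 x) := continuous_fst.tendsto _
    exact this (hW.mem_nhds ⟨dev x, h2, h3⟩)
  have e2 : ∀ᶠ p : X × E in 𝓝 (x, w), dev p.1 + p.2 ∈ U := by
    have : Continuous fun p : X × E => dev p.1 + p.2 :=
      (hloc.continuous.comp continuous_fst).add continuous_snd
    exact this.tendsto (x, w) (h1.isOpen.mem_nhds h4)
  filter_upwards [e1, e2] with p hp1 hp2
  obtain ⟨q, hq, hqp⟩ := hp1
  have h6 : dev p.1 = q := by rw [← hqp]; exact h1.inv q hq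
  exact ⟨U, σ, h1, by rw [h6]; exact hq, by rw [h6]; exact hqp, hp2, rfl⟩

theorem isOpen_Dm (hloc : IsLocalHomeomorph dev) : IsOpen (Dm dev) := by
  rw [isOpen_iff_mem_nhds]
  rintro ⟨x, w⟩ ⟨y, hy⟩
  obtain ⟨U, σ, h1, h2, h3, h4, h5⟩ := Ex_nhd hloc hy
  filter_upwards [h5] with p hp
  exact ⟨_, hp⟩

theorem Ph_contAt (hloc : IsLocalHomeomorph dev) {p : X × E} (hp : p ∈ Dm dev) :
    ContinuousAt (fun p : X × E => Ph dev p.1 p.2) p := by
  obtain ⟨x, w⟩ := p
  obtain ⟨y, hy⟩ := hp
  obtain ⟨U, σ, h1, h2, h3, h4, h5⟩ := Ex_nhd hloc hy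
  have h6 : ContinuousAt (fun p : X × E => σ (dev p.1 + p.2)) (x, w) := by
    have h7 : ContinuousAt σ (dev x + w) := (h1.cont _ h3).continuousAt (h1.isOpen.mem_nhds h3)
    have h8 : Continuous fun p : X × E => dev p.1 + p.2 :=
      (hloc.continuous.comp continuous_fst).add continuous_snd
    exact ContinuousAt.comp (f := fun p : X × E => dev p.1 + p.2) (g := σ) (x := (x, w)) h7
      h8.continuousAt
  refine h6.congr ?_
  filter_upwards [h5] with p hp
  exact (Ph_eq hloc hp).symm

theorem Ph_measurable [SecondCountableTopology X] [MeasurableSpace X] [BorelSpace X]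
    [MeasurableSpace E] [BorelSpace E] [SecondCountableTopology E]
    (hloc : IsLocalHomeomorph dev) : Measurable (fun p : X × E => Ph dev p.1 p.2) := by
  classical
  have h1 : MeasurableSet (Dm dev) := (isOpen_Dm hloc).measurableSet
  have h2 : (fun p : X × E => Ph dev p.1 p.2) =
      (Dm dev).piecewise (fun p : X × E => Ph dev p.1 p.2) Prod.fst := by
    funext p
    by_cases hp : p ∈ Dm dev
    · rw [Set.piecewise_eq_of_mem _ _ _ hp]
    · rw [Set.piecewise_eq_of_notMem _ _ _ hp]
      unfold Ph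
      exact dif_neg hp
  have h3 : ContinuousOn (fun p : X × E => Ph dev p.1 p.2) (Dm dev) := fun p hp =>
    (Ph_contAt hloc hp).continuousWithinAt
  rw [h2]
  exact h3.measurable_piecewise continuousOn_fst h1

theorem Dm_zero (hloc : IsLocalHomeomorph dev) (x : X) : Ex dev x 0 x := by
  obtain ⟨e, r, hx, he, hr, hrt⟩ := exists_sec hloc x
  refine ⟨ball (dev x) r, e.symm, sec_of_target e he _ _ hrt, mem_ball_self hr, ?_, ?_, ?_⟩
  · rw [he]; exact e.left_inv hx
  · rw [add_zero]; exact mem_ball_self hr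
  · rw [add_zero, he]; exact e.left_inv hx

/-- shorter geodesics -/
theorem Ex.scale {x : X} {w : E} {y : X} (h : Ex dev x w y) {θ : ℝ} (h0 : 0 ≤ θ) (h1 : θ ≤ 1) :
    (x, θ • w) ∈ Dm dev := by
  obtain ⟨U, σ, g1, g2, g3, g4, g5⟩ := h
  have : dev x + θ • w ∈ U := by
    have := g1.convex g2 g4 (a := 1 - θ) (b := θ) (by linarith) h0 (by ring)
    convert this using 1
    rw [smul_add, ← add_assoc, ← add_smul]
    simp
  exact ⟨σ (dev x + θ • w), U, σ, g1, g2, g3, this, rfl⟩

theorem mem_segment_line {p u : E} {s t r : ℝ} (h : r ∈ segment ℝ s t) :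
    p + r • u ∈ segment ℝ (p + s • u) (p + t • u) := by
  obtain ⟨a, b, ha, hb, hab, rfl⟩ := h
  refine ⟨a, b, ha, hb, hab, ?_⟩
  rw [smul_add, smul_add, smul_smul, smul_smul]
  have : a • p + b • p = p := by rw [← add_smul, hab, one_smul]
  calc a • p + (a * s) • u + (b • p + (b * t) • u) = (a • p + b • p) + ((a * s) • u + (b * t) • u) := by
        abel
    _ = p + (a • s + b • t) • u := by rw [this, ← add_smul]; rfl

/-- collinear concatenation -/
theorem Ex.concat (hloc : IsLocalHomeomorph dev) {x y z : X} {u : E} {s t : ℝ}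
    (h : Ex dev x (s • u) y) (h' : Ex dev y (t • u) z) : Ex dev x ((s + t) • u) z := by
  have hdy := h.dev_eq
  obtain ⟨U, σ, g1, g2, g3, g4, g5⟩ := h
  obtain ⟨U', σ', k1, k2, k3, k4, k5⟩ := h'
  rw [hdy] at k2 k3 k4 k5
  set p := dev x with hp
  have hseg : segment ℝ p (p + (s + t) • u) ⊆ U ∪ U' := by
    have e0 : p = p + (0 : ℝ) • u := by rw [zero_smul, add_zero]
    intro q hq
    obtain ⟨a, b, ha, hb, hab, rfl⟩ := hq
    have e1 : a • p + b • (p + (s + t) • u) = p + (b * (s + t)) • u := by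
      rw [smul_add, smul_smul, ← add_assoc, ← add_smul, hab, one_smul]
    rw [e1]
    have hr : b * (s + t) ∈ segment ℝ 0 s ∪ segment ℝ s (s + t) := by
      rw [segment_eq_uIcc, segment_eq_uIcc]
      have hb1 : b ≤ 1 := by linarith
      have : b * (s + t) ∈ uIcc 0 (s + t) := by
        rw [mem_uIcc]
        rcases le_total 0 (s + t) with h | h
        · left; exact ⟨mul_nonneg hb h, by nlinarith⟩
        · right; exact ⟨by nlinarith, by nlinarith⟩
      exact uIcc_subset_uIcc_union_uIcc this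
    rcases hr with hr | hr
    · left
      have h1 := mem_segment_line (p := p) (u := u) hr
      rw [zero_smul, add_zero] at h1
      exact g1.convex.segment_subset g2 g4 h1
    · right
      have h1 := mem_segment_line (p := p) (u := u) hr
      have h2 : p + (s + t) • u = p + s • u + t • u := by rw [add_smul, add_assoc]
      rw [h2] at h1
      exact k1.convex.segment_subset k2 k4 h1
  have hcomp : IsCompact (segment ℝ p (p + (s + t) • u)) := by
    rw [segment_eq_image_lineMap]
    exact isCompact_Icc.image AffineMap.lineMap_continuous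
  obtain ⟨ε, hε, hεs⟩ := hcomp.exists_thickening_subset_open (g1.isOpen.union k1.isOpen) hseg
  obtain ⟨τ, hτ, hτ1, hτ2⟩ := g1.glue hloc k1 g4 k2 (g5.trans k3.symm)
    (V := Metric.thickening ε (segment ℝ p (p + (s + t) • u))) Metric.isOpen_thickening
    ((convex_segment _ _).thickening ε) hεs
  have hsub := Metric.self_subset_thickening hε (segment ℝ p (p + (s + t) • u))
  have e3 : p + (s + t) • u = p + s • u + t • u := by rw [add_smul, add_assoc]
  refine ⟨_, τ, hτ, hsub (left_mem_segment ℝ _ _), ?_, hsub (right_mem_segment ℝ _ _), ?_⟩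
  · rw [← hp, hτ1 p g2]; exact g3
  · rw [← hp, e3, hτ2 _ k4]; exact k5

end

end Pool.Agent.FC640.MK
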