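import Pool.Agent.FC640.MK.Phi

set_option autoImplicit false

open Set Filter Topology Metric MeasureTheory
open scoped ENNReal

namespace Pool.Agent.FC640.MK

open Pool.Agent.W689.Mk

section
variable {X E : Type} [TopologicalSpace X] [T2Space X] [SecondCountableTopology X]
  [MeasurableSpace X] [BorelSpace X]
  [NormedAddCommGroup E] [NormedSpace ℝ E] [FiniteDimensional ℝ E] [MeasurableSpace E]
  [BorelSpace E] {dev : X → E} (lam : Measure E) [lam.IsAddHaarMeasure]

/-- slice of the domain -/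
def Sl (dev : X → E) (w : E) : Set X := {x | (x, w) ∈ Dm dev}

omit [SecondCountableTopology X] [MeasurableSpace X] [BorelSpace X] [FiniteDimensional ℝ E]
  [MeasurableSpace E] [BorelSpace E] in
theorem isOpen_Sl (hloc : IsLocalHomeomorph dev) (w : E) : IsOpen (Sl dev w) :=
  (isOpen_Dm hloc).preimage (continuous_id.prodMk continuous_const)

/-- one chart -/
theorem trans_chart (hloc : IsLocalHomeomorph dev) {μ : Measure X} (hμ : ChartMeas dev lam μ)
    {U : Set E} {σ : E → X} (h : Sec dev U σ) (w : E) {F G : X → ℝ≥0∞} (hF : Measurable F)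
    (hG : Measurable G) :
    ∫⁻ x in σ '' (U ∩ (fun q => q + w) ⁻¹' U), G x * F (Ph dev x w) ∂μ =
      ∫⁻ y in σ '' (U ∩ (fun q => q + -w) ⁻¹' U), G (Ph dev y (-w)) * F y ∂μ := by
  have hV : ∀ w : E, Sec dev (U ∩ (fun q => q + w) ⁻¹' U) σ := fun w =>
    h.mono (h.isOpen.inter (h.isOpen.preimage (continuous_id.add continuous_const)))
      (h.convex.inter (h.convex.translate_preimage_left w)) inter_subset_left
  have hP : Measurable fun p : X × E => Ph dev p.1 p.2 := Ph_measurable hloc
  have hPw : ∀ w : E, Measurable fun x : X => Ph dev x w := fun w =>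
    hP.comp (measurable_id.prodMk measurable_const)
  have m1 : Measurable fun x => G x * F (Ph dev x w) := hG.mul (hF.comp (hPw w))
  have m2 : Measurable fun y => G (Ph dev y (-w)) * F y := (hG.comp (hPw (-w))).mul hF
  rw [hμ.lintegral lam (hV w) m1, hμ.lintegral lam (hV (-w)) m2]
  have hm : ∀ w : E, MeasurableSet (U ∩ (fun q => q + w) ⁻¹' U) := fun w => (hV w).isOpen.measurableSet
  have e1 : ∀ w : E, ∀ q ∈ U ∩ (fun q => q + w) ⁻¹' U, Ph dev (σ q) w = σ (q + w) := by
    rintro w q ⟨h1, h2⟩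
    exact Ph_eq hloc (h.Ex h1 h2)
  rw [setLIntegral_congr_fun (hm w) (fun q hq => by rw [e1 w q hq]),
    setLIntegral_congr_fun (hm (-w)) (fun q hq => by rw [e1 (-w) q hq])]
  rw [← lintegral_indicator (hm w), ← lintegral_indicator (hm (-w))]
  symm
  rw [← lintegral_add_right_eq_self _ w]
  refine lintegral_congr fun q => ?_
  by_cases hq : q ∈ U ∩ (fun q => q + w) ⁻¹' U
  · have hq' : q + w ∈ U ∩ (fun q => q + -w) ⁻¹' U := by
      refine ⟨hq.2, ?_⟩
      show q + w + -w ∈ U
      rw [add_neg_cancel_right]; exact hq.1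
    rw [indicator_of_mem hq, indicator_of_mem hq', add_neg_cancel_right]
  · have hq' : q + w ∉ U ∩ (fun q => q + -w) ⁻¹' U := by
      rintro ⟨h1, h2⟩
      have h2' : q + w + -w ∈ U := h2
      rw [add_neg_cancel_right] at h2'
      exact hq ⟨h2', h1⟩
    rw [indicator_of_notMem hq, indicator_of_notMem hq']

omit [FiniteDimensional ℝ E] [MeasurableSpace E] [BorelSpace E] [MeasurableSpace X]
  [BorelSpace X] in
/-- countable cover of the slice -/
theorem exists_cover_Sl [Nonempty X] (hloc : IsLocalHomeomorph dev) (w : E) :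
    ∃ (U : ℕ → Set E) (σ : ℕ → E → X), (∀ i, Sec dev (U i) (σ i)) ∧
      Sl dev w = ⋃ i, σ i '' (U i ∩ (fun q => q + w) ⁻¹' (U i)) := by
  classical
  have hV : ∀ {U : Set E} {σ : E → X}, Sec dev U σ → IsOpen (σ '' (U ∩ (fun q => q + w) ⁻¹' U)) :=
    fun h => h.isOpen_image hloc
      (h.isOpen.inter (h.isOpen.preimage (continuous_id.add continuous_const))) inter_subset_left
  have h : ∀ x : X, ∃ (U : Set E) (σ : E → X), Sec dev U σ ∧
      (x ∈ Sl dev w → x ∈ σ '' (U ∩ (fun q => q + w) ⁻¹' U)) := by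
    intro x
    by_cases hx : x ∈ Sl dev w
    · obtain ⟨y, U, σ, h1, h2, h3, h4, h5⟩ := hx
      exact ⟨U, σ, h1, fun _ => ⟨dev x, ⟨h2, h4⟩, h3⟩⟩
    · exact ⟨∅, fun _ => x, ⟨isOpen_empty, convex_empty, continuousOn_empty _, fun p hp => hp.elim⟩,
        fun h => absurd h hx⟩
  choose U σ hs hx using h
  obtain ⟨T, hT, hTU⟩ := TopologicalSpace.isOpen_iUnion_countable
    (fun x => σ x '' (U x ∩ (fun q => q + w) ⁻¹' (U x))) (fun x => hV (hs x))
  obtain ⟨x0⟩ := (inferInstance : Nonempty X)
  have hT' : (insert x0 T).Countable := hT.insert x0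
  obtain ⟨g, hg⟩ := hT'.exists_eq_range (insert_nonempty x0 T)
  refine ⟨fun i => U (g i), fun i => σ (g i), fun i => hs _, ?_⟩
  ext x
  constructor
  · intro h
    have h1 : x ∈ ⋃ i, σ i '' (U i ∩ (fun q => q + w) ⁻¹' (U i)) := mem_iUnion.2 ⟨x, hx x h⟩
    rw [← hTU] at h1
    obtain ⟨y, hy, hxy⟩ := mem_iUnion₂.1 h1
    have : y ∈ range g := by rw [← hg]; exact mem_insert_of_mem _ hy
    obtain ⟨i, rfl⟩ := this
    exact mem_iUnion.2 ⟨i, hxy⟩
  · intro h
    obtain ⟨i, q, ⟨hq1, hq2⟩, rfl⟩ := mem_iUnion.1 h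
    exact ⟨_, (hs (g i)).Ex hq1 hq2⟩

/-- the translation flow preserves the measure -/
theorem trans_lintegral [Nonempty X] (hloc : IsLocalHomeomorph dev) {μ : Measure X}
    (hμ : ChartMeas dev lam μ) (w : E) {F G : X → ℝ≥0∞} (hF : Measurable F) (hG : Measurable G) :
    ∫⁻ x in Sl dev w, G x * F (Ph dev x w) ∂μ =
      ∫⁻ y in Sl dev (-w), G (Ph dev y (-w)) * F y ∂μ := by
  classical
  obtain ⟨U, σ, hs, hc⟩ := exists_cover_Sl hloc w
  have hP : Measurable fun p : X × E => Ph dev p.1 p.2 := Ph_measurable hloc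
  have hPw : ∀ w : E, Measurable fun x : X => Ph dev x w := fun w =>
    hP.comp (measurable_id.prodMk measurable_const)
  set O : ℕ → Set X := fun i => σ i '' (U i ∩ (fun q => q + w) ⁻¹' (U i)) with hO
  set O' : ℕ → Set X := fun i => σ i '' (U i ∩ (fun q => q + -w) ⁻¹' (U i)) with hO'
  have hOo : ∀ i, IsOpen (O i) := fun i => (hs i).isOpen_image hloc
      ((hs i).isOpen.inter ((hs i).isOpen.preimage (continuous_id.add continuous_const)))
      inter_subset_left
  have hO'o : ∀ i, IsOpen (O' i) := fun i => (hs i).isOpen_image hloc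
      ((hs i).isOpen.inter ((hs i).isOpen.preimage (continuous_id.add continuous_const)))
      inter_subset_left
  set B : ℕ → Set X := disjointed O with hB
  have hBm : ∀ i, MeasurableSet (B i) :=
    fun i => MeasurableSet.disjointed (fun j => (hOo j).measurableSet) i
  have hBs : ∀ i, B i ⊆ O i := fun i => disjointed_subset _ i
  have hBd : Pairwise (Function.onFun Disjoint B) := disjoint_disjointed _
  have hBU : ⋃ i, B i = Sl dev w := by rw [iUnion_disjointed, hc]
  -- images
  set B' : ℕ → Set X := fun i => O' i ∩ {y | Ph dev y (-w) ∈ B i} with hB'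
  have hB'm : ∀ i, MeasurableSet (B' i) := fun i =>
    (hO'o i).measurableSet.inter (hPw (-w) (hBm i))
  have hback : ∀ {x y : X}, Ex dev x w y → Ph dev y (-w) = x := fun h => Ph_eq hloc h.symm
  have hB'U : ⋃ i, B' i = Sl dev (-w) := by
    ext y
    constructor
    · intro h
      obtain ⟨i, ⟨q, ⟨h1, h2⟩, rfl⟩, _⟩ := mem_iUnion.1 h
      exact ⟨_, (hs i).Ex h1 h2⟩
    · rintro ⟨x, hx⟩
      have h1 : Ex dev x w y := by simpa using hx.symm
      have h2 : x ∈ Sl dev w := ⟨y, h1⟩
      rw [← hBU] at h2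
      obtain ⟨i, hi⟩ := mem_iUnion.1 h2
      refine mem_iUnion.2 ⟨i, ?_, ?_⟩
      · obtain ⟨q, ⟨hq1, hq2⟩, hqx⟩ := hBs i hi
        refine ⟨q + w, ⟨hq2, ?_⟩, ?_⟩
        · show q + w + -w ∈ U i
          rw [add_neg_cancel_right]; exact hq1
        · have h3 := (hs i).Ex hq1 hq2
          rw [hqx] at h3
          exact h3.unique hloc h1
      · show Ph dev y (-w) ∈ B i
        rw [hback h1]; exact hi
  have hB'd : Pairwise (Function.onFun Disjoint B') := by
    intro i j hij
    refine Set.disjoint_left.2 fun y hy hy' => ?_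
    exact Set.disjoint_left.1 (hBd hij) hy.2 hy'.2
  rw [← hBU, ← hB'U, lintegral_iUnion hBm hBd, lintegral_iUnion hB'm hB'd]
  congr 1
  funext i
  have key := trans_chart lam hloc hμ (hs i) w (G := (B i).indicator G) hF (hG.indicator (hBm i))
  have e1 : ∫⁻ x in O i, (B i).indicator G x * F (Ph dev x w) ∂μ =
      ∫⁻ x in B i, G x * F (Ph dev x w) ∂μ := by
    have : (fun x => (B i).indicator G x * F (Ph dev x w)) =
        (B i).indicator (fun x => G x * F (Ph dev x w)) := by
      funext x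
      by_cases hx : x ∈ B i
      · rw [indicator_of_mem hx, indicator_of_mem hx]
      · rw [indicator_of_notMem hx, indicator_of_notMem hx, zero_mul]
    rw [this, lintegral_indicator (hBm i), Measure.restrict_restrict (hBm i),
      inter_eq_left.2 (hBs i)]
  have e2 : ∫⁻ y in O' i, (B i).indicator G (Ph dev y (-w)) * F y ∂μ =
      ∫⁻ y in B' i, G (Ph dev y (-w)) * F y ∂μ := by
    have hm2 : MeasurableSet {y | Ph dev y (-w) ∈ B i} := hPw (-w) (hBm i)
    have : (fun y => (B i).indicator G (Ph dev y (-w)) * F y) =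
        {y | Ph dev y (-w) ∈ B i}.indicator (fun y => G (Ph dev y (-w)) * F y) := by
      funext x
      by_cases hx : Ph dev x (-w) ∈ B i
      · rw [indicator_of_mem hx, indicator_of_mem (show x ∈ {y | Ph dev y (-w) ∈ B i} from hx)]
      · rw [indicator_of_notMem hx,
          indicator_of_notMem (show x ∉ {y | Ph dev y (-w) ∈ B i} from hx), zero_mul]
    rw [this, lintegral_indicator hm2, Measure.restrict_restrict hm2, inter_comm]
  rw [← e1, ← e2]
  exact key

end

end Pool.Agent.FC640.MK
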