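import Pool.Agent.FC640.MK.One

set_option autoImplicit false

open Set Filter Topology Metric MeasureTheory
open scoped ENNReal

namespace Pool.Agent.FC640.MK

open Pool.Agent.W689.Mk

section
variable {X E : Type} [TopologicalSpace X] [T2Space X] [NormedAddCommGroup E] [NormedSpace ℝ E]
  {dev : X → E}

theorem bt_of {x : X} {u : E} {β : ℝ} (hβ : 0 < β)
    (h : ∀ s : ℝ, 0 ≤ s → ((x, s • u) ∈ Dm dev ↔ s < β)) : bt dev (x, u) = ENNReal.ofReal β := by
  refine le_antisymm ?_ ?_
  · refine iSup_le fun s => iSup_le fun hs => ?_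
    rcases le_total 0 s with h0 | h0
    · exact ENNReal.ofReal_le_ofReal ((h s h0).1 hs).le
    · rw [ENNReal.ofReal_of_nonpos h0]; exact bot_le
  · refine le_of_forall_lt fun c hc => ?_
    have hc' : c.toReal < β := (ENNReal.lt_ofReal_iff_toReal_lt (ne_top_of_lt hc)).1 hc
    obtain ⟨t, ht1, ht2⟩ := exists_between hc'
    refine lt_bt.2 ⟨t, (h t (ENNReal.toReal_nonneg.trans ht1.le)).2 ht2, ?_⟩
    exact (ENNReal.lt_ofReal_iff_toReal_lt (ne_top_of_lt hc)).2 ht1

/-- incomplete on both sides -/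
def W2 (dev : X → E) : Set (X × E) := {p | bt dev p < ⊤ ∧ bt dev (p.1, -p.2) < ⊤}

/-- future time -/
noncomputable def fu (dev : X → E) (x : X) (u : E) : ℝ := (bt dev (x, u)).toReal

/-- past time -/
noncomputable def pa (dev : X → E) (x : X) (u : E) : ℝ := (bt dev (x, -u)).toReal

theorem fu_pos (hloc : IsLocalHomeomorph dev) {x : X} {u : E} (h : (x, u) ∈ W2 dev) :
    0 < fu dev x u := ENNReal.toReal_pos (bt_pos hloc _).ne' h.1.ne

theorem pa_pos (hloc : IsLocalHomeomorph dev) {x : X} {u : E} (h : (x, u) ∈ W2 dev) :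
    0 < pa dev x u := ENNReal.toReal_pos (bt_pos hloc _).ne' h.2.ne

theorem W2_mem (hloc : IsLocalHomeomorph dev) {x : X} {u : E} (h : (x, u) ∈ W2 dev) (s : ℝ) :
    (x, s • u) ∈ Dm dev ↔ -pa dev x u < s ∧ s < fu dev x u := by
  have hf := fu_pos hloc h
  have hp := pa_pos hloc h
  rcases le_total 0 s with hs | hs
  · rw [mem_iff_lt_bt hloc hs, ENNReal.ofReal_lt_iff_lt_toReal hs h.1.ne]
    exact ⟨fun h => ⟨by linarith, h⟩, fun h => h.2⟩
  · have h1 : (-s) • -u = s • u := by rw [smul_neg, neg_smul, neg_neg]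
    have h0 : 0 ≤ -s := by linarith
    have h2 := mem_iff_lt_bt hloc (x := x) (u := -u) h0
    rw [h1] at h2
    have h3 : bt dev (x, -u) ≠ ⊤ := h.2.ne
    rw [h2, ENNReal.ofReal_lt_iff_lt_toReal h0 h3]
    show -s < pa dev x u ↔ _
    constructor
    · intro h; constructor <;> linarith
    · intro h; linarith [h.1]

theorem W2_of {x : X} {u : E} {α β : ℝ} (hα : 0 < α) (hβ : 0 < β)
    (h : ∀ s : ℝ, (x, s • u) ∈ Dm dev ↔ -α < s ∧ s < β) :
    (x, u) ∈ W2 dev ∧ fu dev x u = β ∧ pa dev x u = α := by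
  have h1 : bt dev (x, u) = ENNReal.ofReal β := bt_of hβ fun s hs => by
    rw [h]
    exact ⟨fun h => h.2, fun h => ⟨by linarith, h⟩⟩
  have h2 : bt dev (x, -u) = ENNReal.ofReal α := bt_of hα fun s hs => by
    have h3 : s • -u = (-s) • u := by rw [smul_neg, neg_smul]
    rw [h3, h]
    constructor
    · intro h; linarith [h.1]
    · intro h; constructor <;> linarith
  refine ⟨⟨by rw [h1]; exact ENNReal.ofReal_lt_top, ?_⟩, ?_, ?_⟩
  · show bt dev (x, -u) < ⊤
    rw [h2]; exact ENNReal.ofReal_lt_top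
  · unfold fu
    rw [h1, ENNReal.toReal_ofReal hβ.le]
  · unfold pa
    rw [h2, ENNReal.toReal_ofReal hα.le]

theorem W2_shift (hloc : IsLocalHomeomorph dev) {x : X} {u : E} {s : ℝ}
    (hs : (x, s • u) ∈ Dm dev) (h : (x, u) ∈ W2 dev) :
    (Ph dev x (s • u), u) ∈ W2 dev ∧ fu dev (Ph dev x (s • u)) u = fu dev x u - s ∧
      pa dev (Ph dev x (s • u)) u = pa dev x u + s := by
  have h1 := W2_mem hloc h
  have h2 := (h1 s).1 hs
  refine W2_of (by linarith [h2.1]) (by linarith [h2.2]) fun t => ?_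
  rw [Dm_shift hloc hs, h1]
  constructor <;> intro h <;> constructor <;> linarith [h.1, h.2]

theorem W2_shift_iff (hloc : IsLocalHomeomorph dev) {x : X} {u : E} {s : ℝ}
    (hs : (x, s • u) ∈ Dm dev) :
    (Ph dev x (s • u), u) ∈ W2 dev ↔ (x, u) ∈ W2 dev := by
  refine ⟨fun h => ?_, fun h => (W2_shift hloc hs h).1⟩
  have h1 := Ph_spec hs
  have h2 := h1.symm
  rw [← neg_smul] at h2
  have h3 := (W2_shift hloc (Ex.mem h2) h).1
  rwa [Ph_eq hloc h2] at h3

open Classical in
/-- kernel for the non-integrability -/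
noncomputable def Kq (dev : X → E) (u : E) (s : ℝ) (x : X) : ℝ≥0∞ :=
  if (x, u) ∈ W2 dev then ENNReal.ofReal (pa dev x u + s)⁻¹ else 0

open Classical in
/-- kernel for the uniform law -/
noncomputable def Ku (dev : X → E) (B : Set ℝ) (u : E) (s : ℝ) (x : X) : ℝ≥0∞ :=
  if (x, u) ∈ W2 dev ∧ (pa dev x u + s) / (pa dev x u + fu dev x u) ∈ B then
    ENNReal.ofReal (pa dev x u + fu dev x u)⁻¹ else 0

theorem lint_inv {L : ℝ} (hL : 0 < L) : ∫⁻ r in Ioo (0 : ℝ) L, ENNReal.ofReal r⁻¹ = ⊤ := by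
  by_contra hne
  have h1 : ¬ IntervalIntegrable (fun x : ℝ => x⁻¹) volume 0 L := by
    rw [intervalIntegrable_inv_iff]
    push Not
    exact ⟨hL.ne, left_mem_uIcc⟩
  apply h1
  rw [intervalIntegrable_iff_integrableOn_Ioo_of_le hL.le]
  refine ⟨measurable_inv.aestronglyMeasurable, ?_⟩
  rw [hasFiniteIntegral_iff_ofReal]
  · exact lt_top_iff_ne_top.2 hne
  · rw [EventuallyLE, ae_restrict_iff' measurableSet_Ioo]
    exact Eventually.of_forall fun r hr => inv_nonneg.2 hr.1.le

theorem Kq_left (hloc : IsLocalHomeomorph dev) (u : E) (x : X) :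
    ∫⁻ s : ℝ, ind dev x (s • u) * Kq dev u s x = (W2 dev).indicator (fun _ => ⊤) (x, u) := by
  by_cases h : (x, u) ∈ W2 dev
  · have hf := fu_pos hloc h
    have hp := pa_pos hloc h
    rw [indicator_of_mem h]
    have e1 : ∀ s : ℝ, ind dev x (s • u) * Kq dev u s x =
        (Ioo (0 : ℝ) (pa dev x u + fu dev x u)).indicator (fun r => ENNReal.ofReal r⁻¹)
          (pa dev x u + s) := by
      intro s
      unfold Kq
      rw [if_pos h]
      by_cases hs : (x, s • u) ∈ Dm dev
      · have h2 := (W2_mem hloc h s).1 hs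
        rw [ind_of hs, one_mul, indicator_of_mem (show pa dev x u + s ∈ Ioo (0 : ℝ)
          (pa dev x u + fu dev x u) from ⟨by linarith [h2.1], by linarith [h2.2]⟩)]
      · rw [ind_not hs, zero_mul, indicator_of_notMem]
        rintro ⟨g1, g2⟩
        exact hs ((W2_mem hloc h s).2 ⟨by linarith, by linarith⟩)
    simp only [e1]
    rw [lintegral_add_left_eq_self (fun r => (Ioo (0 : ℝ) (pa dev x u + fu dev x u)).indicator
      (fun r => ENNReal.ofReal r⁻¹) r) (pa dev x u), lintegral_indicator measurableSet_Ioo]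
    exact lint_inv (by linarith)
  · rw [indicator_of_notMem h]
    unfold Kq
    simp only [if_neg h, mul_zero, lintegral_zero]

theorem Kq_right (hloc : IsLocalHomeomorph dev) (u : E) (x : X) :
    ∫⁻ s : ℝ, ind dev x (s • u) * Kq dev u (-s) (Ph dev x (s • u)) =
      (W2 dev).indicator (fun _ => ENNReal.ofReal ((pa dev x u)⁻¹ * (pa dev x u + fu dev x u)))
        (x, u) := by
  by_cases h : (x, u) ∈ W2 dev
  · have hf := fu_pos hloc h
    have hp := pa_pos hloc h
    rw [indicator_of_mem h]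
    have e1 : ∀ s : ℝ, ind dev x (s • u) * Kq dev u (-s) (Ph dev x (s • u)) =
        (Ioo (-pa dev x u) (fu dev x u)).indicator (fun _ => ENNReal.ofReal (pa dev x u)⁻¹) s := by
      intro s
      by_cases hs : (x, s • u) ∈ Dm dev
      · obtain ⟨g1, g2, g3⟩ := W2_shift hloc hs h
        have h2 := (W2_mem hloc h s).1 hs
        unfold Kq
        rw [if_pos g1, g3, ind_of hs, one_mul, indicator_of_mem (show s ∈ Ioo (-pa dev x u)
          (fu dev x u) from h2)]
        congr 2
        ring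
      · rw [ind_not hs, zero_mul, indicator_of_notMem]
        exact fun h' => hs ((W2_mem hloc h s).2 h')
    simp only [e1]
    rw [lintegral_indicator measurableSet_Ioo, setLIntegral_const, Real.volume_Ioo,
      ← ENNReal.ofReal_mul (inv_nonneg.2 hp.le)]
    congr 2
    ring
  · rw [indicator_of_notMem h]
    have e1 : ∀ s : ℝ, ind dev x (s • u) * Kq dev u (-s) (Ph dev x (s • u)) = 0 := by
      intro s
      by_cases hs : (x, s • u) ∈ Dm dev
      · unfold Kq
        rw [if_neg fun h' => h ((W2_shift_iff hloc hs).1 h'), mul_zero]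
      · rw [ind_not hs, zero_mul]
    simp only [e1, lintegral_zero]

theorem Ku_left (hloc : IsLocalHomeomorph dev) {B : Set ℝ} (hB : MeasurableSet B) (u : E) (x : X) :
    ∫⁻ s : ℝ, ind dev x (s • u) * Ku dev B u s x =
      (W2 dev).indicator (fun _ => volume (B ∩ Ioo 0 1)) (x, u) := by
  by_cases h : (x, u) ∈ W2 dev
  · have hf := fu_pos hloc h
    have hp := pa_pos hloc h
    rw [indicator_of_mem h]
    set L : ℝ := pa dev x u + fu dev x u with hLdef
    have hL : 0 < L := by linarith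
    have e1 : ∀ s : ℝ, ind dev x (s • u) * Ku dev B u s x =
        ENNReal.ofReal L⁻¹ * (B ∩ Ioo (0 : ℝ) 1).indicator 1 (L⁻¹ * (pa dev x u + s)) := by
      intro s
      unfold Ku
      rw [← hLdef]
      have e2 : (pa dev x u + s) / L = L⁻¹ * (pa dev x u + s) := by
        rw [div_eq_inv_mul]
      rw [e2]
      have e3 : (x, s • u) ∈ Dm dev ↔ L⁻¹ * (pa dev x u + s) ∈ Ioo (0 : ℝ) 1 := by
        rw [W2_mem hloc h, mem_Ioo, ← div_eq_inv_mul, div_pos_iff_of_pos_right hL, div_lt_one hL]
        constructor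
        · intro h; constructor <;> linarith [h.1, h.2]
        · intro h; constructor <;> linarith [h.1, h.2]
      by_cases hs : (x, s • u) ∈ Dm dev
      · rw [ind_of hs, one_mul]
        by_cases hb : L⁻¹ * (pa dev x u + s) ∈ B
        · rw [if_pos ⟨h, hb⟩, indicator_of_mem (show _ ∈ B ∩ Ioo (0 : ℝ) 1 from ⟨hb, e3.1 hs⟩)]
          show _ = _ * (1 : ℝ≥0∞)
          rw [mul_one]
        · rw [if_neg fun h' => hb h'.2, indicator_of_notMem fun h' => hb h'.1, mul_zero]
      · rw [ind_not hs, zero_mul, indicator_of_notMem fun h' => hs (e3.2 h'.2), mul_zero]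
    simp only [e1]
    have hI : Measurable ((B ∩ Ioo (0 : ℝ) 1).indicator (1 : ℝ → ℝ≥0∞)) :=
      measurable_one.indicator (hB.inter measurableSet_Ioo)
    have e4 := lintegral_add_left_eq_self (μ := volume)
      (fun r => ENNReal.ofReal L⁻¹ * (B ∩ Ioo (0 : ℝ) 1).indicator (1 : ℝ → ℝ≥0∞) (L⁻¹ * r))
      (pa dev x u)
    rw [e4]
    have hm1 : Measurable fun r : ℝ => L⁻¹ * r := measurable_const.mul measurable_id
    have hI2 : Measurable fun r : ℝ => (B ∩ Ioo (0 : ℝ) 1).indicator (1 : ℝ → ℝ≥0∞) (L⁻¹ * r) :=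
      hI.comp hm1
    rw [lintegral_const_mul _ hI2]
    have h3 := Real.smul_map_volume_mul_left (a := L⁻¹) (inv_pos.2 hL).ne'
    have h4 : volume (B ∩ Ioo (0 : ℝ) 1) = ∫⁻ r : ℝ, (B ∩ Ioo (0 : ℝ) 1).indicator 1 r :=
      (lintegral_indicator_one (hB.inter measurableSet_Ioo)).symm
    rw [h4]
    conv_rhs => rw [← h3]
    rw [lintegral_smul_measure, lintegral_map hI hm1, abs_of_pos (inv_pos.2 hL)]
    rfl
  · rw [indicator_of_notMem h]
    have e1 : ∀ s : ℝ, Ku dev B u s x = 0 := by
      intro s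
      unfold Ku
      rw [if_neg fun h' => h h'.1]
    simp only [e1, mul_zero, lintegral_zero]

/-- pairs with position in `B` -/
def WB (dev : X → E) (B : Set ℝ) : Set (X × E) :=
  {p | p ∈ W2 dev ∧ pa dev p.1 p.2 / (pa dev p.1 p.2 + fu dev p.1 p.2) ∈ B}

theorem Ku_right (hloc : IsLocalHomeomorph dev) (B : Set ℝ) (u : E) (x : X) :
    ∫⁻ s : ℝ, ind dev x (s • u) * Ku dev B u (-s) (Ph dev x (s • u)) =
      (WB dev B).indicator 1 (x, u) := by
  by_cases h : (x, u) ∈ W2 dev
  · have hf := fu_pos hloc h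
    have hp := pa_pos hloc h
    by_cases hb : pa dev x u / (pa dev x u + fu dev x u) ∈ B
    · rw [indicator_of_mem (show (x, u) ∈ WB dev B from ⟨h, hb⟩)]
      have e1 : ∀ s : ℝ, ind dev x (s • u) * Ku dev B u (-s) (Ph dev x (s • u)) =
          (Ioo (-pa dev x u) (fu dev x u)).indicator
            (fun _ => ENNReal.ofReal (pa dev x u + fu dev x u)⁻¹) s := by
        intro s
        by_cases hs : (x, s • u) ∈ Dm dev
        · obtain ⟨g1, g2, g3⟩ := W2_shift hloc hs h
          have h2 := (W2_mem hloc h s).1 hs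
          have e2 : pa dev x u + s + (fu dev x u - s) = pa dev x u + fu dev x u := by ring
          have e3 : pa dev x u + s + -s = pa dev x u := by ring
          unfold Ku
          rw [g2, g3, e2, e3, if_pos ⟨g1, hb⟩, ind_of hs, one_mul,
            indicator_of_mem (show s ∈ Ioo (-pa dev x u) (fu dev x u) from h2)]
        · rw [ind_not hs, zero_mul, indicator_of_notMem]
          exact fun h' => hs ((W2_mem hloc h s).2 h')
      simp only [e1]
      rw [lintegral_indicator measurableSet_Ioo, setLIntegral_const, Real.volume_Ioo,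
        ← ENNReal.ofReal_mul (by positivity)]
      have : (pa dev x u + fu dev x u)⁻¹ * (fu dev x u - -pa dev x u) = 1 := by
        have : pa dev x u + fu dev x u ≠ 0 := by linarith
        field_simp
        ring
      rw [this, ENNReal.ofReal_one]
      rfl
    · rw [indicator_of_notMem fun h' => hb h'.2]
      have e1 : ∀ s : ℝ, ind dev x (s • u) * Ku dev B u (-s) (Ph dev x (s • u)) = 0 := by
        intro s
        by_cases hs : (x, s • u) ∈ Dm dev
        · obtain ⟨g1, g2, g3⟩ := W2_shift hloc hs h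
          have e2 : pa dev x u + s + (fu dev x u - s) = pa dev x u + fu dev x u := by ring
          have e3 : pa dev x u + s + -s = pa dev x u := by ring
          unfold Ku
          rw [g2, g3, e2, e3, if_neg fun h' => hb h'.2, mul_zero]
        · rw [ind_not hs, zero_mul]
      simp only [e1, lintegral_zero]
  · rw [indicator_of_notMem fun h' => h h'.1]
    have e1 : ∀ s : ℝ, ind dev x (s • u) * Ku dev B u (-s) (Ph dev x (s • u)) = 0 := by
      intro s
      by_cases hs : (x, s • u) ∈ Dm dev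
      · unfold Ku
        rw [if_neg fun h' => h ((W2_shift_iff hloc hs).1 h'.1), mul_zero]
      · rw [ind_not hs, zero_mul]
    simp only [e1, lintegral_zero]

end

end Pool.Agent.FC640.MK
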